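import Pool.Agent.H708R3.SCDefs
import Pool.Agent.Helper884.IC.Compl

open scoped BigOperators Classical

noncomputable section

namespace Pool.Agent.H708R3.SC

variable {n : ℕ} {F : Type} [Field F]

lemma act_apply (u v : unitri n F) (y : nil n F) : ((act u v y : nil n F) : Matrix (Fin n) (Fin n) F)
    = ((u : GL (Fin n) F) : Matrix (Fin n) (Fin n) F) * (y : Matrix (Fin n) (Fin n) F)
    * ((v : GL (Fin n) F) : Matrix (Fin n) (Fin n) F) := rfl

lemma act_act (u v u' v' : unitri n F) (y : nil n F) :
    act u v (act u' v' y) = act (u * u') (v' * v) y := by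
  apply Subtype.ext
  simp only [act_apply, Subgroup.coe_mul, Units.val_mul, mul_assoc]

lemma act_one (y : nil n F) : act (1 : unitri n F) 1 y = y := by
  apply Subtype.ext
  simp [act_apply]

lemma act_comp (u v u' v' : unitri n F) :
    act u v ∘ₗ act u' v' = act (u * u') (v' * v) := by
  ext1 y
  exact act_act u v u' v' y

lemma act_one' : (act (1 : unitri n F) 1 : nil n F →ₗ[F] nil n F) = LinearMap.id := by
  ext1 y
  exact act_one y

lemma sub1_one : sub1 (1 : unitri n F) = 0 := by
  apply Subtype.ext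
  simp [sub1]

lemma sub1_inj {g h : unitri n F} (e : sub1 g = sub1 h) : g = h := by
  apply Subtype.ext
  apply Units.ext
  have := congrArg (fun x : nil n F => (x : Matrix (Fin n) (Fin n) F)) e
  simpa [sub1] using this

lemma sub1_inv_mul (h x : unitri n F) : sub1 (h⁻¹ * x) = act h⁻¹ 1 (sub1 x - sub1 h) := by
  apply Subtype.ext
  have h1 : (((h⁻¹ : unitri n F) : GL (Fin n) F) : Matrix (Fin n) (Fin n) F)
      * ((h : GL (Fin n) F) : Matrix (Fin n) (Fin n) F) = 1 := by
    rw [← Units.val_mul, ← Subgroup.coe_mul, inv_mul_cancel]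
    simp
  simp only [sub1, act_apply, Subgroup.coe_mul, Units.val_mul, Submodule.coe_sub]
  rw [sub_sub_sub_cancel_right, mul_sub, h1]
  simp

lemma sub1_conj (g h : unitri n F) : sub1 (h * g * h⁻¹) = act h h⁻¹ (sub1 g) := by
  apply Subtype.ext
  have h1 : ((h : GL (Fin n) F) : Matrix (Fin n) (Fin n) F)
      * (((h⁻¹ : unitri n F) : GL (Fin n) F) : Matrix (Fin n) (Fin n) F) = 1 := by
    rw [← Units.val_mul, ← Subgroup.coe_mul, mul_inv_cancel]
    simp
  simp only [sub1, act_apply, Subgroup.coe_mul, Units.val_mul, mul_sub, sub_mul, mul_one]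
  rw [h1]

lemma exists_sub1 (y : nil n F) : ∃ g : unitri n F, sub1 g = y := by
  have hdet : (1 + (y : Matrix (Fin n) (Fin n) F)).det = 1 := by
    rw [Matrix.det_of_upperTriangular]
    · refine Finset.prod_eq_one fun i _ => ?_
      simp [y.2 i i le_rfl]
    · intro i j hij
      change j < i at hij
      simp [Matrix.one_apply_ne (ne_of_gt hij), y.2 i j hij.le]
  let g : GL (Fin n) F := Matrix.GeneralLinearGroup.mkOfDetNeZero
    (1 + (y : Matrix (Fin n) (Fin n) F)) (by rw [hdet]; exact one_ne_zero)
  have hg : (g : Matrix (Fin n) (Fin n) F) = 1 + (y : Matrix (Fin n) (Fin n) F) := rfl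
  refine ⟨⟨g, ?_⟩, ?_⟩
  · show (g : Matrix (Fin n) (Fin n) F) - 1 ∈ nil n F
    rw [hg, add_sub_cancel_left]
    exact y.2
  · apply Subtype.ext
    show (g : Matrix (Fin n) (Fin n) F) - 1 = y
    rw [hg, add_sub_cancel_left]

/-- `g ↦ g - 1` as an equivalence. -/
def e1 : unitri n F ≃ nil n F :=
  Equiv.ofBijective sub1 ⟨fun _ _ => sub1_inj, exists_sub1⟩

lemma e1_apply (g : unitri n F) : e1 g = sub1 g := rfl

/-! orbits -/

lemma mem_orb_self (lam : Module.Dual F (nil n F)) : lam ∈ orb lam :=
  ⟨1, 1, by rw [act_one']; rfl⟩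

lemma orb_symm {lam mu : Module.Dual F (nil n F)} (h : mu ∈ orb lam) : lam ∈ orb mu := by
  obtain ⟨u, v, rfl⟩ := h
  refine ⟨u⁻¹, v⁻¹, ?_⟩
  rw [LinearMap.comp_assoc, act_comp, mul_inv_cancel, inv_mul_cancel, act_one']
  rfl

lemma orb_trans {lam mu nu : Module.Dual F (nil n F)} (h : mu ∈ orb lam) (h' : nu ∈ orb mu) :
    nu ∈ orb lam := by
  obtain ⟨u, v, rfl⟩ := h
  obtain ⟨u', v', rfl⟩ := h'
  refine ⟨u * u', v' * v, ?_⟩
  rw [LinearMap.comp_assoc, act_comp]

lemma orb_eq {lam mu : Module.Dual F (nil n F)} (h : mu ∈ orb lam) : orb mu = orb lam := by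
  ext nu
  exact ⟨fun h' => orb_trans h h', fun h' => orb_trans (orb_symm h) h'⟩

lemma mem_orb_comm {lam mu : Module.Dual F (nil n F)} : mu ∈ orb lam ↔ lam ∈ orb mu :=
  ⟨orb_symm, orb_symm⟩

lemma comp_mem_orb {lam mu : Module.Dual F (nil n F)} (u v : unitri n F) :
    mu ∘ₗ act u v ∈ orb lam ↔ mu ∈ orb lam := by
  constructor
  · intro h
    exact orb_trans h (orb_symm ⟨u, v, rfl⟩)
  · intro h
    exact orb_trans h ⟨u, v, rfl⟩

/-- precomposition with `act u v` as a permutation of the dual -/
def dperm (u v : unitri n F) : Module.Dual F (nil n F) ≃ Module.Dual F (nil n F) where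
  toFun mu := mu ∘ₗ act u v
  invFun mu := mu ∘ₗ act u⁻¹ v⁻¹
  left_inv mu := by
    show (mu ∘ₗ act u v) ∘ₗ act u⁻¹ v⁻¹ = mu
    rw [LinearMap.comp_assoc, act_comp, mul_inv_cancel, inv_mul_cancel, act_one']
    rfl
  right_inv mu := by
    show (mu ∘ₗ act u⁻¹ v⁻¹) ∘ₗ act u v = mu
    rw [LinearMap.comp_assoc, act_comp, mul_inv_cancel, inv_mul_cancel, act_one']
    rfl

/-- the orbit sum on `nil` -/
def Hf (theta : AddChar F ℂ) (lam : Module.Dual F (nil n F)) (y : nil n F) : ℂ :=
  ∑ᶠ mu ∈ orb lam, theta (mu y)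

lemma superchar_eq (theta : AddChar F ℂ) (lam : Module.Dual F (nil n F)) (g : unitri n F) :
    superchar theta lam g = Hf theta lam (sub1 g) := rfl

section Fin

variable [Finite F]

instance finite_dual : Finite (Module.Dual F (nil n F)) := Module.finite_of_finite F

instance finite_nil : Finite (nil n F) := Module.finite_of_finite F

instance finite_unitri : Finite (unitri n F) := Finite.of_equiv _ (e1 (n := n) (F := F)).symm

instance fintype_dual : Fintype (Module.Dual F (nil n F)) := Fintype.ofFinite _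
instance fintype_nil : Fintype (nil n F) := Fintype.ofFinite _
instance fintype_unitri : Fintype (unitri n F) := Fintype.ofFinite _

lemma Hf_sum (theta : AddChar F ℂ) (lam : Module.Dual F (nil n F)) (y : nil n F) :
    Hf theta lam y = ∑ mu : Module.Dual F (nil n F), if mu ∈ orb lam then theta (mu y) else 0 := by
  unfold Hf
  rw [finsum_mem_def, finsum_eq_sum_of_fintype]
  refine Finset.sum_congr rfl fun mu _ => ?_
  rw [Set.indicator_apply]

lemma Hf_act (theta : AddChar F ℂ) (lam : Module.Dual F (nil n F)) (y : nil n F)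
    (u v : unitri n F) : Hf theta lam (act u v y) = Hf theta lam y := by
  rw [Hf_sum, Hf_sum]
  refine Fintype.sum_equiv (dperm u v) _ _ fun mu => ?_
  show (if mu ∈ orb lam then theta (mu (act u v y)) else 0)
    = if mu ∘ₗ act u v ∈ orb lam then theta ((mu ∘ₗ act u v) y) else 0
  rw [comp_mem_orb]
  rfl

lemma Hf_zero (theta : AddChar F ℂ) (lam : Module.Dual F (nil n F)) :
    Hf theta lam 0 = (orb lam).ncard := by
  rw [Hf_sum, Set.ncard_eq_toFinset_card']
  simp only [map_zero, AddChar.map_zero_eq_one]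
  rw [Finset.sum_ite, Finset.sum_const_zero, add_zero, Finset.sum_const, nsmul_eq_mul, mul_one]
  congr 2
  ext mu
  simp

lemma Hf_congr (theta : AddChar F ℂ) {lam mu : Module.Dual F (nil n F)} (h : orb lam = orb mu)
    (y : nil n F) : Hf theta lam y = Hf theta mu y := by
  unfold Hf
  rw [h]

/-! orthogonality -/

lemma sum_nil {theta : AddChar F ℂ} (ht : theta ≠ 1) (mu : Module.Dual F (nil n F)) :
    ∑ y : nil n F, theta (mu y) = if mu = 0 then (Fintype.card (nil n F) : ℂ) else 0 := by
  split_ifs with h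
  · subst h
    simp
  · obtain ⟨y0, hy0⟩ : ∃ y, mu y ≠ 0 := by
      by_contra hc
      push Not at hc
      exact h (LinearMap.ext hc)
    obtain ⟨c, hc⟩ := AddChar.ne_one_iff.mp ht
    set z : nil n F := (c / mu y0) • y0 with hz
    have hmz : mu z = c := by
      rw [hz, map_smul, smul_eq_mul, div_mul_cancel₀ _ hy0]
    have h1 : ∑ y : nil n F, theta (mu y) = theta c * ∑ y : nil n F, theta (mu y) := by
      rw [Finset.mul_sum]
      refine (Fintype.sum_equiv (Equiv.addLeft z) _ _ fun y => ?_).symm
      show theta c * theta (mu y) = theta (mu (z + y))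
      rw [map_add, hmz, AddChar.map_add_eq_mul]
    have h2 : (1 - theta c) * ∑ y : nil n F, theta (mu y) = 0 := by
      rw [sub_mul, one_mul, ← h1, sub_self]
    rcases mul_eq_zero.mp h2 with h3 | h3
    · exact absurd (sub_eq_zero.mp h3).symm hc
    · exact h3

lemma sum_dual {theta : AddChar F ℂ} (ht : theta ≠ 1) (y : nil n F) :
    ∑ mu : Module.Dual F (nil n F), theta (mu y)
      = if y = 0 then (Fintype.card (Module.Dual F (nil n F)) : ℂ) else 0 := by
  split_ifs with h
  · subst h
    simp
  · obtain ⟨mu0, hmu0⟩ : ∃ mu : Module.Dual F (nil n F), mu y ≠ 0 := by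
      by_contra hc
      push Not at hc
      exact h ((Module.forall_dual_apply_eq_zero_iff F y).mp hc)
    obtain ⟨c, hc⟩ := AddChar.ne_one_iff.mp ht
    set z : Module.Dual F (nil n F) := (c / mu0 y) • mu0 with hz
    have hmz : z y = c := by
      rw [hz, LinearMap.smul_apply, smul_eq_mul, div_mul_cancel₀ _ hmu0]
    have h1 : ∑ mu : Module.Dual F (nil n F), theta (mu y)
        = theta c * ∑ mu : Module.Dual F (nil n F), theta (mu y) := by
      rw [Finset.mul_sum]
      refine (Fintype.sum_equiv (Equiv.addLeft z) _ _ fun mu => ?_).symm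
      show theta c * theta (mu y) = theta ((z + mu) y)
      rw [LinearMap.add_apply, hmz, AddChar.map_add_eq_mul]
    have h2 : (1 - theta c) * ∑ mu : Module.Dual F (nil n F), theta (mu y) = 0 := by
      rw [sub_mul, one_mul, ← h1, sub_self]
    rcases mul_eq_zero.mp h2 with h3 | h3
    · exact absurd (sub_eq_zero.mp h3).symm hc
    · exact h3

/-- additive convolution of orbit sums -/
lemma Hf_conv {theta : AddChar F ℂ} (ht : theta ≠ 1) (lam lam' : Module.Dual F (nil n F))
    (z : nil n F) : ∑ y : nil n F, Hf theta lam' y * Hf theta lam (z - y)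
      = (Fintype.card (nil n F) : ℂ) * (if orb lam = orb lam' then Hf theta lam z else 0) := by
  have h1 : ∀ y : nil n F, Hf theta lam' y * Hf theta lam (z - y)
      = ∑ mu : Module.Dual F (nil n F), ∑ nu : Module.Dual F (nil n F),
        (if mu ∈ orb lam' then (if nu ∈ orb lam then theta (nu z) * theta ((mu - nu) y) else 0)
          else 0) := by
    intro y
    rw [Hf_sum, Hf_sum, Finset.sum_mul_sum]
    refine Finset.sum_congr rfl fun mu _ => Finset.sum_congr rfl fun nu _ => ?_
    split_ifs with h1 h2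
    · rw [map_sub, LinearMap.sub_apply, AddChar.map_sub_eq_div, AddChar.map_sub_eq_div]
      ring
    · ring
    · ring
    · ring
  simp_rw [h1]
  rw [Finset.sum_comm]
  have h2 : ∀ mu : Module.Dual F (nil n F), ∑ y : nil n F, ∑ nu : Module.Dual F (nil n F),
        (if mu ∈ orb lam' then (if nu ∈ orb lam then theta (nu z) * theta ((mu - nu) y) else 0)
          else 0) = if mu ∈ orb lam' then (if mu ∈ orb lam then theta (mu z)
            * (Fintype.card (nil n F) : ℂ) else 0) else 0 := by
    intro mu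
    rw [Finset.sum_comm]
    split_ifs with h3 h4
    · rw [Finset.sum_eq_single mu]
      · simp only [if_pos h4]
        rw [← Finset.mul_sum, sum_nil ht, if_pos (sub_self mu)]
      · intro nu _ hne
        split_ifs with h5
        · rw [← Finset.mul_sum, sum_nil ht, if_neg (sub_ne_zero.mpr (Ne.symm hne)), mul_zero]
        · simp
      · intro h
        exact absurd (Finset.mem_univ _) h
    · refine Finset.sum_eq_zero fun nu _ => ?_
      split_ifs with h5
      · rw [← Finset.mul_sum, sum_nil ht, if_neg, mul_zero]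
        intro h6
        rw [sub_eq_zero] at h6
        exact h4 (h6 ▸ h5)
      · simp
    · simp
  simp_rw [h2]
  split_ifs with h
  · rw [Hf_sum, Finset.mul_sum]
    refine Finset.sum_congr rfl fun mu _ => ?_
    rw [h]
    split_ifs <;> ring
  · rw [mul_zero]
    refine Finset.sum_eq_zero fun mu _ => ?_
    split_ifs with h3 h4
    · exact absurd ((orb_eq h4).symm.trans (orb_eq h3)) h
    · rfl
    · rfl

/-- multiplicative convolution of the superchar functions -/
lemma sc_conv {theta : AddChar F ℂ} (ht : theta ≠ 1) (lam lam' : Module.Dual F (nil n F))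
    (x : unitri n F) : ∑ h : unitri n F, superchar theta lam' h * superchar theta lam (h⁻¹ * x)
      = (Fintype.card (nil n F) : ℂ)
        * (if orb lam = orb lam' then superchar theta lam x else 0) := by
  have h1 := Hf_conv ht lam lam' (sub1 x)
  rw [superchar_eq, ← h1]
  refine Fintype.sum_equiv e1 _ _ fun h => ?_
  rw [superchar_eq, superchar_eq, sub1_inv_mul, Hf_act, e1_apply]

end Fin

end Pool.Agent.H708R3.SC
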