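import Pool.Agent.H708R3.SC1

open scoped BigOperators Classical
open Representation Pool.Agent.Helper884.IC

noncomputable section

namespace Pool.Agent.H708R3.SC

variable {n : ℕ} {F : Type} [Field F] [Finite F]

lemma card_nil_eq : (Fintype.card (nil n F) : ℂ) = Nat.card (unitri n F) := by
  rw [Nat.card_eq_fintype_card, Fintype.card_congr (e1 (n := n) (F := F))]

lemma sc_class (theta : AddChar F ℂ) (lam : Module.Dual F (nil n F)) :
    IsClass (superchar theta lam : unitri n F → ℂ) := by
  intro g y
  rw [superchar_eq, superchar_eq, sub1_conj, Hf_act]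

lemma irr_nontrivial {G : Type} [Group G] {V : Type} [AddCommGroup V] [Module ℂ V]
    (rho : Representation ℂ G V) (hirr : rho.IsIrreducible) : Nontrivial V := by
  by_contra hn
  rw [not_nontrivial_iff_subsingleton] at hn
  have : Subsingleton (Subrepresentation rho) := by
    constructor
    intro a b
    ext x
    have : x = 0 := Subsingleton.elim _ _
    subst this
    simp
  have h5 := hirr.toNontrivial
  exact not_subsingleton (Subrepresentation rho) this

/-- a class function acts by a scalar in an irreducible representation -/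
lemma Top_scalar {G : Type} [Group G] [Fintype G] {V : Type} [AddCommGroup V] [Module ℂ V]
    [FiniteDimensional ℂ V] (rho : Representation ℂ G V) (hirr : rho.IsIrreducible) (f : G → ℂ)
    (hf : IsClass f) : ∃ c : ℂ, Top rho f = c • LinearMap.id ∧
      c * Module.finrank ℂ V = Nat.card G * B f rho.character := by
  have hcomm : ∀ (h : G) (v : V), Top rho f (rho h v) = rho h (Top rho f v) := by
    intro h v
    simp only [Helper884.IC.Top, LinearMap.sum_apply, LinearMap.smul_apply, map_sum, map_smul]
    have : ∀ g : G, rho g⁻¹ (rho h v) = rho h (rho (h⁻¹ * g⁻¹ * h) v) := by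
      intro g
      rw [← Module.End.mul_apply, ← Module.End.mul_apply, ← map_mul, ← map_mul]
      congr 2
      group
    simp_rw [this]
    refine Fintype.sum_equiv (MulAut.conj h⁻¹).toEquiv _ _ ?_
    intro g
    have e1 : (MulAut.conj h⁻¹).toEquiv g = h⁻¹ * g * h := by simp
    rw [e1]
    have h1 : f (h⁻¹ * g * h) = f g := by
      have := hf g h⁻¹
      simpa using this
    rw [h1]
    congr 4
    group
  let T : IntertwiningMap rho rho := (Top rho f).intertwiningMap_of_isIntertwiningMap rho rho hcomm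
  obtain ⟨c, hc⟩ := (Representation.IsIrreducible.algebraMap_intertwiningMap_bijective_of_isAlgClosed
    (ρ := rho)).2 T
  have hT : Top rho f = c • LinearMap.id := by
    ext v
    have := congrArg (fun S : IntertwiningMap rho rho => S v) hc
    have h2 : T v = Top rho f v := rfl
    rw [← h2]
    exact this.symm
  refine ⟨c, hT, ?_⟩
  have htr : LinearMap.trace ℂ V (Top rho f) = ∑ g : G, f g * rho.character g⁻¹ := by
    simp [Helper884.IC.Top, Representation.character]
  rw [hT, map_smul, LinearMap.trace_id, smul_eq_mul] at htr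
  rw [htr]
  unfold B
  rw [← mul_assoc, mul_inv_cancel₀ cardG_ne, one_mul]

/-- composition of operators is convolution -/
lemma Top_comp {G : Type} [Group G] [Fintype G] {V : Type} [AddCommGroup V] [Module ℂ V]
    (rho : Representation ℂ G V) (f f' : G → ℂ) :
    Top rho f ∘ₗ Top rho f' = Top rho (fun x => ∑ h : G, f' h * f (h⁻¹ * x)) := by
  ext v
  simp only [Helper884.IC.Top, LinearMap.comp_apply, LinearMap.sum_apply, LinearMap.smul_apply, map_sum,
    map_smul, Finset.sum_smul, Finset.smul_sum]
  have h1 : ∀ h : G, ∑ g : G, f' h • (f g • (rho g⁻¹) ((rho h⁻¹) v))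
      = ∑ x : G, (f' h * f (h⁻¹ * x)) • rho x⁻¹ v := by
    intro h
    refine Fintype.sum_equiv (Equiv.mulLeft h) _ _ fun g => ?_
    show _ = (f' h * f (h⁻¹ * (h * g))) • rho (h * g)⁻¹ v
    rw [inv_mul_cancel_left, mul_inv_rev, map_mul, Module.End.mul_apply, smul_smul]
  rw [Finset.sum_congr rfl fun h _ => h1 h]
  rw [Finset.sum_comm]

lemma Top_smul {G : Type} [Group G] [Fintype G] {V : Type} [AddCommGroup V] [Module ℂ V]
    (rho : Representation ℂ G V) (c : ℂ) (f : G → ℂ) : Top rho (c • f) = c • Top rho f := by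
  simp only [Helper884.IC.Top, Finset.smul_sum, Pi.smul_apply, smul_smul, smul_eq_mul]

lemma Top_zero {G : Type} [Group G] [Fintype G] {V : Type} [AddCommGroup V] [Module ℂ V]
    (rho : Representation ℂ G V) : Top rho (0 : G → ℂ) = 0 := by
  simp [Helper884.IC.Top]

/-- the key dichotomy -/
lemma coef {theta : AddChar F ℂ} (ht : theta ≠ 1) {psi : unitri n F → ℂ} (hp : IsIrr psi)
    (lam : Module.Dual F (nil n F)) : B (superchar theta lam) psi = 0 ∨
      B (superchar theta lam) psi = psi 1 := by
  obtain ⟨V, _, _, _, rho, hirr, rfl⟩ := hp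
  have := irr_nontrivial rho hirr
  have hd : (Module.finrank ℂ V : ℂ) ≠ 0 := by
    exact_mod_cast (Module.finrank_pos (R := ℂ) (M := V)).ne'
  obtain ⟨c, hc, hc2⟩ := Top_scalar rho hirr _ (sc_class theta lam)
  have h1 : Top rho (superchar theta lam) ∘ₗ Top rho (superchar theta lam)
      = (Nat.card (unitri n F) : ℂ) • Top rho (superchar theta lam) := by
    rw [Top_comp, ← Top_smul]
    congr 1
    funext x
    rw [sc_conv ht, if_pos rfl, card_nil_eq]
    rfl
  rw [hc, LinearMap.comp_smul, LinearMap.comp_id, smul_smul, smul_smul] at h1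
  obtain ⟨v, hv⟩ := exists_ne (0 : V)
  have h2 := congrArg (fun S : V →ₗ[ℂ] V => S v) h1
  simp only [LinearMap.smul_apply, LinearMap.id_apply] at h2
  have h3 : c * c = (Nat.card (unitri n F) : ℂ) * c := smul_left_injective ℂ hv h2
  have hG : (Nat.card (unitri n F) : ℂ) ≠ 0 := cardG_ne
  rw [Representation.char_one]
  by_cases hc0 : c = 0
  · left
    rw [hc0, zero_mul] at hc2
    rcases mul_eq_zero.mp hc2.symm with h | h
    · exact absurd h hG
    · exact h
  · right
    have h4 : c = (Nat.card (unitri n F) : ℂ) := mul_right_cancel₀ hc0 h3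
    rw [h4] at hc2
    exact (mul_left_cancel₀ hG hc2).symm

lemma coef_disj {theta : AddChar F ℂ} (ht : theta ≠ 1) {psi : unitri n F → ℂ} (hp : IsIrr psi)
    (lam lam' : Module.Dual F (nil n F)) (h : B (superchar theta lam) psi ≠ 0)
    (h' : B (superchar theta lam') psi ≠ 0) : orb lam = orb lam' := by
  by_contra hne
  obtain ⟨V, _, _, _, rho, hirr, rfl⟩ := hp
  have := irr_nontrivial rho hirr
  have hd : (Module.finrank ℂ V : ℂ) ≠ 0 := by
    exact_mod_cast (Module.finrank_pos (R := ℂ) (M := V)).ne'
  obtain ⟨c, hc, hc2⟩ := Top_scalar rho hirr _ (sc_class theta lam)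
  obtain ⟨c', hc', hc2'⟩ := Top_scalar rho hirr _ (sc_class theta lam')
  have hG : (Nat.card (unitri n F) : ℂ) ≠ 0 := cardG_ne
  have h1 : Top rho (superchar theta lam) ∘ₗ Top rho (superchar theta lam') = 0 := by
    rw [Top_comp, ← Top_zero rho]
    congr 1
    funext x
    rw [sc_conv ht, if_neg hne, mul_zero]
    rfl
  rw [hc, hc', LinearMap.comp_smul, LinearMap.comp_id, smul_smul] at h1
  obtain ⟨v, hv⟩ := exists_ne (0 : V)
  have h2 := congrArg (fun S : V →ₗ[ℂ] V => S v) h1
  simp only [LinearMap.smul_apply, LinearMap.id_apply, LinearMap.zero_apply] at h2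
  have h3 : c' * c = 0 := by
    rcases smul_eq_zero.mp h2 with h | h
    · exact h
    · exact absurd h hv
  rcases mul_eq_zero.mp h3 with h4 | h4
  · rw [h4, zero_mul] at hc2'
    rcases mul_eq_zero.mp hc2'.symm with h5 | h5
    · exact hG h5
    · exact h' h5
  · rw [h4, zero_mul] at hc2
    rcases mul_eq_zero.mp hc2.symm with h5 | h5
    · exact hG h5
    · exact h h5

lemma orb_ncard_pos (lam : Module.Dual F (nil n F)) : 0 < (orb lam).ncard :=
  (Set.ncard_pos (Set.toFinite _)).mpr ⟨lam, mem_orb_self lam⟩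

/-- the weighted sum of all superchar functions is `|U|` times the delta function at `1` -/
lemma sum_sc {theta : AddChar F ℂ} (ht : theta ≠ 1) (g : unitri n F) :
    ∑ mu : Module.Dual F (nil n F), ((orb mu).ncard : ℂ)⁻¹ * superchar theta mu g
      = if g = 1 then (Fintype.card (Module.Dual F (nil n F)) : ℂ) else 0 := by
  have h0 : (if g = 1 then (Fintype.card (Module.Dual F (nil n F)) : ℂ) else 0)
      = if sub1 g = 0 then (Fintype.card (Module.Dual F (nil n F)) : ℂ) else 0 := by
    have : g = 1 ↔ sub1 g = 0 := by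
      constructor
      · intro h
        rw [h, sub1_one]
      · intro h
        exact sub1_inj (h.trans sub1_one.symm)
    simp only [this]
  rw [h0, ← sum_dual ht]
  simp_rw [superchar_eq, Hf_sum, Finset.mul_sum]
  rw [Finset.sum_comm]
  refine Finset.sum_congr rfl fun nu _ => ?_
  have h1 : ∀ mu : Module.Dual F (nil n F),
      ((orb mu).ncard : ℂ)⁻¹ * (if nu ∈ orb mu then theta (nu (sub1 g)) else 0)
        = if mu ∈ orb nu then ((orb nu).ncard : ℂ)⁻¹ * theta (nu (sub1 g)) else 0 := by
    intro mu
    by_cases h : mu ∈ orb nu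
    · rw [if_pos h, if_pos (orb_symm h), orb_eq h]
    · rw [if_neg h, if_neg (fun h' => h (orb_symm h')), mul_zero]
  simp_rw [h1]
  rw [Finset.sum_ite, Finset.sum_const_zero, add_zero, Finset.sum_const, nsmul_eq_mul]
  have h2 : ((Finset.univ.filter (fun mu => mu ∈ orb nu)).card : ℂ) = (orb nu).ncard := by
    rw [Set.ncard_eq_toFinset_card']
    congr 2
    ext mu
    simp
  rw [h2, ← mul_assoc, mul_inv_cancel₀, one_mul]
  exact_mod_cast (orb_ncard_pos nu).ne'

lemma coef_exists {theta : AddChar F ℂ} (ht : theta ≠ 1) {psi : unitri n F → ℂ} (hp : IsIrr psi) :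
    ∃ lam : Module.Dual F (nil n F), B (superchar theta lam) psi ≠ 0 := by
  by_contra hc
  push Not at hc
  have h1 : B (∑ mu : Module.Dual F (nil n F), ((orb mu).ncard : ℂ)⁻¹ • superchar theta mu) psi
      = 0 := by
    rw [B_sum_left]
    refine Finset.sum_eq_zero fun mu _ => ?_
    rw [B_smul_left, hc, mul_zero]
  have h2 : (∑ mu : Module.Dual F (nil n F), ((orb mu).ncard : ℂ)⁻¹ • superchar theta mu)
      = fun g : unitri n F => if g = 1 then (Fintype.card (Module.Dual F (nil n F)) : ℂ) else 0 := by
    funext g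
    rw [Finset.sum_apply]
    simp only [Pi.smul_apply, smul_eq_mul]
    exact sum_sc ht g
  rw [h2] at h1
  unfold B at h1
  rw [Finset.sum_eq_single (1 : unitri n F)] at h1
  · simp only [if_true, inv_one] at h1
    obtain ⟨V, _, _, _, rho, hirr, rfl⟩ := hp
    have := irr_nontrivial rho hirr
    have hd : (Module.finrank ℂ V : ℂ) ≠ 0 := by
      exact_mod_cast (Module.finrank_pos (R := ℂ) (M := V)).ne'
    rw [Representation.char_one] at h1
    have hG : (Nat.card (unitri n F) : ℂ) ≠ 0 := cardG_ne
    have hD : (Fintype.card (Module.Dual F (nil n F)) : ℂ) ≠ 0 := by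
      exact_mod_cast Fintype.card_ne_zero
    exact (mul_ne_zero (inv_ne_zero hG) (mul_ne_zero hD hd)) h1
  · intro g _ hg
    show (if g = 1 then (Fintype.card (Module.Dual F (nil n F)) : ℂ) else 0) * psi g⁻¹ = 0
    rw [if_neg hg, zero_mul]
  · intro h
    exact absurd (Finset.mem_univ _) h

/-- the irreducible constituents of a superchar function -/
def Xset (theta : AddChar F ℂ) (lam : Module.Dual F (nil n F)) : Set (unitri n F → ℂ) :=
  {psi | IsIrr psi ∧ B (superchar theta lam) psi ≠ 0}

lemma sigma_eq {G : Type} [Group G] [Fintype G] (x : Set (G → ℂ)) (hx : ∀ psi ∈ x, IsIrr psi) (g : G) :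
    sigma x g = ∑ psi ∈ Irr G, if psi ∈ x then psi 1 * psi g else 0 := by
  unfold sigma
  rw [finsum_mem_def, finsum_eq_sum_of_support_subset (s := Irr G)]
  · refine Finset.sum_congr rfl fun psi _ => ?_
    rw [Set.indicator_apply]
  · intro psi hpsi
    rw [Function.mem_support] at hpsi
    have h1 : psi ∈ x := by
      by_contra h
      exact hpsi (Set.indicator_of_notMem h _)
    exact mem_Irr.mpr (hx psi h1)

lemma sigma_B {G : Type} [Group G] [Fintype G] (x : Set (G → ℂ)) (hx : ∀ psi ∈ x, IsIrr psi)
    {psi : G → ℂ} (hp : IsIrr psi) : B (sigma x) psi = if psi ∈ x then psi 1 else 0 := by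
  have h1 : (sigma x : G → ℂ) = ∑ chi ∈ Irr G, (if chi ∈ x then chi 1 else 0) • chi := by
    funext g
    rw [sigma_eq x hx, Finset.sum_apply]
    refine Finset.sum_congr rfl fun chi _ => ?_
    rw [Pi.smul_apply, smul_eq_mul]
    split_ifs <;> ring
  rw [h1, B_sum_left]
  simp only [B_smul_left]
  rw [Finset.sum_eq_single psi]
  · rw [B_irr hp hp, if_pos rfl, mul_one]
  · intro chi hchi hne
    rw [B_irr (mem_Irr.mp hchi) hp, if_neg hne, mul_zero]
  · intro h
    exact absurd (mem_Irr.mpr hp) h

lemma sigma_Xset {theta : AddChar F ℂ} (ht : theta ≠ 1) (lam : Module.Dual F (nil n F))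
    (g : unitri n F) : sigma (Xset theta lam) g = superchar theta lam g := by
  rw [sigma_eq _ (fun psi h => h.1)]
  have h1 := congrFun (expand _ (sc_class theta lam)) g
  rw [Finset.sum_apply] at h1
  rw [h1]
  refine Finset.sum_congr rfl fun psi hpsi => ?_
  rw [Pi.smul_apply, smul_eq_mul]
  have hp : IsIrr psi := mem_Irr.mp hpsi
  split_ifs with h
  · rcases coef ht hp lam with h2 | h2
    · exact absurd h2 h.2
    · rw [h2]
  · have h3 : B (superchar theta lam) psi = 0 := by
      by_contra h4
      exact h ⟨hp, h4⟩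
    rw [h3, zero_mul]

lemma irr_one_ne {G : Type} [Group G] {psi : G → ℂ} (hp : IsIrr psi) : psi 1 ≠ 0 := by
  obtain ⟨V, _, _, _, rho, hirr, rfl⟩ := hp
  have := irr_nontrivial rho hirr
  rw [Representation.char_one]
  exact_mod_cast (Module.finrank_pos (R := ℂ) (M := V)).ne'

lemma mem_andreX {theta : AddChar F ℂ} (ht : theta ≠ 1) (x : Set (unitri n F → ℂ)) :
    x ∈ andreX n theta ↔ ∃ lam, x = Xset theta lam := by
  constructor
  · rintro ⟨hx, lam, c, hc, h⟩
    refine ⟨lam, ?_⟩
    have h1 : superchar theta lam = (c : ℂ) • (sigma x : unitri n F → ℂ) := by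
      funext g
      exact h g
    have hc' : (c : ℂ) ≠ 0 := by exact_mod_cast hc.ne'
    ext psi
    constructor
    · intro hp
      refine ⟨hx psi hp, ?_⟩
      rw [h1, B_smul_left, sigma_B x hx (hx psi hp), if_pos hp]
      exact mul_ne_zero hc' (irr_one_ne (hx psi hp))
    · rintro ⟨hp, hne⟩
      by_contra hn
      apply hne
      rw [h1, B_smul_left, sigma_B x hx hp, if_neg hn, mul_zero]
  · rintro ⟨lam, rfl⟩
    refine ⟨fun psi h => h.1, lam, 1, one_pos, fun g => ?_⟩
    rw [sigma_Xset ht]
    simp

lemma Xset_nonempty {theta : AddChar F ℂ} (ht : theta ≠ 1) (lam : Module.Dual F (nil n F)) :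
    (Xset theta lam).Nonempty := by
  by_contra hne
  rw [Set.not_nonempty_iff_eq_empty] at hne
  have h1 := sigma_Xset ht lam 1
  rw [hne, superchar_eq, sub1_one, Hf_zero] at h1
  have h2 : sigma (∅ : Set (unitri n F → ℂ)) 1 = 0 := by
    unfold sigma
    simp
  rw [h2] at h1
  have := (orb_ncard_pos lam).ne'
  exact this (by exact_mod_cast h1.symm)

lemma Xset_eq_iff {theta : AddChar F ℂ} (ht : theta ≠ 1) (lam mu : Module.Dual F (nil n F)) :
    Xset theta lam = Xset theta mu ↔ orb lam = orb mu := by
  constructor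
  · intro h
    obtain ⟨psi, hp⟩ := Xset_nonempty ht lam
    have hp' : psi ∈ Xset theta mu := h ▸ hp
    exact coef_disj ht hp.1 _ _ hp.2 hp'.2
  · intro h
    have h1 : superchar theta lam = superchar theta mu := by
      funext g
      rw [superchar_eq, superchar_eq, Hf_congr theta h]
    unfold Xset
    rw [h1]

end Pool.Agent.H708R3.SC
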