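import Pool.Agent.H708R3.SC2

open scoped BigOperators Classical
open Representation Pool.Agent.Helper884.IC

noncomputable section

namespace Pool.Agent.H708R3.SC

/-! general facts on supercharacter theories -/

section General

variable {G : Type} [Group G] [Fintype G]

lemma sigma_inj_coef {X : Set (Set (G → ℂ))} {K : Set (Set G)} (h : IsSCT G X K)
    {f : G → ℂ} (hf : ∀ k ∈ K, ∀ g ∈ k, ∀ g' ∈ k, f g = f g') :
    ∀ x ∈ X, ∀ psi ∈ x, ∀ psi' ∈ x, B f psi * psi' 1 = B f psi' * psi 1 := by
  have hKfin : K.Finite := Set.toFinite K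
  have hXfin : X.Finite := by
    have hsub : X ⊆ 𝒫 {psi : G → ℂ | IsIrrChar psi} := fun x hx psi hp => h.X_irr x hx psi hp
    exact (irr_finite (G := G)).finite_subsets.subset hsub
  letI : Fintype K := hKfin.fintype
  letI : Fintype X := hXfin.fintype
  have hcard : Fintype.card X = Fintype.card K := by
    have := h.card_eq
    rwa [← Nat.card_coe_set_eq, ← Nat.card_coe_set_eq, Nat.card_eq_fintype_card,
      Nat.card_eq_fintype_card] at this
  -- representatives
  have hne : ∀ k : K, (k : Set G).Nonempty := by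
    intro k
    by_contra hc
    rw [Set.not_nonempty_iff_eq_empty] at hc
    exact h.K_part.1 (hc ▸ k.2)
  choose r hr using hne
  have hblock : ∀ g : G, ∃ k : K, g ∈ (k : Set G) := by
    intro g
    obtain ⟨k, ⟨hk, hg⟩, _⟩ := h.K_part.2 g
    exact ⟨⟨k, hk⟩, hg⟩
  let v : X → (K → ℂ) := fun x k => sigma (x : Set (G → ℂ)) (r k)
  have hlift : ∀ c : X → ℂ, ∀ F : G → ℂ, (∀ k ∈ K, ∀ g ∈ k, ∀ g' ∈ k, F g = F g') →
      (∑ x : X, c x • v x = fun k => F (r k)) →
      (∑ x : X, c x • (sigma (x : Set (G → ℂ)) : G → ℂ) = F) := by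
    intro c F hF hc
    funext g
    obtain ⟨k, hk⟩ := hblock g
    have h1 := congrFun hc k
    rw [Finset.sum_apply] at h1 ⊢
    rw [hF k k.2 g hk (r k) (hr k), ← h1]
    refine Finset.sum_congr rfl fun x _ => ?_
    simp only [Pi.smul_apply, v]
    rw [h.const x x.2 k k.2 g hk (r k) (hr k)]
  have hBx : ∀ c : X → ℂ, ∀ x : X, ∀ psi ∈ (x : Set (G → ℂ)),
      B (∑ y : X, c y • (sigma (y : Set (G → ℂ)) : G → ℂ)) psi = c x * psi 1 := by
    intro c x psi hp
    have hpi : IsIrr psi := h.X_irr x x.2 psi hp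
    rw [B_sum_left, Finset.sum_eq_single x]
    · rw [B_smul_left, sigma_B _ (h.X_irr x x.2) hpi, if_pos hp]
    · intro y _ hy
      rw [B_smul_left, sigma_B _ (h.X_irr y y.2) hpi, if_neg, mul_zero]
      intro hpy
      apply hy
      obtain ⟨z, _, hz⟩ := h.X_part psi hpi
      apply Subtype.ext
      rw [hz y ⟨y.2, hpy⟩, hz x ⟨x.2, hp⟩]
    · intro h'
      exact absurd (Finset.mem_univ _) h'
  have hli : LinearIndependent ℂ v := by
    rw [Fintype.linearIndependent_iff]
    intro c hc x
    have h1 := hlift c 0 (fun _ _ _ _ _ _ => rfl) (by rw [hc]; rfl)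
    obtain ⟨psi, hp⟩ := h.X_nonempty x x.2
    have h2 := hBx c x psi hp
    rw [h1] at h2
    have h3 : B (0 : G → ℂ) psi = 0 := by simp [B]
    rw [h3] at h2
    rcases mul_eq_zero.mp h2.symm with h4 | h4
    · exact h4
    · exact absurd h4 (irr_one_ne (h.X_irr x x.2 psi hp))
  have hspan : Submodule.span ℂ (Set.range v) = ⊤ := by
    apply hli.span_eq_top_of_card_eq_finrank'
    rw [Module.finrank_fintype_fun_eq_card, hcard]
  have hmem : (fun k : K => f (r k)) ∈ Submodule.span ℂ (Set.range v) := by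
    rw [hspan]; trivial
  rw [Submodule.mem_span_range_iff_exists_fun] at hmem
  obtain ⟨c, hc⟩ := hmem
  have h1 := hlift c f hf hc
  intro x hx psi hp psi' hp'
  have h2 := hBx c ⟨x, hx⟩ psi hp
  have h3 := hBx c ⟨x, hx⟩ psi' hp'
  rw [h1] at h2 h3
  rw [h2, h3]
  ring

end General

variable {n : ℕ} {F : Type} [Field F]

/-! superclasses -/

lemma mem_superclass {x g : unitri n F} :
    g ∈ superclass x ↔ ∃ u v : unitri n F, sub1 g = act u v (sub1 x) := Iff.rfl

lemma superclass_self (x : unitri n F) : x ∈ superclass x := ⟨1, 1, (act_one _).symm⟩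

lemma superclass_symm {x g : unitri n F} (h : g ∈ superclass x) : x ∈ superclass g := by
  obtain ⟨u, v, h⟩ := h
  refine ⟨u⁻¹, v⁻¹, ?_⟩
  rw [h, act_act, inv_mul_cancel, mul_inv_cancel, act_one]

lemma superclass_trans {x g g' : unitri n F} (h : g ∈ superclass x) (h' : g' ∈ superclass g) :
    g' ∈ superclass x := by
  obtain ⟨u, v, h⟩ := h
  obtain ⟨u', v', h'⟩ := h'
  refine ⟨u' * u, v * v', ?_⟩
  rw [h', h, act_act]

lemma superclass_eq {x g : unitri n F} (h : g ∈ superclass x) : superclass g = superclass x := by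
  ext g'
  exact ⟨fun h' => superclass_trans h h', fun h' => superclass_trans (superclass_symm h) h'⟩

lemma andreK_part : Setoid.IsPartition (andreK n F) := by
  constructor
  · rintro ⟨x, hx⟩
    have := superclass_self x
    rw [← hx] at this
    exact this
  · intro g
    refine ⟨superclass g, ⟨⟨g, rfl⟩, superclass_self g⟩, ?_⟩
    rintro k ⟨⟨x, rfl⟩, hk⟩
    exact (superclass_eq hk).symm

lemma andreK_one : ({1} : Set (unitri n F)) ∈ andreK n F := by
  refine ⟨1, ?_⟩
  ext g
  rw [Set.mem_singleton_iff, mem_superclass]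
  constructor
  · rintro rfl
    exact ⟨1, 1, (act_one _).symm⟩
  · rintro ⟨u, v, h⟩
    rw [sub1_one, map_zero] at h
    exact sub1_inj (h.trans sub1_one.symm)

section Fin

variable [Finite F]

lemma superchar_const (theta : AddChar F ℂ) (lam : Module.Dual F (nil n F)) {x g h : unitri n F}
    (hg : g ∈ superclass x) (hh : h ∈ superclass x) :
    superchar theta lam g = superchar theta lam h := by
  obtain ⟨u, v, hg⟩ := hg
  obtain ⟨u', v', hh⟩ := hh
  rw [superchar_eq, superchar_eq, hg, hh, Hf_act, Hf_act]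

end Fin

/-! counting orbits by Burnside's lemma -/

/-- `U × U` acts on the strictly upper triangular matrices -/
instance actNil : MulAction (unitri n F × unitri n F) (nil n F) where
  smul g y := act g.1 g.2⁻¹ y
  one_smul y := by
    show act (1 : unitri n F) (1 : unitri n F)⁻¹ y = y
    rw [inv_one, act_one]
  mul_smul g h y := by
    show act (g.1 * h.1) (g.2 * h.2)⁻¹ y = act g.1 g.2⁻¹ (act h.1 h.2⁻¹ y)
    rw [act_act, mul_inv_rev]

lemma nil_smul_def (g : unitri n F × unitri n F) (y : nil n F) : g • y = act g.1 g.2⁻¹ y := rfl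

/-- `U × U` acts on the dual -/
instance actDual : MulAction (unitri n F × unitri n F) (Module.Dual F (nil n F)) where
  smul g mu := mu ∘ₗ act g.1⁻¹ g.2
  one_smul mu := by
    show mu ∘ₗ act (1 : unitri n F)⁻¹ (1 : unitri n F) = mu
    rw [inv_one, act_one']
    rfl
  mul_smul g h mu := by
    show mu ∘ₗ act (g.1 * h.1)⁻¹ (g.2 * h.2) = (mu ∘ₗ act h.1⁻¹ h.2) ∘ₗ act g.1⁻¹ g.2
    rw [LinearMap.comp_assoc, act_comp, mul_inv_rev]

lemma dual_smul_def (g : unitri n F × unitri n F) (mu : Module.Dual F (nil n F)) :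
    g • mu = mu ∘ₗ act g.1⁻¹ g.2 := rfl

section Fin2

variable [Finite F]

lemma card_ker_eq (T : nil n F →ₗ[F] nil n F) :
    Nat.card (LinearMap.ker T) = Nat.card (LinearMap.ker T.dualMap) := by
  have : Fintype F := Fintype.ofFinite F
  have h1 := Module.natCard_eq_pow_finrank (K := F) (V := LinearMap.ker T)
  have h2 := Module.natCard_eq_pow_finrank (K := F) (V := LinearMap.ker T.dualMap)
  rw [h1, h2]
  congr 1
  have h3 := LinearMap.finrank_range_add_finrank_ker T
  have h4 := LinearMap.finrank_range_add_finrank_ker T.dualMap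
  rw [LinearMap.finrank_range_dualMap_eq_finrank_range, Subspace.dual_finrank_eq] at h4
  omega

lemma fixed_eq (g : unitri n F × unitri n F) :
    Fintype.card (MulAction.fixedBy (nil n F) g)
      = Fintype.card (MulAction.fixedBy (Module.Dual F (nil n F)) g) := by
  rw [← Nat.card_eq_fintype_card, ← Nat.card_eq_fintype_card]
  have e1 : (MulAction.fixedBy (nil n F) g : Set (nil n F))
      = (LinearMap.ker (act g.1 g.2⁻¹ - LinearMap.id) : Set (nil n F)) := by
    ext y
    rw [MulAction.mem_fixedBy, SetLike.mem_coe, LinearMap.mem_ker, LinearMap.sub_apply,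
      nil_smul_def, sub_eq_zero]
    rfl
  have e2 : (MulAction.fixedBy (Module.Dual F (nil n F)) g : Set (Module.Dual F (nil n F)))
      = (LinearMap.ker (act g.1 g.2⁻¹ - LinearMap.id : nil n F →ₗ[F] nil n F).dualMap :
        Set (Module.Dual F (nil n F))) := by
    ext mu
    rw [MulAction.mem_fixedBy, SetLike.mem_coe, LinearMap.mem_ker, dual_smul_def,
      LinearMap.dualMap_apply']
    have hi : act g.1⁻¹ g.2 ∘ₗ act g.1 g.2⁻¹ = (LinearMap.id : nil n F →ₗ[F] nil n F) := by
      rw [act_comp, inv_mul_cancel, inv_mul_cancel, act_one']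
    have hi' : act g.1 g.2⁻¹ ∘ₗ act g.1⁻¹ g.2 = (LinearMap.id : nil n F →ₗ[F] nil n F) := by
      rw [act_comp, mul_inv_cancel, mul_inv_cancel, act_one']
    constructor
    · intro h
      have h1 : (mu ∘ₗ act g.1⁻¹ g.2) ∘ₗ act g.1 g.2⁻¹ = mu ∘ₗ act g.1 g.2⁻¹ := by rw [h]
      rw [LinearMap.comp_assoc, hi, LinearMap.comp_id] at h1
      rw [LinearMap.comp_sub, LinearMap.comp_id, ← h1, sub_self]
    · intro h
      rw [LinearMap.comp_sub, LinearMap.comp_id, sub_eq_zero] at h
      have h1 : (mu ∘ₗ act g.1 g.2⁻¹) ∘ₗ act g.1⁻¹ g.2 = mu ∘ₗ act g.1⁻¹ g.2 := by rw [h]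
      rw [LinearMap.comp_assoc, hi', LinearMap.comp_id] at h1
      exact h1.symm
  rw [e1, e2]
  exact card_ker_eq _

lemma card_orbits_eq :
    Nat.card (MulAction.orbitRel.Quotient (unitri n F × unitri n F) (nil n F))
      = Nat.card (MulAction.orbitRel.Quotient (unitri n F × unitri n F)
        (Module.Dual F (nil n F))) := by
  have h1 := MulAction.sum_card_fixedBy_eq_card_orbits_mul_card_group
    (unitri n F × unitri n F) (nil n F)
  have h2 := MulAction.sum_card_fixedBy_eq_card_orbits_mul_card_group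
    (unitri n F × unitri n F) (Module.Dual F (nil n F))
  rw [Nat.card_eq_fintype_card, Nat.card_eq_fintype_card]
  have h3 : ∑ a : unitri n F × unitri n F, Fintype.card (MulAction.fixedBy (nil n F) a)
      = ∑ a : unitri n F × unitri n F,
        Fintype.card (MulAction.fixedBy (Module.Dual F (nil n F)) a) :=
    Finset.sum_congr rfl fun a _ => fixed_eq a
  rw [h3, h2] at h1
  exact (Nat.eq_of_mul_eq_mul_right Fintype.card_pos h1).symm

lemma mem_orbit_dual {lam mu : Module.Dual F (nil n F)} :
    mu ∈ MulAction.orbit (unitri n F × unitri n F) lam ↔ mu ∈ orb lam := by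
  constructor
  · rintro ⟨g, rfl⟩
    exact ⟨g.1⁻¹, g.2, rfl⟩
  · rintro ⟨u, v, rfl⟩
    refine ⟨(u⁻¹, v), ?_⟩
    show lam ∘ₗ act (u⁻¹)⁻¹ v = lam ∘ₗ act u v
    rw [inv_inv]

lemma mem_orbit_nil {x g : unitri n F} :
    sub1 g ∈ MulAction.orbit (unitri n F × unitri n F) (sub1 x) ↔ g ∈ superclass x := by
  constructor
  · rintro ⟨w, hw⟩
    exact ⟨w.1, w.2⁻¹, hw.symm⟩
  · rintro ⟨u, v, h⟩
    refine ⟨(u, v⁻¹), ?_⟩
    show act u (v⁻¹)⁻¹ (sub1 x) = sub1 g
    rw [inv_inv, h]

lemma andre_card {theta : AddChar F ℂ} (ht : theta ≠ 1) :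
    (andreX n theta).ncard = (andreK n F).ncard := by
  -- X
  have hX : (andreX n theta).ncard = Nat.card (MulAction.orbitRel.Quotient
      (unitri n F × unitri n F) (Module.Dual F (nil n F))) := by
    let f : MulAction.orbitRel.Quotient (unitri n F × unitri n F) (Module.Dual F (nil n F)) →
        Set (unitri n F → ℂ) := fun q => Xset theta (Quotient.out q)
    have hf : Function.Injective f := by
      intro q q' h
      have h1 := (Xset_eq_iff ht _ _).mp h
      have h2 : Quotient.out q ∈ MulAction.orbit (unitri n F × unitri n F) (Quotient.out q') := by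
        rw [mem_orbit_dual, ← h1]
        exact mem_orb_self _
      rw [← Quotient.out_eq q, ← Quotient.out_eq q']
      exact Quotient.sound h2
    have hr : Set.range f = andreX n theta := by
      ext x
      rw [mem_andreX ht]
      constructor
      · rintro ⟨q, rfl⟩
        exact ⟨_, rfl⟩
      · rintro ⟨lam, rfl⟩
        refine ⟨Quotient.mk _ lam, ?_⟩
        apply (Xset_eq_iff ht _ _).mpr
        apply orb_eq
        rw [← mem_orbit_dual]
        exact Quotient.mk_out (s := MulAction.orbitRel (unitri n F × unitri n F)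
          (Module.Dual F (nil n F))) lam
    rw [← hr, ← Nat.card_coe_set_eq]
    exact Nat.card_range_of_injective hf
  have hK : (andreK n F).ncard = Nat.card (MulAction.orbitRel.Quotient
      (unitri n F × unitri n F) (nil n F)) := by
    let f : MulAction.orbitRel.Quotient (unitri n F × unitri n F) (nil n F) →
        Set (unitri n F) := fun q => superclass (e1.symm (Quotient.out q))
    have hs : ∀ y : nil n F, sub1 (e1.symm y) = y := fun y => e1.apply_symm_apply y
    have hf : Function.Injective f := by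
      intro q q' h
      have h1 : e1.symm (Quotient.out q) ∈ superclass (e1.symm (Quotient.out q')) := by
        have h' : superclass (e1.symm (Quotient.out q)) = superclass (e1.symm (Quotient.out q')) := h
        rw [← h']
        exact superclass_self _
      rw [← mem_orbit_nil, hs, hs] at h1
      rw [← Quotient.out_eq q, ← Quotient.out_eq q']
      exact Quotient.sound h1
    have hr : Set.range f = andreK n F := by
      ext k
      constructor
      · rintro ⟨q, rfl⟩
        exact ⟨_, rfl⟩
      · rintro ⟨x, rfl⟩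
        refine ⟨Quotient.mk _ (sub1 x), ?_⟩
        apply superclass_eq
        rw [← mem_orbit_nil, hs]
        exact Quotient.mk_out (s := MulAction.orbitRel (unitri n F × unitri n F)
          (nil n F)) (sub1 x)
    rw [← hr, ← Nat.card_coe_set_eq]
    exact Nat.card_range_of_injective hf
  rw [hX, hK, card_orbits_eq]

/-- Andre's pair of partitions is a supercharacter theory. -/
theorem andre_isSCT {theta : AddChar F ℂ} (ht : theta ≠ 1) :
    IsSCT (unitri n F) (andreX n theta) (andreK n F) where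
  X_nonempty := by
    intro x hx
    obtain ⟨lam, rfl⟩ := (mem_andreX ht x).mp hx
    exact Xset_nonempty ht lam
  X_irr := fun x hx => hx.1
  X_part := by
    intro psi hp
    obtain ⟨lam, hl⟩ := coef_exists ht hp
    refine ⟨Xset theta lam, ⟨(mem_andreX ht _).mpr ⟨lam, rfl⟩, hp, hl⟩, ?_⟩
    rintro x ⟨hx, hpx⟩
    obtain ⟨mu, rfl⟩ := (mem_andreX ht x).mp hx
    exact (Xset_eq_iff ht _ _).mpr (coef_disj ht hp _ _ hpx.2 hl)
  K_part := andreK_part
  card_eq := andre_card ht
  one_mem := andreK_one
  const := by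
    intro x hx k hk g hg h hh
    obtain ⟨lam, rfl⟩ := (mem_andreX ht x).mp hx
    obtain ⟨y, rfl⟩ := hk
    rw [sigma_Xset ht, sigma_Xset ht]
    exact superchar_const theta lam hg hh

/-- If the superclasses of a theory refine those of Andre, then so do the blocks of characters. -/
theorem X_refine {theta : AddChar F ℂ} (ht : theta ≠ 1) {X : Set (Set (unitri n F → ℂ))}
    {K : Set (Set (unitri n F))} (h : IsSCT (unitri n F) X K)
    (hK : ∀ k ∈ K, ∃ k' ∈ andreK n F, k ⊆ k') : ∀ x ∈ X, ∃ x' ∈ andreX n theta, x ⊆ x' := by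
  intro x hx
  obtain ⟨psi, hp⟩ := h.X_nonempty x hx
  have hpi := h.X_irr x hx psi hp
  obtain ⟨lam, hl⟩ := coef_exists ht hpi
  refine ⟨Xset theta lam, (mem_andreX ht _).mpr ⟨lam, rfl⟩, ?_⟩
  intro psi' hp'
  have hpi' := h.X_irr x hx psi' hp'
  refine ⟨hpi', ?_⟩
  have h1 := sigma_inj_coef h (f := superchar theta lam) (by
    intro k hk g hg g' hg'
    obtain ⟨k', ⟨y, rfl⟩, hsub⟩ := hK k hk
    exact superchar_const theta lam (hsub hg) (hsub hg')) x hx psi hp psi' hp'
  intro h0
  rw [h0, zero_mul] at h1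
  rcases mul_eq_zero.mp h1 with h2 | h2
  · exact hl h2
  · exact irr_one_ne hpi' h2

end Fin2

end Pool.Agent.H708R3.SC
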