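import Pool.Agent.H708R3.SC3

open scoped BigOperators Classical

noncomputable section

namespace Pool.Agent.H708R3.SC

variable {n : ℕ} {F : Type} [Field F]

/-! rook normal forms -/

/-- at most one nonzero entry in each row and each column, looking only at rows `≥ m` -/
def Rook (m : ℕ) (y : nil n F) : Prop :=
  (∀ i j j' : Fin n, m ≤ (i : ℕ) → (y : Matrix (Fin n) (Fin n) F) i j ≠ 0 →
    (y : Matrix (Fin n) (Fin n) F) i j' ≠ 0 → j = j') ∧
  (∀ i i' j : Fin n, m ≤ (i : ℕ) → m ≤ (i' : ℕ) → (y : Matrix (Fin n) (Fin n) F) i j ≠ 0 →
    (y : Matrix (Fin n) (Fin n) F) i' j ≠ 0 → i = i')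

/-- the unitriangular matrix with one row modified -/
lemma exists_rowU (m : Fin n) (s : Fin n → F) : ∃ u : unitri n F, ∀ a b : Fin n,
    ((u : GL (Fin n) F) : Matrix (Fin n) (Fin n) F) a b
      = (1 : Matrix (Fin n) (Fin n) F) a b + if a = m ∧ m < b then s b else 0 := by
  let z : nil n F := ⟨Matrix.of fun a b => if a = m ∧ m < b then s b else 0, by
    intro i j hij
    rw [Matrix.of_apply, if_neg]
    rintro ⟨rfl, h⟩
    exact absurd h (not_lt.mpr hij)⟩
  obtain ⟨u, hu⟩ := exists_sub1 z
  refine ⟨u, fun a b => ?_⟩
  have h1 := congrArg (fun x : nil n F => (x : Matrix (Fin n) (Fin n) F) a b) hu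
  simp only [sub1, Matrix.sub_apply, z, Matrix.of_apply] at h1
  rw [← h1]
  ring

lemma row_mul (m : Fin n) (s : Fin n → F) (u : unitri n F) (hu : ∀ a b : Fin n,
    ((u : GL (Fin n) F) : Matrix (Fin n) (Fin n) F) a b
      = (1 : Matrix (Fin n) (Fin n) F) a b + if a = m ∧ m < b then s b else 0) (y : nil n F)
    (a b : Fin n) : ((act u 1 y : nil n F) : Matrix (Fin n) (Fin n) F) a b
      = (y : Matrix (Fin n) (Fin n) F) a b
        + if a = m then ∑ k, (if m < k then s k else 0) * (y : Matrix (Fin n) (Fin n) F) k b
          else 0 := by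
  rw [act_apply]
  simp only [Subgroup.coe_one, Units.val_one, mul_one]
  rw [Matrix.mul_apply]
  simp_rw [hu, add_mul]
  rw [Finset.sum_add_distrib]
  congr 1
  · rw [Finset.sum_eq_single a]
    · rw [Matrix.one_apply_eq, one_mul]
    · intro k _ hk
      rw [Matrix.one_apply_ne (Ne.symm hk), zero_mul]
    · intro h
      exact absurd (Finset.mem_univ _) h
  · split_ifs with h
    · refine Finset.sum_congr rfl fun k _ => ?_
      simp [h]
    · refine Finset.sum_eq_zero fun k _ => ?_
      simp [h]

lemma col_mul (m : Fin n) (s : Fin n → F) (u : unitri n F) (hu : ∀ a b : Fin n,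
    ((u : GL (Fin n) F) : Matrix (Fin n) (Fin n) F) a b
      = (1 : Matrix (Fin n) (Fin n) F) a b + if a = m ∧ m < b then s b else 0) (y : nil n F)
    (a b : Fin n) : ((act 1 u y : nil n F) : Matrix (Fin n) (Fin n) F) a b
      = (y : Matrix (Fin n) (Fin n) F) a b
        + if m < b then (y : Matrix (Fin n) (Fin n) F) a m * s b else 0 := by
  rw [act_apply]
  simp only [Subgroup.coe_one, Units.val_one, one_mul]
  rw [Matrix.mul_apply]
  simp_rw [hu, mul_add]
  rw [Finset.sum_add_distrib]
  congr 1
  · rw [Finset.sum_eq_single b]
    · rw [Matrix.one_apply_eq, mul_one]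
    · intro k _ hk
      rw [Matrix.one_apply_ne hk, mul_zero]
    · intro h
      exact absurd (Finset.mem_univ _) h
  · rw [Finset.sum_eq_single m]
    · split_ifs with h h' h'
      · rfl
      · exact absurd h.2 h'
      · exact absurd ⟨rfl, h'⟩ h
      · rw [mul_zero]
    · intro k _ hk
      rw [if_neg (fun h => hk h.1), mul_zero]
    · intro h
      exact absurd (Finset.mem_univ _) h

/-- one step of the reduction -/
lemma rook_step (m : Fin n) (y : nil n F) (hy : Rook ((m : ℕ) + 1) y) :
    ∃ u v : unitri n F, Rook (m : ℕ) (act u v y) := by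
  set Y : Matrix (Fin n) (Fin n) F := (y : Matrix (Fin n) (Fin n) F) with hY
  -- first clear the entries of row m in pivot columns
  let s : Fin n → F := fun k => - ∑ j, Y m j * (Y k j)⁻¹
  obtain ⟨u, hu⟩ := exists_rowU m s
  set y1 : nil n F := act u 1 y with hy1
  have h1 : ∀ a b, (y1 : Matrix (Fin n) (Fin n) F) a b = Y a b
      + if a = m then ∑ k, (if m < k then s k else 0) * Y k b else 0 := row_mul m s u hu y
  have h1' : ∀ a b, a ≠ m → (y1 : Matrix (Fin n) (Fin n) F) a b = Y a b := by
    intro a b hab
    rw [h1, if_neg hab, add_zero]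
  have hpiv : ∀ k b : Fin n, m < k → Y k b ≠ 0 → (y1 : Matrix (Fin n) (Fin n) F) m b = 0 := by
    intro k b hk hkb
    rw [h1, if_pos rfl, Finset.sum_eq_single k]
    · rw [if_pos hk]
      have hs : s k = - (Y m b * (Y k b)⁻¹) := by
        simp only [s]
        rw [Finset.sum_eq_single b]
        · intro j _ hj
          have : Y k j = 0 := by
            by_contra hne
            exact hj (hy.1 k j b (Nat.succ_le_of_lt hk) hne hkb)
          rw [this, inv_zero, mul_zero]
        · intro h
          exact absurd (Finset.mem_univ _) h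
      rw [hs]
      field_simp
      ring
    · intro k' _ hk'
      split_ifs with h
      · have : Y k' b = 0 := by
          by_contra hne
          exact hk' (hy.2 k' k b (Nat.succ_le_of_lt h) (Nat.succ_le_of_lt hk) hne hkb)
        rw [this, mul_zero]
      · rw [zero_mul]
    · intro h
      exact absurd (Finset.mem_univ _) h
  by_cases hrow : ∃ b, (y1 : Matrix (Fin n) (Fin n) F) m b ≠ 0
  · -- leftmost nonzero entry
    let S : Finset (Fin n) := Finset.univ.filter fun b => (y1 : Matrix (Fin n) (Fin n) F) m b ≠ 0
    have hS : S.Nonempty := by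
      obtain ⟨b, hb⟩ := hrow
      exact ⟨b, by simp [S, hb]⟩
    set j0 := S.min' hS with hj0
    have hj0mem : (y1 : Matrix (Fin n) (Fin n) F) m j0 ≠ 0 := by
      have := S.min'_mem hS
      simp only [S, Finset.mem_filter, Finset.mem_univ, true_and] at this
      exact this
    have hmin : ∀ b, b < j0 → (y1 : Matrix (Fin n) (Fin n) F) m b = 0 := by
      intro b hb
      by_contra hne
      have : b ∈ S := by simp [S, hne]
      exact absurd (S.min'_le b this) (not_le.mpr hb)
    have hcol : ∀ k, m < k → (y1 : Matrix (Fin n) (Fin n) F) k j0 = 0 := by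
      intro k hk
      rw [h1' k j0 (ne_of_gt hk)]
      by_contra hne
      exact hj0mem (hpiv k j0 hk hne)
    let t : Fin n → F := fun b => - (y1 : Matrix (Fin n) (Fin n) F) m b
      * ((y1 : Matrix (Fin n) (Fin n) F) m j0)⁻¹
    obtain ⟨v, hv⟩ := exists_rowU j0 t
    refine ⟨u, v, ?_⟩
    have hact : act u v y = act 1 v y1 := by
      rw [hy1, act_act, one_mul, one_mul]
    rw [hact]
    set y2 : nil n F := act 1 v y1 with hy2
    have h2 : ∀ a b, (y2 : Matrix (Fin n) (Fin n) F) a b = (y1 : Matrix (Fin n) (Fin n) F) a b
        + if j0 < b then (y1 : Matrix (Fin n) (Fin n) F) a j0 * t b else 0 := col_mul j0 t v hv y1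
    have hlow : ∀ a b, m < a → (y2 : Matrix (Fin n) (Fin n) F) a b = Y a b := by
      intro a b hab
      rw [h2, hcol a hab, zero_mul, h1' a b (ne_of_gt hab)]
      split_ifs <;> rw [add_zero]
    have hm : ∀ b, b ≠ j0 → (y2 : Matrix (Fin n) (Fin n) F) m b = 0 := by
      intro b hb
      rw [h2]
      rcases lt_or_gt_of_ne hb with h | h
      · rw [if_neg (not_lt.mpr h.le), hmin b h, add_zero]
      · rw [if_pos h]
        simp only [t]
        field_simp
        ring
    constructor
    · intro i j j' hi hij hij'
      rcases eq_or_lt_of_le hi with h | h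
      · have him : i = m := Fin.ext h.symm
        rw [him] at hij hij'
        have e1 : j = j0 := by
          by_contra hne
          exact hij (hm j hne)
        have e2 : j' = j0 := by
          by_contra hne
          exact hij' (hm j' hne)
        rw [e1, e2]
      · have him : m < i := h
        rw [hlow i j him] at hij
        rw [hlow i j' him] at hij'
        exact hy.1 i j j' h hij hij'
    · intro i i' j hi hi' hij hi'j
      rcases eq_or_lt_of_le hi with h | h
      · have him : i = m := Fin.ext h.symm
        rcases eq_or_lt_of_le hi' with h' | h'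
        · exact him.trans (Fin.ext h'.symm).symm
        · exfalso
          rw [him] at hij
          have e1 : j = j0 := by
            by_contra hne
            exact hij (hm j hne)
          rw [e1, hlow i' j0 h', ← h1' i' j0 (ne_of_gt h')] at hi'j
          exact hi'j (hcol i' h')
      · rcases eq_or_lt_of_le hi' with h' | h'
        · exfalso
          have him : i' = m := Fin.ext h'.symm
          rw [him] at hi'j
          have e1 : j = j0 := by
            by_contra hne
            exact hi'j (hm j hne)
          rw [e1, hlow i j0 h, ← h1' i j0 (ne_of_gt h)] at hij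
          exact hij (hcol i h)
        · rw [hlow i j h] at hij
          rw [hlow i' j h'] at hi'j
          exact hy.2 i i' j h h' hij hi'j
  · -- row m is zero
    push Not at hrow
    refine ⟨u, 1, ?_⟩
    rw [← hy1]
    have hlow : ∀ a b, m < a → (y1 : Matrix (Fin n) (Fin n) F) a b = Y a b :=
      fun a b hab => h1' a b (ne_of_gt hab)
    constructor
    · intro i j j' hi hij hij'
      rcases eq_or_lt_of_le hi with h | h
      · have him : i = m := Fin.ext h.symm
        rw [him] at hij
        exact absurd (hrow j) hij
      · rw [hlow i j h] at hij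
        rw [hlow i j' h] at hij'
        exact hy.1 i j j' h hij hij'
    · intro i i' j hi hi' hij hi'j
      rcases eq_or_lt_of_le hi with h | h
      · have him : i = m := Fin.ext h.symm
        rw [him] at hij
        exact absurd (hrow j) hij
      · rcases eq_or_lt_of_le hi' with h' | h'
        · have him : i' = m := Fin.ext h'.symm
          rw [him] at hi'j
          exact absurd (hrow j) hi'j
        · rw [hlow i j h] at hij
          rw [hlow i' j h'] at hi'j
          exact hy.2 i i' j h h' hij hi'j

/-- every two-sided orbit on `nil` contains a rook element -/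
lemma exists_rook (y : nil n F) : ∃ u v : unitri n F, Rook 0 (act u v y) := by
  have key : ∀ d : ℕ, d ≤ n → ∃ u v : unitri n F, Rook (n - d) (act u v y) := by
    intro d
    induction d with
    | zero =>
      intro _
      refine ⟨1, 1, ?_, ?_⟩
      · intro i j j' hi
        exact absurd hi (not_le.mpr (by simp))
      · intro i i' j hi
        exact absurd hi (not_le.mpr (by simp))
    | succ d ih =>
      intro hd
      obtain ⟨u, v, h⟩ := ih (by omega)
      have hm : n - (d + 1) < n := by omega
      have he : n - d = ((⟨n - (d + 1), hm⟩ : Fin n) : ℕ) + 1 := by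
        show n - d = n - (d + 1) + 1
        omega
      rw [he] at h
      obtain ⟨u', v', h'⟩ := rook_step ⟨n - (d + 1), hm⟩ _ h
      refine ⟨u' * u, v * v', ?_⟩
      rw [act_act] at h'
      exact h'
  have := key n le_rfl
  rwa [Nat.sub_self] at this

end Pool.Agent.H708R3.SC
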