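import Pool.Agent.H708R3.SC4

open scoped BigOperators Classical

noncomputable section

namespace Pool.Agent.H708R3.SC

variable {n : ℕ} {F : Type} [Field F]

/-- the elementary matrix `c E_ij` in `nil` -/
def el (i j : Fin n) (h : i < j) (c : F) : nil n F :=
  ⟨Matrix.of fun a b => if a = i ∧ b = j then c else 0, by
    intro a b hab
    rw [Matrix.of_apply, if_neg]
    rintro ⟨rfl, rfl⟩
    exact absurd h (not_lt.mpr hab)⟩

lemma el_apply (i j : Fin n) (h : i < j) (c : F) (a b : Fin n) :
    ((el i j h c : nil n F) : Matrix (Fin n) (Fin n) F) a b = if a = i ∧ b = j then c else 0 := rfl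

lemma unitri_diag (u : unitri n F) (a : Fin n) :
    ((u : GL (Fin n) F) : Matrix (Fin n) (Fin n) F) a a = 1 := by
  have h := u.2 a a le_rfl
  change ((u : GL (Fin n) F) : Matrix (Fin n) (Fin n) F) a a - (1 : Matrix (Fin n) (Fin n) F) a a
    = 0 at h
  rw [Matrix.one_apply_eq, sub_eq_zero] at h
  exact h

lemma unitri_low (u : unitri n F) (a b : Fin n) (hab : b < a) :
    ((u : GL (Fin n) F) : Matrix (Fin n) (Fin n) F) a b = 0 := by
  have h := u.2 a b hab.le
  change ((u : GL (Fin n) F) : Matrix (Fin n) (Fin n) F) a b - (1 : Matrix (Fin n) (Fin n) F) a b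
    = 0 at h
  rw [Matrix.one_apply_ne (ne_of_gt hab), sub_zero] at h
  exact h

lemma act_entry (u v : unitri n F) (y : nil n F) (a b : Fin n) :
    ((act u v y : nil n F) : Matrix (Fin n) (Fin n) F) a b
      = ∑ k, ∑ l, ((u : GL (Fin n) F) : Matrix (Fin n) (Fin n) F) a k
        * (y : Matrix (Fin n) (Fin n) F) k l * ((v : GL (Fin n) F) : Matrix (Fin n) (Fin n) F) l b := by
  rw [act_apply, Matrix.mul_apply]
  simp_rw [Matrix.mul_apply, Finset.sum_mul]
  rw [Finset.sum_comm]

/-- all functionals in the orbit of a single box take the value `a c` at `c E_ij` -/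
lemma orb_box_el {i j : Fin n} (h : i < j) {a : F} {mu : Module.Dual F (nil n F)}
    (hmu : mu ∈ orb (boxDual i j a)) (c : F) : mu (el i j h c) = a * c := by
  obtain ⟨u, v, rfl⟩ := hmu
  show a * ((act u v (el i j h c) : nil n F) : Matrix (Fin n) (Fin n) F) i j = a * c
  rw [act_entry, Finset.sum_eq_single i, Finset.sum_eq_single j]
  · rw [el_apply, if_pos ⟨rfl, rfl⟩, unitri_diag, unitri_diag, one_mul, mul_one]
  · intro l _ hl
    rw [el_apply, if_neg (fun h' => hl h'.2), mul_zero, zero_mul]
  · intro h'
    exact absurd (Finset.mem_univ _) h'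
  · intro k _ hk
    refine Finset.sum_eq_zero fun l _ => ?_
    rw [el_apply, if_neg (fun h' => hk h'.1), mul_zero, zero_mul]
  · intro h'
    exact absurd (Finset.mem_univ _) h'

section Fin

variable [Finite F]

lemma Hf_add_el (theta : AddChar F ℂ) {i j : Fin n} (h : i < j) (a : F) (y : nil n F) (c : F) :
    Hf theta (boxDual i j a) (y + el i j h c) = theta (a * c) * Hf theta (boxDual i j a) y := by
  rw [Hf_sum, Hf_sum, Finset.mul_sum]
  refine Finset.sum_congr rfl fun mu _ => ?_
  split_ifs with hmu
  · rw [map_add, orb_box_el h hmu, AddChar.map_add_eq_mul, mul_comm]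
  · rw [mul_zero]

/-- `theta` nontrivial: some multiple of a nonzero element is not killed -/
lemma exists_theta {theta : AddChar F ℂ} (ht : theta ≠ 1) {c : F} (hc : c ≠ 0) :
    ∃ s : F, theta (s * c) ≠ 1 := by
  obtain ⟨d, hd⟩ := AddChar.ne_one_iff.mp ht
  exact ⟨d / c, by rwa [div_mul_cancel₀ _ hc]⟩

/-- vanishing if there is a pivot below `(i, j)` in column `j` -/
lemma Hf_zero_below {theta : AddChar F ℂ} (ht : theta ≠ 1) {i j k : Fin n} (hik : i < k)
    (hkj : k < j) {a : F} (ha : a ≠ 0) {y : nil n F} (hy : Rook 0 y)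
    (hne : (y : Matrix (Fin n) (Fin n) F) k j ≠ 0) : Hf theta (boxDual i j a) y = 0 := by
  obtain ⟨s, hs⟩ := exists_theta ht (c := a * (y : Matrix (Fin n) (Fin n) F) k j)
    (mul_ne_zero ha hne)
  obtain ⟨u, hu⟩ := exists_rowU i (fun b => if b = k then s else 0)
  have h1 : act u 1 y = y + el i j (hik.trans hkj) (s * (y : Matrix (Fin n) (Fin n) F) k j) := by
    apply Subtype.ext
    ext a' b
    rw [row_mul i _ u hu y a' b, Submodule.coe_add, Matrix.add_apply, el_apply]
    congr 1
    by_cases hai : a' = i
    · rw [if_pos hai, Finset.sum_eq_single k]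
      · rw [if_pos hik]
        simp only [if_true]
        by_cases hb : b = j
        · rw [if_pos ⟨hai, hb⟩, hb]
        · rw [if_neg (fun h => hb h.2)]
          have : (y : Matrix (Fin n) (Fin n) F) k b = 0 := by
            by_contra hne'
            exact hb (hy.1 k b j (Nat.zero_le _) hne' hne)
          rw [this, mul_zero]
      · intro k' _ hk'
        simp [hk']
      · intro h
        exact absurd (Finset.mem_univ _) h
    · rw [if_neg hai, if_neg (fun h => hai h.1)]
  have h2 := Hf_act theta (boxDual i j a) y u 1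
  rw [h1, Hf_add_el] at h2
  have h3 : (theta (a * (s * (y : Matrix (Fin n) (Fin n) F) k j)) - 1)
      * Hf theta (boxDual i j a) y = 0 := by
    rw [sub_mul, h2, one_mul, sub_self]
  rcases mul_eq_zero.mp h3 with h4 | h4
  · exfalso
    apply hs
    rw [sub_eq_zero] at h4
    rw [← h4]
    congr 1
    ring
  · exact h4

/-- vanishing if there is a pivot to the left of `(i, j)` in row `i` -/
lemma Hf_zero_left {theta : AddChar F ℂ} (ht : theta ≠ 1) {i j k : Fin n} (hik : i < k)
    (hkj : k < j) {a : F} (ha : a ≠ 0) {y : nil n F} (hy : Rook 0 y)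
    (hne : (y : Matrix (Fin n) (Fin n) F) i k ≠ 0) : Hf theta (boxDual i j a) y = 0 := by
  obtain ⟨s, hs⟩ := exists_theta ht (c := a * (y : Matrix (Fin n) (Fin n) F) i k)
    (mul_ne_zero ha hne)
  obtain ⟨v, hv⟩ := exists_rowU k (fun b => if b = j then s else 0)
  have h1 : act 1 v y = y + el i j (hik.trans hkj) (s * (y : Matrix (Fin n) (Fin n) F) i k) := by
    apply Subtype.ext
    ext a' b
    rw [col_mul k _ v hv y a' b, Submodule.coe_add, Matrix.add_apply, el_apply]
    congr 1
    by_cases hb : b = j
    · rw [hb, if_pos hkj]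
      simp only [if_true, and_true]
      by_cases hai : a' = i
      · rw [if_pos hai, hai, mul_comm]
      · rw [if_neg hai]
        have : (y : Matrix (Fin n) (Fin n) F) a' k = 0 := by
          by_contra hne'
          exact hai (hy.2 a' i k (Nat.zero_le _) (Nat.zero_le _) hne' hne)
        rw [this, zero_mul]
    · simp [hb]
  have h2 := Hf_act theta (boxDual i j a) y 1 v
  rw [h1, Hf_add_el] at h2
  have h3 : (theta (a * (s * (y : Matrix (Fin n) (Fin n) F) i k)) - 1)
      * Hf theta (boxDual i j a) y = 0 := by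
    rw [sub_mul, h2, one_mul, sub_self]
  rcases mul_eq_zero.mp h3 with h4 | h4
  · exfalso
    apply hs
    rw [sub_eq_zero] at h4
    rw [← h4]
    congr 1
    ring
  · exact h4

/-- the averaging formula -/
lemma Hf_avg (theta : AddChar F ℂ) (lam : Module.Dual F (nil n F)) (y : nil n F) :
    (Fintype.card (unitri n F) : ℂ) ^ 2 * Hf theta lam y
      = ((orb lam).ncard : ℂ) * ∑ u : unitri n F, ∑ v : unitri n F, theta (lam (act u v y)) := by
  have h1 : ∑ u : unitri n F, ∑ v : unitri n F, Hf theta lam (act u v y)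
      = (Fintype.card (unitri n F) : ℂ) ^ 2 * Hf theta lam y := by
    simp_rw [Hf_act]
    rw [Finset.sum_const, Finset.sum_const, Finset.card_univ, nsmul_eq_mul, nsmul_eq_mul]
    ring
  rw [← h1]
  simp_rw [Hf_sum]
  have h2 : ∀ mu : Module.Dual F (nil n F),
      ∑ u : unitri n F, ∑ v : unitri n F, (if mu ∈ orb lam then theta (mu (act u v y)) else 0)
      = if mu ∈ orb lam then ∑ u : unitri n F, ∑ v : unitri n F, theta (lam (act u v y)) else 0 := by
    intro mu
    split_ifs with hmu
    · obtain ⟨u0, v0, rfl⟩ := hmu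
      refine Fintype.sum_equiv (Equiv.mulLeft u0) _ _ fun u => ?_
      refine Fintype.sum_equiv (Equiv.mulRight v0) _ _ fun v => ?_
      show theta (lam (act u0 v0 (act u v y))) = theta (lam (act (u0 * u) (v * v0) y))
      rw [act_act]
    · simp
  have h3 : ∑ u : unitri n F, ∑ v : unitri n F, ∑ mu : Module.Dual F (nil n F),
      (if mu ∈ orb lam then theta (mu (act u v y)) else 0)
      = ∑ mu : Module.Dual F (nil n F), ∑ u : unitri n F, ∑ v : unitri n F,
        (if mu ∈ orb lam then theta (mu (act u v y)) else 0) := by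
    have h4 : ∀ u : unitri n F, ∑ v : unitri n F, ∑ mu : Module.Dual F (nil n F),
      (if mu ∈ orb lam then theta (mu (act u v y)) else 0)
      = ∑ mu : Module.Dual F (nil n F), ∑ v : unitri n F,
        (if mu ∈ orb lam then theta (mu (act u v y)) else 0) := fun u => Finset.sum_comm
    rw [Finset.sum_congr rfl fun u _ => h4 u, Finset.sum_comm]
  rw [h3]
  simp_rw [h2]
  rw [Finset.sum_ite, Finset.sum_const_zero, add_zero, Finset.sum_const, nsmul_eq_mul]
  congr 1
  rw [Set.ncard_eq_toFinset_card']
  congr 2
  ext mu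
  simp

/-- positivity: the value is a positive real if nothing lies to the left, below, or at `(i, j)` -/
lemma Hf_pos {theta : AddChar F ℂ} (ht : theta ≠ 1) {i j : Fin n} (hij : i < j)
    {a : F} (ha : a ≠ 0) {y : nil n F}
    (hrow : ∀ l, l ≤ j → (y : Matrix (Fin n) (Fin n) F) i l = 0)
    (hcol : ∀ k, i < k → (y : Matrix (Fin n) (Fin n) F) k j = 0) :
    ∃ r : ℝ, 0 < r ∧ Hf theta (boxDual i j a) y = r := by
  -- inner sums
  have hw : ∀ v : unitri n F, ((act 1 v y : nil n F) : Matrix (Fin n) (Fin n) F) i j = 0 := by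
    intro v
    rw [act_apply]
    simp only [Subgroup.coe_one, Units.val_one, one_mul]
    rw [Matrix.mul_apply]
    refine Finset.sum_eq_zero fun l _ => ?_
    rcases le_or_gt l j with h | h
    · rw [hrow l h, zero_mul]
    · rw [unitri_low v l j h, mul_zero]
  have hinner : ∀ v : unitri n F, ∑ u : unitri n F, theta (boxDual i j a (act u v y))
      = if (∀ k, i < k → ((act 1 v y : nil n F) : Matrix (Fin n) (Fin n) F) k j = 0)
        then (Fintype.card (unitri n F) : ℂ) else 0 := by
    intro v
    set w : nil n F := act 1 v y with hwdef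
    have huv : ∀ u : unitri n F, act u v y = act u 1 w := by
      intro u
      rw [hwdef, act_act, mul_one, mul_one]
    have hval : ∀ u : unitri n F, boxDual i j a (act u v y)
        = a * ∑ k, ((u : GL (Fin n) F) : Matrix (Fin n) (Fin n) F) i k
          * (w : Matrix (Fin n) (Fin n) F) k j := by
      intro u
      rw [huv]
      show a * ((act u 1 w : nil n F) : Matrix (Fin n) (Fin n) F) i j = _
      rw [act_apply]
      simp only [Subgroup.coe_one, Units.val_one, mul_one]
      rw [Matrix.mul_apply]
    split_ifs with hc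
    · have : ∀ u : unitri n F, theta (boxDual i j a (act u v y)) = 1 := by
        intro u
        rw [hval, Finset.sum_eq_zero, mul_zero, AddChar.map_zero_eq_one]
        intro k _
        rcases lt_trichotomy i k with h | h | h
        · rw [hc k h, mul_zero]
        · rw [← h, hw v, mul_zero]
        · rw [unitri_low u i k h, zero_mul]
      simp [this]
    · push Not at hc
      obtain ⟨k, hk, hne⟩ := hc
      obtain ⟨s, hs⟩ := exists_theta ht (c := a * (w : Matrix (Fin n) (Fin n) F) k j)
        (mul_ne_zero ha hne)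
      obtain ⟨x, hx⟩ := exists_rowU i (fun b => if b = k then s else 0)
      have hshift : ∀ u : unitri n F, boxDual i j a (act (u * x) v y)
          = s * (a * (w : Matrix (Fin n) (Fin n) F) k j) + boxDual i j a (act u v y) := by
        intro u
        have e1 : act (u * x) v y = act u 1 (act x 1 w) := by
          rw [act_act u 1 x 1 w, one_mul]
          exact huv (u * x)
        have e2 : act x 1 w = w + (act x 1 w - w) := by abel
        rw [e1, e2, map_add, map_add, ← huv, add_comm]
        congr 1
        show a * ((act u 1 (act x 1 w - w) : nil n F) : Matrix (Fin n) (Fin n) F) i j = _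
        rw [act_apply]
        simp only [Subgroup.coe_one, Units.val_one, mul_one]
        rw [Matrix.mul_apply]
        have e3 : ∀ p q, ((act x 1 w - w : nil n F) : Matrix (Fin n) (Fin n) F) p q
            = if p = i then s * (w : Matrix (Fin n) (Fin n) F) k q else 0 := by
          intro p q
          rw [Submodule.coe_sub, Matrix.sub_apply, row_mul i _ x hx w p q, add_sub_cancel_left]
          split_ifs with hp
          · rw [Finset.sum_eq_single k]
            · rw [if_pos hk]; simp
            · intro k' _ hk'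
              simp [hk']
            · intro h
              exact absurd (Finset.mem_univ _) h
          · rfl
        rw [Finset.sum_eq_single i]
        · rw [e3, if_pos rfl, unitri_diag]
          ring
        · intro p _ hp
          rw [e3, if_neg hp, mul_zero]
        · intro h
          exact absurd (Finset.mem_univ _) h
      have h1 : ∑ u : unitri n F, theta (boxDual i j a (act u v y))
          = theta (s * (a * (w : Matrix (Fin n) (Fin n) F) k j))
            * ∑ u : unitri n F, theta (boxDual i j a (act u v y)) := by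
        rw [Finset.mul_sum]
        refine (Fintype.sum_equiv (Equiv.mulRight x) _ _ fun u => ?_).symm
        show _ = theta (boxDual i j a (act (u * x) v y))
        rw [hshift, AddChar.map_add_eq_mul]
      have h2 : (1 - theta (s * (a * (w : Matrix (Fin n) (Fin n) F) k j)))
          * ∑ u : unitri n F, theta (boxDual i j a (act u v y)) = 0 := by
        rw [sub_mul, one_mul, ← h1, sub_self]
      rcases mul_eq_zero.mp h2 with h3 | h3
      · exact absurd (sub_eq_zero.mp h3).symm hs
      · exact h3
  have havg := Hf_avg theta (boxDual i j a) y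
  rw [Finset.sum_comm, Finset.sum_congr rfl fun v _ => hinner v, Finset.sum_ite,
    Finset.sum_const_zero, add_zero, Finset.sum_const, nsmul_eq_mul] at havg
  set N := (Finset.univ.filter fun v : unitri n F =>
    ∀ k, i < k → ((act 1 v y : nil n F) : Matrix (Fin n) (Fin n) F) k j = 0).card with hN
  have hNpos : 0 < N := by
    rw [hN, Finset.card_pos]
    refine ⟨1, ?_⟩
    simp only [Finset.mem_filter, Finset.mem_univ, true_and]
    intro k hk
    rw [act_one]
    exact hcol k hk
  have hcardpos : 0 < Fintype.card (unitri n F) := Fintype.card_pos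
  refine ⟨((orb (boxDual i j a : Module.Dual F (nil n F))).ncard : ℝ) * (N : ℝ)
    / (Fintype.card (unitri n F) : ℝ), ?_, ?_⟩
  · have h1 : (0 : ℝ) < ((orb (boxDual i j a : Module.Dual F (nil n F))).ncard : ℝ) := by
      exact_mod_cast orb_ncard_pos _
    have h2 : (0 : ℝ) < (N : ℝ) := by exact_mod_cast hNpos
    have h3 : (0 : ℝ) < (Fintype.card (unitri n F) : ℝ) := by exact_mod_cast hcardpos
    positivity
  · have h3 : (Fintype.card (unitri n F) : ℂ) ≠ 0 := by exact_mod_cast hcardpos.ne'
    push_cast
    field_simp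
    have h4 : (Fintype.card (unitri n F) : ℂ) * (Hf theta (boxDual i j a) y
        * (Fintype.card (unitri n F) : ℂ)) = (Fintype.card (unitri n F) : ℂ)
        * (((orb (boxDual i j a : Module.Dual F (nil n F))).ncard : ℂ) * (N : ℂ)) := by
      calc _ = (Fintype.card (unitri n F) : ℂ) ^ 2 * Hf theta (boxDual i j a) y := by ring
        _ = _ := by rw [havg]; ring
    have h5 := mul_left_cancel₀ h3 h4
    first
      | exact h5
      | (rw [mul_comm] at h5; exact h5)

/-- the value at a rook element with no pivot to the left of or below `(i, j)` -/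
lemma Hf_rook {theta : AddChar F ℂ} (ht : theta ≠ 1) {i j : Fin n} (hij : i < j)
    {a : F} (ha : a ≠ 0) {y : nil n F}
    (hrow : ∀ l, i < l → l < j → (y : Matrix (Fin n) (Fin n) F) i l = 0)
    (hcol : ∀ k, i < k → k < j → (y : Matrix (Fin n) (Fin n) F) k j = 0) :
    ∃ r : ℝ, 0 < r ∧ Hf theta (boxDual i j a) y
      = theta (a * (y : Matrix (Fin n) (Fin n) F) i j) * r := by
  set y0 : nil n F := y + el i j hij (- (y : Matrix (Fin n) (Fin n) F) i j) with hy0
  have he : y = y0 + el i j hij ((y : Matrix (Fin n) (Fin n) F) i j) := by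
    apply Subtype.ext
    ext p q
    rw [hy0]
    simp only [Submodule.coe_add, Matrix.add_apply, el_apply]
    split_ifs <;> ring
  have hval : ∀ p q, (y0 : Matrix (Fin n) (Fin n) F) p q = (y : Matrix (Fin n) (Fin n) F) p q
      + if p = i ∧ q = j then - (y : Matrix (Fin n) (Fin n) F) i j else 0 := by
    intro p q
    rw [hy0, Submodule.coe_add, Matrix.add_apply, el_apply]
  obtain ⟨r, hr, hr'⟩ := Hf_pos ht hij ha (y := y0) (by
    intro l hl
    rw [hval]
    rcases eq_or_lt_of_le hl with h | h
    · rw [h, if_pos ⟨rfl, rfl⟩, add_neg_cancel]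
    · rw [if_neg (fun h' => absurd h'.2 (ne_of_lt h)), add_zero]
      rcases le_or_gt l i with h' | h'
      · exact y.2 i l h'
      · exact hrow l h' h) (by
    intro k hk
    rw [hval, if_neg (fun h' => absurd h'.1 (ne_of_gt hk)), add_zero]
    rcases lt_or_ge k j with h' | h'
    · exact hcol k hk h'
    · exact y.2 k j h')
  refine ⟨r, hr, ?_⟩
  conv_lhs => rw [he]
  rw [Hf_add_el, hr']

lemma theta_norm (theta : AddChar F ℂ) (c : F) : ‖theta c‖ = 1 := by
  have : Fintype F := Fintype.ofFinite F
  exact AddChar.norm_apply theta c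

/-- one-sided comparison: pivots of `y` are pivots of `y'` -/
lemma pivot_eq {theta : AddChar F ℂ} (ht : theta ≠ 1) {y y' : nil n F} (hy : Rook 0 y)
    (hy' : Rook 0 y') (h : ∀ i j : Fin n, i < j → ∀ a : F, a ≠ 0 →
      Hf theta (boxDual i j a) y = Hf theta (boxDual i j a) y') {i j : Fin n}
    (hij : (y : Matrix (Fin n) (Fin n) F) i j ≠ 0) :
    (y : Matrix (Fin n) (Fin n) F) i j = (y' : Matrix (Fin n) (Fin n) F) i j := by
  have hlt : i < j := by
    by_contra hc
    exact hij (y.2 i j (not_lt.mp hc))
  have hrow : ∀ l, i < l → l < j → (y : Matrix (Fin n) (Fin n) F) i l = 0 := by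
    intro l _ hl
    by_contra hne
    exact absurd (hy.1 i l j (Nat.zero_le _) hne hij) (ne_of_lt hl)
  have hcol : ∀ k, i < k → k < j → (y : Matrix (Fin n) (Fin n) F) k j = 0 := by
    intro k hk _
    by_contra hne
    exact absurd (hy.2 k i j (Nat.zero_le _) (Nat.zero_le _) hne hij) (ne_of_gt hk)
  have hnz : ∀ a : F, a ≠ 0 → Hf theta (boxDual i j a) y' ≠ 0 := by
    intro a ha
    obtain ⟨r, hr, hr'⟩ := Hf_rook ht hlt ha hrow hcol
    rw [← h i j hlt a ha, hr']
    have h1 : theta (a * (y : Matrix (Fin n) (Fin n) F) i j) ≠ 0 := by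
      intro h0
      have := theta_norm theta (a * (y : Matrix (Fin n) (Fin n) F) i j)
      rw [h0, norm_zero] at this
      exact zero_ne_one this
    exact mul_ne_zero h1 (by exact_mod_cast hr.ne')
  have hrow' : ∀ l, i < l → l < j → (y' : Matrix (Fin n) (Fin n) F) i l = 0 := by
    intro l h1 h2
    by_contra hne
    exact hnz 1 one_ne_zero (Hf_zero_left ht h1 h2 one_ne_zero hy' hne)
  have hcol' : ∀ k, i < k → k < j → (y' : Matrix (Fin n) (Fin n) F) k j = 0 := by
    intro k h1 h2
    by_contra hne
    exact hnz 1 one_ne_zero (Hf_zero_below ht h1 h2 one_ne_zero hy' hne)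
  by_contra hne
  obtain ⟨s, hs⟩ := exists_theta ht (sub_ne_zero.mpr hne)
  have hs0 : s ≠ 0 := by
    rintro rfl
    rw [zero_mul, AddChar.map_zero_eq_one] at hs
    exact hs rfl
  obtain ⟨r, hr, hr'⟩ := Hf_rook ht hlt hs0 hrow hcol
  obtain ⟨r2, hr2, hr2'⟩ := Hf_rook ht hlt hs0 hrow' hcol'
  have h1 := h i j hlt s hs0
  rw [hr', hr2'] at h1
  have h2 := congrArg norm h1
  rw [norm_mul, norm_mul, theta_norm, theta_norm, one_mul, one_mul, Complex.norm_real,
    Complex.norm_real, Real.norm_of_nonneg hr.le, Real.norm_of_nonneg hr2.le] at h2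
  rw [← h2] at h1
  have h3 := mul_right_cancel₀ (by exact_mod_cast hr.ne' : (r : ℂ) ≠ 0) h1
  apply hs
  rw [mul_sub, AddChar.map_sub_eq_div, h3, div_self]
  intro h0
  have := theta_norm theta (s * (y' : Matrix (Fin n) (Fin n) F) i j)
  rw [h0, norm_zero] at this
  exact zero_ne_one this

/-- rook elements with the same single-box values are equal -/
lemma rook_unique {theta : AddChar F ℂ} (ht : theta ≠ 1) {y y' : nil n F} (hy : Rook 0 y)
    (hy' : Rook 0 y') (h : ∀ i j : Fin n, i < j → ∀ a : F, a ≠ 0 →
      Hf theta (boxDual i j a) y = Hf theta (boxDual i j a) y') : y = y' := by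
  apply Subtype.ext
  ext i j
  by_cases h1 : (y : Matrix (Fin n) (Fin n) F) i j = 0
  · by_cases h2 : (y' : Matrix (Fin n) (Fin n) F) i j = 0
    · rw [h1, h2]
    · exact (pivot_eq ht hy' hy (fun i j hij a ha => (h i j hij a ha).symm) h2).symm
  · exact pivot_eq ht hy hy' h h1

/-- single-box functions separate superclasses -/
theorem separate {theta : AddChar F ℂ} (ht : theta ≠ 1) {g g' : unitri n F}
    (h : ∀ i j : Fin n, i < j → ∀ a : F, a ≠ 0 →
      superchar theta (boxDual i j a) g = superchar theta (boxDual i j a) g') :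
    g' ∈ superclass g := by
  obtain ⟨u, v, hy⟩ := exists_rook (sub1 g)
  obtain ⟨u', v', hy'⟩ := exists_rook (sub1 g')
  have he : act u v (sub1 g) = act u' v' (sub1 g') := by
    apply rook_unique ht hy hy'
    intro i j hij a ha
    rw [Hf_act, Hf_act]
    exact h i j hij a ha
  refine ⟨u'⁻¹ * u, v * v'⁻¹, ?_⟩
  rw [← act_act, he, act_act, inv_mul_cancel, mul_inv_cancel, act_one]

end Fin

end Pool.Agent.H708R3.SC
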