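import Pool.Agent.H708R3.SC5

open scoped BigOperators Classical
open Representation Pool.Agent.Helper884.IC

noncomputable section

namespace Pool.Agent.H708R3.SC

variable {n : ℕ} {F : Type} [Field F] [Finite F]

/-- elements multiplying the superchar function by a scalar act by that scalar -/
lemma rho_scalar {theta : AddChar F ℂ} (ht : theta ≠ 1) {V : Type} [AddCommGroup V] [Module ℂ V]
    [FiniteDimensional ℂ V] (rho : Representation ℂ (unitri n F) V) (hirr : rho.IsIrreducible)
    {lam : Module.Dual F (nil n F)} (hl : B (superchar theta lam) rho.character ≠ 0)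
    (h : unitri n F) (chi : ℂ)
    (hF : ∀ g : unitri n F, superchar theta lam (g * h) = chi * superchar theta lam g) :
    rho h = chi • LinearMap.id := by
  obtain ⟨c, hc, hc2⟩ := Top_scalar rho hirr _ (sc_class theta lam)
  have := irr_nontrivial rho hirr
  have hc0 : c ≠ 0 := by
    intro h0
    rw [h0, zero_mul] at hc2
    rcases mul_eq_zero.mp hc2.symm with h1 | h1
    · exact cardG_ne h1
    · exact hl h1
  have h1 : rho h ∘ₗ Helper884.IC.Top rho (superchar theta lam)
      = chi • Helper884.IC.Top rho (superchar theta lam) := by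
    ext v
    simp only [Helper884.IC.Top, LinearMap.comp_apply, LinearMap.sum_apply, LinearMap.smul_apply,
      map_sum, map_smul, Finset.smul_sum]
    refine (Fintype.sum_equiv (Equiv.mulRight h) _ _ fun g => ?_).symm
    show chi • (superchar theta lam g • rho g⁻¹ v)
      = superchar theta lam (g * h) • rho h (rho (g * h)⁻¹ v)
    rw [hF, mul_inv_rev, map_mul, Module.End.mul_apply, smul_smul]
    congr 1
    rw [← Module.End.mul_apply, ← map_mul, mul_inv_cancel, map_one, Module.End.one_apply]
  rw [hc, LinearMap.comp_smul, LinearMap.comp_id, smul_comm chi c] at h1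
  exact smul_right_injective _ hc0 h1

section Box

variable (i j : Fin n) (hij : i < j)

/-- the positions strictly between `i` and `j` -/
abbrev Idx : Type := {k : Fin n // i < k ∧ k < j}

/-- extension by zero -/
def ext0 (s : Idx i j → F) (k : Fin n) : F := if h : i < k ∧ k < j then s ⟨k, h⟩ else 0

/-- the matrix with column `j` given by `s` and row `i` given by `t` -/
def pm (s t : Idx i j → F) : nil n F :=
  ⟨Matrix.of fun p q => (if q = j then ext0 i j s p else 0) + (if p = i then ext0 i j t q else 0), by
    intro p q hpq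
    rw [Matrix.of_apply]
    have h1 : (if q = j then ext0 i j s p else 0) = 0 := by
      split_ifs with h
      · unfold ext0
        rw [dif_neg]
        rintro ⟨_, h2⟩
        rw [h] at hpq
        exact absurd h2 (not_lt.mpr hpq)
      · rfl
    have h2 : (if p = i then ext0 i j t q else 0) = 0 := by
      split_ifs with h
      · unfold ext0
        rw [dif_neg]
        rintro ⟨h2, _⟩
        rw [h] at hpq
        exact absurd h2 (not_lt.mpr hpq)
      · rfl
    rw [h1, h2, add_zero]⟩

lemma pm_apply (s t : Idx i j → F) (p q : Fin n) :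
    ((pm i j s t : nil n F) : Matrix (Fin n) (Fin n) F) p q
      = (if q = j then ext0 i j s p else 0) + (if p = i then ext0 i j t q else 0) := rfl

lemma ext0_add (s s' : Idx i j → F) (k : Fin n) :
    ext0 i j (s + s') k = ext0 i j s k + ext0 i j s' k := by
  unfold ext0
  split_ifs
  · rfl
  · rw [add_zero]

lemma ext0_left (s : Idx i j → F) : ext0 i j s i = 0 := by
  unfold ext0
  rw [dif_neg]
  rintro ⟨h, _⟩
  exact lt_irrefl _ h

lemma ext0_right (s : Idx i j → F) : ext0 i j s j = 0 := by
  unfold ext0
  rw [dif_neg]
  rintro ⟨_, h⟩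
  exact lt_irrefl _ h

/-- dot product -/
def dot (s t : Idx i j → F) : F := ∑ k, ext0 i j s k * ext0 i j t k

/-- the group elements `x(s,t)` -/
def xe (s t : Idx i j → F) : unitri n F := e1.symm (pm i j s t)

/-- the group elements `1 + c E_ij` -/
def ze (c : F) : unitri n F := e1.symm (el i j hij c)

lemma sub1_xe (s t : Idx i j → F) : sub1 (xe i j s t) = pm i j s t := e1.apply_symm_apply _
lemma sub1_ze (c : F) : sub1 (ze i j hij c) = el i j hij c := e1.apply_symm_apply _

lemma sub1_mul_entry (g h : unitri n F) (p q : Fin n) :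
    ((sub1 (g * h) : nil n F) : Matrix (Fin n) (Fin n) F) p q
      = ((sub1 g : nil n F) : Matrix (Fin n) (Fin n) F) p q
        + ((sub1 h : nil n F) : Matrix (Fin n) (Fin n) F) p q
        + ∑ k, ((sub1 g : nil n F) : Matrix (Fin n) (Fin n) F) p k
          * ((sub1 h : nil n F) : Matrix (Fin n) (Fin n) F) k q := by
  have h1 : ((sub1 (g * h) : nil n F) : Matrix (Fin n) (Fin n) F)
      = ((sub1 g : nil n F) : Matrix (Fin n) (Fin n) F)
        + ((sub1 h : nil n F) : Matrix (Fin n) (Fin n) F)
        + ((sub1 g : nil n F) : Matrix (Fin n) (Fin n) F)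
          * ((sub1 h : nil n F) : Matrix (Fin n) (Fin n) F) := by
    simp only [sub1, Subgroup.coe_mul, Units.val_mul]
    noncomm_ring
  rw [h1, Matrix.add_apply, Matrix.add_apply, Matrix.mul_apply]

include hij in
lemma xmul (s t s' t' : Idx i j → F) :
    xe i j s t * xe i j s' t' = xe i j (s + s') (t + t') * ze i j hij (dot i j t s') := by
  apply sub1_inj
  apply Subtype.ext
  ext p q
  rw [sub1_mul_entry, sub1_mul_entry]
  simp only [sub1_xe, sub1_ze, pm_apply, el_apply, ext0_add]
  have hL : ∑ k, ((if k = j then ext0 i j s p else 0) + (if p = i then ext0 i j t k else 0))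
      * ((if q = j then ext0 i j s' k else 0) + (if k = i then ext0 i j t' q else 0))
      = if p = i ∧ q = j then dot i j t s' else 0 := by
    have : ∀ k, ((if k = j then ext0 i j s p else 0) + (if p = i then ext0 i j t k else 0))
      * ((if q = j then ext0 i j s' k else 0) + (if k = i then ext0 i j t' q else 0))
      = if p = i ∧ q = j then ext0 i j t k * ext0 i j s' k else 0 := by
      intro k
      by_cases hkj : k = j
      · have hki : k ≠ i := by rw [hkj]; exact ne_of_gt hij
        rw [if_pos hkj, if_neg hki, hkj, ext0_right, ext0_right]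
        simp
      · by_cases hki : k = i
        · rw [if_neg hkj, if_pos hki, hki, ext0_left, ext0_left]
          simp
        · rw [if_neg hkj, if_neg hki, zero_add, add_zero]
          by_cases hp : p = i
          · by_cases hq : q = j
            · rw [if_pos hp, if_pos hq, if_pos ⟨hp, hq⟩]
            · simp [hq]
          · simp [hp]
    rw [Finset.sum_congr rfl fun k _ => this k]
    split_ifs
    · rfl
    · simp
  have hR : ∑ k, ((if k = j then ext0 i j s p + ext0 i j s' p else 0)
        + (if p = i then ext0 i j t k + ext0 i j t' k else 0))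
      * (if k = i ∧ q = j then dot i j t s' else 0) = 0 := by
    refine Finset.sum_eq_zero fun k _ => ?_
    by_cases hki : k = i
    · have hkj : k ≠ j := by rw [hki]; exact ne_of_lt hij
      rw [if_neg hkj, hki, ext0_left, ext0_left]
      simp
    · simp [hki]
  rw [hL, hR]
  split_ifs <;> ring

lemma xe_zero : xe i j (0 : Idx i j → F) 0 = 1 := by
  apply sub1_inj
  rw [sub1_xe, sub1_one]
  apply Subtype.ext
  ext p q
  rw [pm_apply]
  have h0 : ∀ k, ext0 i j (0 : Idx i j → F) k = 0 := by
    intro k
    unfold ext0
    split_ifs <;> rfl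
  simp [h0]

lemma sub1_mul' (g h : unitri n F) : sub1 (g * h) = sub1 g + act g 1 (sub1 h) := by
  apply Subtype.ext
  simp only [sub1, act_apply, Subgroup.coe_mul, Units.val_mul, Submodule.coe_add,
    Subgroup.coe_one, Units.val_one]
  noncomm_ring

lemma sc_ze (theta : AddChar F ℂ) (a c : F) (g : unitri n F) :
    superchar theta (boxDual i j a) (g * ze i j hij c)
      = theta (a * c) * superchar theta (boxDual i j a) g := by
  rw [superchar_eq, superchar_eq, sub1_mul', sub1_ze,
    ← Hf_act theta _ (sub1 g + act g 1 (el i j hij c)) g⁻¹ 1, map_add, act_act, inv_mul_cancel,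
    one_mul, act_one, Hf_add_el, Hf_act]

variable {i j}

/-- representation-theoretic set-up for a constituent of a single-box function -/
lemma rho_ze {theta : AddChar F ℂ} (ht : theta ≠ 1) {V : Type} [AddCommGroup V] [Module ℂ V]
    [FiniteDimensional ℂ V] (rho : Representation ℂ (unitri n F) V) (hirr : rho.IsIrreducible)
    {a : F} (hl : B (superchar theta (boxDual i j a)) rho.character ≠ 0) (c : F) :
    rho (ze i j hij c) = theta (a * c) • LinearMap.id :=
  rho_scalar ht rho hirr hl _ _ (sc_ze i j hij theta a c)

include hij in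
lemma rho_xmul {theta : AddChar F ℂ} (ht : theta ≠ 1) {V : Type} [AddCommGroup V] [Module ℂ V]
    [FiniteDimensional ℂ V] (rho : Representation ℂ (unitri n F) V) (hirr : rho.IsIrreducible)
    {a : F} (hl : B (superchar theta (boxDual i j a)) rho.character ≠ 0)
    (s t s' t' : Idx i j → F) :
    rho (xe i j s t * xe i j s' t') = theta (a * dot i j t s') • rho (xe i j (s + s') (t + t')) := by
  rw [xmul i j hij, map_mul, rho_ze hij ht rho hirr hl]
  ext v
  simp

include hij in
lemma char_xe_zero {theta : AddChar F ℂ} (ht : theta ≠ 1) {V : Type} [AddCommGroup V] [Module ℂ V]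
    [FiniteDimensional ℂ V] (rho : Representation ℂ (unitri n F) V) (hirr : rho.IsIrreducible)
    {a : F} (ha : a ≠ 0) (hl : B (superchar theta (boxDual i j a)) rho.character ≠ 0)
    (s t : Idx i j → F) (hst : ¬ (s = 0 ∧ t = 0)) : rho.character (xe i j s t) = 0 := by
  -- commutation relation
  have hcomm : ∀ s' t' : Idx i j → F, theta (a * dot i j t s') * rho.character (xe i j s t)
      = theta (a * dot i j t' s) * rho.character (xe i j s t) := by
    intro s' t'
    have h1 := rho_xmul hij ht rho hirr hl s t s' t'
    have h2 := rho_xmul hij ht rho hirr hl s' t' s t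
    rw [add_comm s' s, add_comm t' t] at h2
    have h3 : theta (a * dot i j t s') • rho (xe i j s' t' * xe i j s t)
        = theta (a * dot i j t' s) • rho (xe i j s t * xe i j s' t') := by
      rw [h1, h2, smul_comm]
    have h4 : theta (a * dot i j t s') • rho (xe i j s' t' * xe i j s t * (xe i j s' t')⁻¹)
        = theta (a * dot i j t' s) • rho (xe i j s t) := by
      have h5 := congrArg (fun T : V →ₗ[ℂ] V => T * rho (xe i j s' t')⁻¹) h3
      simp only [smul_mul_assoc, ← map_mul] at h5
      rw [h5, mul_inv_cancel_right]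
    have h6 := congrArg (LinearMap.trace ℂ V) h4
    rw [map_smul, map_smul, smul_eq_mul, smul_eq_mul] at h6
    have h7 : LinearMap.trace ℂ V (rho (xe i j s' t' * xe i j s t * (xe i j s' t')⁻¹))
        = rho.character (xe i j s t) := rho.char_conj _ _
    rw [h7] at h6
    exact h6
  have hd0 : ∀ w : Idx i j → F, dot i j w 0 = 0 ∧ dot i j 0 w = 0 := by
    intro w
    have h0 : ∀ k, ext0 i j (0 : Idx i j → F) k = 0 := by
      intro k
      unfold ext0
      split_ifs <;> rfl
    constructor <;> simp [dot, h0]
  have hpick : ∀ w : Idx i j → F, w ≠ 0 → ∀ c : F, ∃ w' : Idx i j → F, dot i j w' w = c ∧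
      dot i j w w' = c := by
    intro w hw c
    obtain ⟨k, hk⟩ := Function.ne_iff.mp hw
    have hk' : w k ≠ 0 := hk
    let w' : Idx i j → F := fun l => if l = k then c / w k else 0
    have hext : ∀ l, ext0 i j w' l = if l = (k : Fin n) then c / w k else 0 := by
      intro l
      unfold ext0
      by_cases hl : i < l ∧ l < j
      · rw [dif_pos hl]
        simp only [w']
        by_cases hlk : l = (k : Fin n)
        · rw [if_pos hlk, if_pos (Subtype.ext hlk)]
        · rw [if_neg hlk, if_neg (fun h => hlk (congrArg Subtype.val h))]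
      · rw [dif_neg hl, if_neg]
        intro h
        rw [h] at hl
        exact hl k.2
    have hwk : ext0 i j w (k : Fin n) = w k := by
      unfold ext0
      rw [dif_pos k.2]
    refine ⟨w', ?_, ?_⟩
    · unfold dot
      rw [Finset.sum_eq_single (k : Fin n)]
      · rw [hext, if_pos rfl, hwk, div_mul_cancel₀ _ hk']
      · intro l _ hl
        rw [hext, if_neg hl, zero_mul]
      · intro h
        exact absurd (Finset.mem_univ _) h
    · unfold dot
      rw [Finset.sum_eq_single (k : Fin n)]
      · rw [hext, if_pos rfl, hwk, mul_div_cancel₀ _ hk']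
      · intro l _ hl
        rw [hext, if_neg hl, mul_zero]
      · intro h
        exact absurd (Finset.mem_univ _) h
  obtain ⟨c, hc⟩ := exists_theta ht ha
  rw [mul_comm] at hc
  by_cases hs : s = 0
  · have ht0 : t ≠ 0 := fun h => hst ⟨hs, h⟩
    obtain ⟨w, _, hw⟩ := hpick t ht0 c
    have h1 := hcomm w 0
    rw [hw, (hd0 s).2, mul_zero, AddChar.map_zero_eq_one, one_mul] at h1
    have h2 : (theta (a * c) - 1) * rho.character (xe i j s t) = 0 := by
      rw [sub_mul, h1, one_mul, sub_self]
    rcases mul_eq_zero.mp h2 with h3 | h3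
    · exact absurd (sub_eq_zero.mp h3) hc
    · exact h3
  · obtain ⟨w, hw, _⟩ := hpick s hs c
    have h1 := hcomm 0 w
    rw [hw, (hd0 t).1, mul_zero, AddChar.map_zero_eq_one, one_mul] at h1
    have h2 : (theta (a * c) - 1) * rho.character (xe i j s t) = 0 := by
      rw [sub_mul, ← h1, one_mul, sub_self]
    rcases mul_eq_zero.mp h2 with h3 | h3
    · exact absurd (sub_eq_zero.mp h3) hc
    · exact h3

include hij in
/-- lower bound for the degree of a constituent -/
lemma degree_bound {theta : AddChar F ℂ} (ht : theta ≠ 1) {V : Type} [AddCommGroup V] [Module ℂ V]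
    [FiniteDimensional ℂ V] (rho : Representation ℂ (unitri n F) V) (hirr : rho.IsIrreducible)
    {a : F} (ha : a ≠ 0) (hl : B (superchar theta (boxDual i j a)) rho.character ≠ 0) :
    Nat.card ((Idx i j → F) × (Idx i j → F)) ≤ Module.finrank ℂ V * Module.finrank ℂ V := by
  have := irr_nontrivial rho hirr
  have hd : (Module.finrank ℂ V : ℂ) ≠ 0 := by
    exact_mod_cast (Module.finrank_pos (R := ℂ) (M := V)).ne'
  letI : Fintype F := Fintype.ofFinite F
  have hli : LinearIndependent ℂ (fun p : (Idx i j → F) × (Idx i j → F) => rho (xe i j p.1 p.2)) := by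
    rw [Fintype.linearIndependent_iff]
    intro c hc p0
    have h1 := congrArg (fun T : V →ₗ[ℂ] V => LinearMap.trace ℂ V
      (rho (xe i j (-p0.1) (-p0.2)) * T)) hc
    simp only [Finset.mul_sum, map_sum, mul_smul_comm, map_smul, ← map_mul, mul_zero, map_zero,
      smul_eq_mul] at h1
    rw [Finset.sum_eq_single p0] at h1
    · rw [rho_xmul hij ht rho hirr hl, neg_add_cancel, neg_add_cancel, xe_zero, map_one,
        map_smul, Module.End.one_eq_id, LinearMap.trace_id, smul_eq_mul] at h1
      rcases mul_eq_zero.mp h1 with h2 | h2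
      · exact h2
      · exfalso
        rcases mul_eq_zero.mp h2 with h3 | h3
        · have := theta_norm theta (a * dot i j (-p0.2) p0.1)
          rw [h3, norm_zero] at this
          exact zero_ne_one this
        · exact hd h3
    · intro p _ hp
      rw [rho_xmul hij ht rho hirr hl, map_smul]
      have h2 : LinearMap.trace ℂ V (rho (xe i j (-p0.1 + p.1) (-p0.2 + p.2))) = 0 := by
        apply char_xe_zero hij ht rho hirr ha hl
        rintro ⟨e1, e2⟩
        apply hp
        rw [neg_add_eq_zero] at e1 e2
        exact Prod.ext e1.symm e2.symm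
      rw [h2, smul_zero, mul_zero]
    · intro h
      exact absurd (Finset.mem_univ _) h
  have h1 := hli.fintype_card_le_finrank
  rw [Nat.card_eq_fintype_card]
  refine h1.trans (le_of_eq ?_)
  exact Module.finrank_linearMap ℂ ℂ V V

/-- upper bound for the size of the orbit of a single box -/
lemma orb_bound {a : F} (ha : a ≠ 0) :
    (orb (boxDual i j a : Module.Dual F (nil n F))).ncard
      ≤ Nat.card ((Idx i j → F) × (Idx i j → F)) := by
  rw [← Set.ncard_univ]
  have hval : ∀ u v : unitri n F, ∀ y : nil n F, (boxDual i j a ∘ₗ act u v) y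
      = a * ∑ k, ∑ l, ((u : GL (Fin n) F) : Matrix (Fin n) (Fin n) F) i k
        * (y : Matrix (Fin n) (Fin n) F) k l
        * ((v : GL (Fin n) F) : Matrix (Fin n) (Fin n) F) l j := by
    intro u v y
    show a * ((act u v y : nil n F) : Matrix (Fin n) (Fin n) F) i j = _
    rw [act_entry]
  have hel : ∀ u v : unitri n F, ∀ k l : Fin n, ∀ h : k < l, (boxDual i j a ∘ₗ act u v) (el k l h 1)
      = a * (((u : GL (Fin n) F) : Matrix (Fin n) (Fin n) F) i k
        * ((v : GL (Fin n) F) : Matrix (Fin n) (Fin n) F) l j) := by
    intro u v k l h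
    rw [hval, Finset.sum_eq_single k, Finset.sum_eq_single l]
    · rw [el_apply, if_pos ⟨rfl, rfl⟩, mul_one]
    · intro l' _ hl'
      rw [el_apply, if_neg (fun h' => hl' h'.2), mul_zero, zero_mul]
    · intro h'
      exact absurd (Finset.mem_univ _) h'
    · intro k' _ hk'
      refine Finset.sum_eq_zero fun l' _ => ?_
      rw [el_apply, if_neg (fun h' => hk' h'.1), mul_zero, zero_mul]
    · intro h'
      exact absurd (Finset.mem_univ _) h'
  refine Set.ncard_le_ncard_of_injOn
    (fun mu : Module.Dual F (nil n F) => ((fun k : Idx i j => mu (el k j k.2.2 1)),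
      (fun k : Idx i j => mu (el i k k.2.1 1)))) (fun _ _ => Set.mem_univ _) ?_ (Set.toFinite _)
  rintro mu ⟨u, v, rfl⟩ mu' ⟨u', v', rfl⟩ h
  have h1 : ∀ k : Idx i j, ((u : GL (Fin n) F) : Matrix (Fin n) (Fin n) F) i k
      = ((u' : GL (Fin n) F) : Matrix (Fin n) (Fin n) F) i k := by
    intro k
    have h2 := congrFun (congrArg Prod.fst h) k
    simp only [hel, unitri_diag, mul_one] at h2
    exact mul_left_cancel₀ ha h2
  have h2 : ∀ k : Idx i j, ((v : GL (Fin n) F) : Matrix (Fin n) (Fin n) F) k j
      = ((v' : GL (Fin n) F) : Matrix (Fin n) (Fin n) F) k j := by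
    intro k
    have h2 := congrFun (congrArg Prod.snd h) k
    simp only [hel, unitri_diag, one_mul] at h2
    exact mul_left_cancel₀ ha h2
  ext y
  rw [hval, hval]
  congr 1
  refine Finset.sum_congr rfl fun k _ => Finset.sum_congr rfl fun l _ => ?_
  by_cases hkl : k < l
  · rcases lt_or_ge k i with hki | hki
    · rw [unitri_low u i k hki, unitri_low u' i k hki]
      ring
    · rcases lt_or_ge j l with hlj | hlj
      · rw [unitri_low v l j hlj, unitri_low v' l j hlj]
        ring
      · have e1 : ((u : GL (Fin n) F) : Matrix (Fin n) (Fin n) F) i k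
            = ((u' : GL (Fin n) F) : Matrix (Fin n) (Fin n) F) i k := by
          rcases eq_or_lt_of_le hki with h3 | h3
          · rw [← h3, unitri_diag, unitri_diag]
          · exact h1 ⟨k, h3, lt_of_lt_of_le hkl hlj⟩
        have e2 : ((v : GL (Fin n) F) : Matrix (Fin n) (Fin n) F) l j
            = ((v' : GL (Fin n) F) : Matrix (Fin n) (Fin n) F) l j := by
          rcases eq_or_lt_of_le hlj with h3 | h3
          · rw [h3, unitri_diag, unitri_diag]
          · exact h2 ⟨l, lt_of_le_of_lt hki hkl, h3⟩
        rw [e1, e2]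
  · rw [y.2 k l (not_lt.mp hkl)]
    ring

include hij in
/-- the single-box function has exactly one constituent -/
lemma box_single {theta : AddChar F ℂ} (ht : theta ≠ 1) {a : F} (ha : a ≠ 0)
    {psi : unitri n F → ℂ} (hp : psi ∈ Xset theta (boxDual i j a)) :
    Xset theta (boxDual i j a) = {psi} := by
  -- degrees are natural numbers
  have hdeg : ∀ chi : unitri n F → ℂ, IsIrr chi → ∃ d : ℕ, 0 < d ∧ chi 1 = d := by
    rintro chi ⟨V, _, _, _, rho, hirr, rfl⟩
    have := irr_nontrivial rho hirr
    exact ⟨Module.finrank ℂ V, Module.finrank_pos, Representation.char_one rho⟩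
  have hsum := sigma_Xset ht (boxDual i j a : Module.Dual F (nil n F)) 1
  rw [sigma_eq _ (fun psi h => h.1), superchar_eq, sub1_one, Hf_zero] at hsum
  have hbd : ∃ d : ℕ, psi 1 = d ∧ (orb (boxDual i j a : Module.Dual F (nil n F))).ncard ≤ d * d := by
    obtain ⟨⟨V, _, _, _, rho, hirr, rfl⟩, hl⟩ := hp
    exact ⟨Module.finrank ℂ V, Representation.char_one rho,
      (orb_bound ha).trans (degree_bound hij ht rho hirr ha hl)⟩
  obtain ⟨d, hd, hle⟩ := hbd
  -- natural degree function
  let D : (unitri n F → ℂ) → ℕ := fun chi => if h : IsIrr chi then (hdeg chi h).choose else 0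
  have hD : ∀ chi, IsIrr chi → 0 < D chi ∧ chi 1 = D chi := by
    intro chi h
    simp only [D, dif_pos h]
    exact (hdeg chi h).choose_spec
  have hDp : D psi = d := by
    have := (hD psi hp.1).2
    rw [hd] at this
    exact_mod_cast this.symm
  have hsum' : ∑ chi ∈ Irr (unitri n F), (if chi ∈ Xset theta (boxDual i j a) then D chi * D chi
      else 0) = (orb (boxDual i j a : Module.Dual F (nil n F))).ncard := by
    have : (((∑ chi ∈ Irr (unitri n F), (if chi ∈ Xset theta (boxDual i j a) then D chi * D chi
      else 0) : ℕ)) : ℂ) = ((orb (boxDual i j a : Module.Dual F (nil n F))).ncard : ℂ) := by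
      rw [← hsum]
      push_cast
      refine Finset.sum_congr rfl fun chi hchi => ?_
      split_ifs with h
      · rw [(hD chi h.1).2]
      · rfl
    exact_mod_cast this
  ext chi
  rw [Set.mem_singleton_iff]
  constructor
  · intro hc
    by_contra hne
    have h1 : (if chi ∈ Xset theta (boxDual i j a) then D chi * D chi else 0)
        + (if psi ∈ Xset theta (boxDual i j a) then D psi * D psi else 0)
        ≤ ∑ chi ∈ Irr (unitri n F), (if chi ∈ Xset theta (boxDual i j a) then D chi * D chi
      else 0) := by
      rw [← Finset.sum_pair hne (f := fun chi => if chi ∈ Xset theta (boxDual i j a)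
        then D chi * D chi else 0)]
      apply Finset.sum_le_sum_of_subset
      intro x hx
      rw [Finset.mem_insert, Finset.mem_singleton] at hx
      rcases hx with rfl | rfl
      · exact mem_Irr.mpr hc.1
      · exact mem_Irr.mpr hp.1
    rw [if_pos hc, if_pos hp, hsum', hDp] at h1
    have h2 := (hD chi hc.1).1
    have h3 : 0 < D chi * D chi := Nat.mul_pos h2 h2
    omega
  · rintro rfl
    exact hp

include hij in
/-- single-box characters exist -/
theorem exists_boxChar {theta : AddChar F ℂ} (ht : theta ≠ 1) {a : F} (ha : a ≠ 0) :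
    ∃ chi : unitri n F → ℂ, IsBoxChar theta i j a chi := by
  obtain ⟨psi, hp⟩ := Xset_nonempty ht (boxDual i j a : Module.Dual F (nil n F))
  have h1 := box_single hij ht ha hp
  refine ⟨psi, hp.1, ?_⟩
  have h2 : ∀ g, superchar theta (boxDual i j a) g = psi 1 * psi g := by
    intro g
    rw [← sigma_Xset ht, h1]
    unfold sigma
    rw [finsum_mem_singleton]
  obtain ⟨V, _, _, _, rho, hirr, rfl⟩ := hp.1
  have := irr_nontrivial rho hirr
  refine ⟨Module.finrank ℂ V, ?_, ?_⟩
  · exact_mod_cast (Module.finrank_pos (R := ℂ) (M := V))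
  · intro g
    rw [h2, Representation.char_one]
    push_cast
    rfl

/-- the block of a single-box character in Andre's theory -/
theorem boxChar_mem {theta : AddChar F ℂ} (ht : theta ≠ 1)
    {chi : unitri n F → ℂ} {a : F} (h : IsBoxChar theta i j a chi) : {chi} ∈ andreX n theta := by
  obtain ⟨hchi, c, hc, hg⟩ := h
  refine ⟨?_, boxDual i j a, ?_⟩
  · rintro psi hpsi
    rw [Set.mem_singleton_iff] at hpsi
    rw [hpsi]
    exact hchi
  · have hs : ∀ g, sigma ({chi} : Set (unitri n F → ℂ)) g = chi 1 * chi g := by
      intro g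
      unfold sigma
      rw [finsum_mem_singleton]
    obtain ⟨V, _, _, _, rho, hirr, rfl⟩ := hchi
    have := irr_nontrivial rho hirr
    have hd : (0 : ℝ) < Module.finrank ℂ V := by
      exact_mod_cast (Module.finrank_pos (R := ℂ) (M := V))
    refine ⟨c / Module.finrank ℂ V, div_pos hc hd, fun g => ?_⟩
    rw [hg, hs, Representation.char_one]
    push_cast
    have hd' : (Module.finrank ℂ V : ℂ) ≠ 0 := by exact_mod_cast hd.ne'
    field_simp

end Box

end Pool.Agent.H708R3.SC
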