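import Mathlib

/-!
Supercharacter theories of finite groups and the theory of Andre for the unitriangular groups.
-/

noncomputable section

namespace Pool.Agent.H708R3.SC

/-- `chi` is an irreducible complex character of `G`. -/
def IsIrr {G : Type} [Group G] (chi : G → ℂ) : Prop :=
  ∃ (V : Type) (_ : AddCommGroup V) (_ : Module ℂ V) (_ : FiniteDimensional ℂ V)
    (rho : Representation ℂ G V), rho.IsIrreducible ∧ chi = rho.character

/-- The function `sigma_x = sum over psi in x of psi(1) psi`. -/
def sigma {G : Type} [Group G] (x : Set (G → ℂ)) (g : G) : ℂ :=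
  ∑ᶠ psi ∈ x, psi 1 * psi g

/-- Supercharacter theories `(X, K)` of a finite group in the sense of Diaconis and Isaacs. -/
structure IsSCT (G : Type) [Group G] (X : Set (Set (G → ℂ))) (K : Set (Set G)) : Prop where
  /-- blocks of `X` are nonempty -/
  X_nonempty : ∀ x ∈ X, x.Nonempty
  /-- blocks of `X` consist of irreducible characters -/
  X_irr : ∀ x ∈ X, ∀ psi ∈ x, IsIrr psi
  /-- every irreducible character lies in exactly one block of `X` -/
  X_part : ∀ psi : G → ℂ, IsIrr psi → ∃! x, x ∈ X ∧ psi ∈ x
  /-- `K` is a partition of `G` -/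
  K_part : Setoid.IsPartition K
  /-- the two partitions have the same number of blocks -/
  card_eq : X.ncard = K.ncard
  /-- the identity is a block by itself -/
  one_mem : {1} ∈ K
  /-- the functions `sigma_x` are constant on the blocks of `K` -/
  const : ∀ x ∈ X, ∀ k ∈ K, ∀ g ∈ k, ∀ h ∈ k, sigma x g = sigma x h

/-- The strictly upper triangular matrices. -/
def nil (n : ℕ) (F : Type) [Field F] : Submodule F (Matrix (Fin n) (Fin n) F) where
  carrier := {y | ∀ i j, j ≤ i → y i j = 0}
  add_mem' := by
    intro a b ha hb i j h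
    simp [ha i j h, hb i j h]
  zero_mem' := by
    intro i j _
    rfl
  smul_mem' := by
    intro c a ha i j h
    simp [ha i j h]

lemma mem_nil {n : ℕ} {F : Type} [Field F] {y : Matrix (Fin n) (Fin n) F} :
    y ∈ nil n F ↔ ∀ i j, j ≤ i → y i j = 0 := Iff.rfl

/-- If `u - 1` is strictly upper triangular and `y` is strictly upper triangular then so is
`u * y`. -/
lemma nil_left {n : ℕ} {F : Type} [Field F] {u y : Matrix (Fin n) (Fin n) F}
    (hu : u - 1 ∈ nil n F) (hy : y ∈ nil n F) : u * y ∈ nil n F := by
  intro i j hij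
  rw [Matrix.mul_apply]
  refine Finset.sum_eq_zero fun k _ => ?_
  rcases lt_or_ge k i with h | h
  · have h1 := hu i k h.le
    rw [Matrix.sub_apply, Matrix.one_apply_ne (ne_of_gt h), sub_zero] at h1
    rw [h1, zero_mul]
  · rw [hy k j (hij.trans h), mul_zero]

lemma nil_right {n : ℕ} {F : Type} [Field F] {u y : Matrix (Fin n) (Fin n) F}
    (hu : u - 1 ∈ nil n F) (hy : y ∈ nil n F) : y * u ∈ nil n F := by
  intro i j hij
  rw [Matrix.mul_apply]
  refine Finset.sum_eq_zero fun k _ => ?_
  rcases lt_or_ge j k with h | h
  · have h1 := hu k j h.le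
    rw [Matrix.sub_apply, Matrix.one_apply_ne (ne_of_gt h), sub_zero] at h1
    rw [h1, mul_zero]
  · rw [hy i k (h.trans hij), zero_mul]

/-- The group `U_n(F)` of upper unitriangular matrices. -/
def unitri (n : ℕ) (F : Type) [Field F] : Subgroup (GL (Fin n) F) where
  carrier := {g | (g : Matrix (Fin n) (Fin n) F) - 1 ∈ nil n F}
  mul_mem' := by
    intro a b ha hb
    have h : ((a * b : GL (Fin n) F) : Matrix (Fin n) (Fin n) F) - 1
        = (a : Matrix (Fin n) (Fin n) F) * ((b : Matrix (Fin n) (Fin n) F) - 1)
          + ((a : Matrix (Fin n) (Fin n) F) - 1) := by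
      rw [Units.val_mul]
      noncomm_ring
    show ((a * b : GL (Fin n) F) : Matrix (Fin n) (Fin n) F) - 1 ∈ nil n F
    rw [h]
    exact (nil n F).add_mem (nil_left ha hb) ha
  one_mem' := by
    show ((1 : GL (Fin n) F) : Matrix (Fin n) (Fin n) F) - 1 ∈ nil n F
    rw [Units.val_one, sub_self]
    exact (nil n F).zero_mem
  inv_mem' := by
    intro g hg
    have hup : (g : Matrix (Fin n) (Fin n) F).BlockTriangular id := by
      intro i j hij
      change j < i at hij
      have h1 : (g : Matrix (Fin n) (Fin n) F) i j - (1 : Matrix (Fin n) (Fin n) F) i j = 0 :=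
        hg i j hij.le
      rw [Matrix.one_apply_ne (ne_of_gt hij), sub_zero] at h1
      exact h1
    have : Invertible (g : Matrix (Fin n) (Fin n) F) := g.invertible
    have hinv : ((g⁻¹ : GL (Fin n) F) : Matrix (Fin n) (Fin n) F).BlockTriangular id := by
      rw [Matrix.coe_units_inv]
      exact Matrix.blockTriangular_inv_of_blockTriangular hup
    have h : ((g⁻¹ : GL (Fin n) F) : Matrix (Fin n) (Fin n) F) - 1
        = - (((g⁻¹ : GL (Fin n) F) : Matrix (Fin n) (Fin n) F)
          * ((g : Matrix (Fin n) (Fin n) F) - 1)) := by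
      rw [mul_sub, ← Units.val_mul, inv_mul_cancel, Units.val_one, mul_one, neg_sub]
    show ((g⁻¹ : GL (Fin n) F) : Matrix (Fin n) (Fin n) F) - 1 ∈ nil n F
    rw [h]
    refine (nil n F).neg_mem ?_
    intro i j hij
    rw [Matrix.mul_apply]
    refine Finset.sum_eq_zero fun k _ => ?_
    rcases lt_or_ge k i with h | h
    · rw [hinv h, zero_mul]
    · rw [hg k j (hij.trans h), mul_zero]

variable {n : ℕ} {F : Type} [Field F]

/-- The matrix `g - 1` for `g` in `U_n(F)`. -/
def sub1 (g : unitri n F) : nil n F := ⟨((g : GL (Fin n) F) : Matrix (Fin n) (Fin n) F) - 1, g.2⟩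

/-- The linear map `y ↦ u y v` of the strictly upper triangular matrices. -/
def act (u v : unitri n F) : nil n F →ₗ[F] nil n F where
  toFun y := ⟨((u : GL (Fin n) F) : Matrix (Fin n) (Fin n) F) * (y : Matrix (Fin n) (Fin n) F)
    * ((v : GL (Fin n) F) : Matrix (Fin n) (Fin n) F), nil_right v.2 (nil_left u.2 y.2)⟩
  map_add' := by
    intro x y
    apply Subtype.ext
    simp [mul_add, add_mul]
  map_smul' := by
    intro c y
    apply Subtype.ext
    simp

/-- The two-sided orbit `U lam U` of a functional, where `(u mu v)(y) = mu (u y v)`. -/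
def orb (lam : Module.Dual F (nil n F)) : Set (Module.Dual F (nil n F)) :=
  {mu | ∃ u v : unitri n F, mu = lam ∘ₗ act u v}

/-- The function `g ↦ sum over mu in U lam U of theta (mu (g - 1))`: up to a positive scalar it is
the supercharacter of Andre's theory indexed by `lam`. -/
def superchar (theta : AddChar F ℂ) (lam : Module.Dual F (nil n F)) (g : unitri n F) : ℂ :=
  ∑ᶠ mu ∈ orb lam, theta (mu (sub1 g))

/-- The superclass of `x`: all `g` with `g - 1` in `U (x - 1) U`. -/
def superclass (x : unitri n F) : Set (unitri n F) :=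
  {g | ∃ u v : unitri n F, sub1 g = act u v (sub1 x)}

/-- The superclasses of Andre's theory. -/
def andreK (n : ℕ) (F : Type) [Field F] : Set (Set (unitri n F)) :=
  {k | ∃ x : unitri n F, k = superclass x}

/-- The blocks of irreducible characters of Andre's theory: the sets `x` of irreducible characters
such that `sigma_x` is, up to a positive scalar, the function `superchar theta lam` for some
functional `lam`. -/
def andreX (n : ℕ) {F : Type} [Field F] (theta : AddChar F ℂ) : Set (Set (unitri n F → ℂ)) :=
  {x | (∀ psi ∈ x, IsIrr psi) ∧ ∃ (lam : Module.Dual F (nil n F)) (c : ℝ), 0 < c ∧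
    ∀ g, superchar theta lam g = c * sigma x g}

/-- The single-box functional `y ↦ a * y_{ij}`. -/
def boxDual (i j : Fin n) (a : F) : Module.Dual F (nil n F) where
  toFun y := a * (y : Matrix (Fin n) (Fin n) F) i j
  map_add' := by
    intro x y
    simp [mul_add]
  map_smul' := by
    intro c y
    simp
    ring

/-- `chi` is the single-box irreducible character attached to the position `(i, j)` and the
label `a`: it is irreducible and the single-box supercharacter is a positive multiple of it. -/
def IsBoxChar (theta : AddChar F ℂ) (i j : Fin n) (a : F) (chi : unitri n F → ℂ) : Prop :=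
  IsIrr chi ∧ ∃ c : ℝ, 0 < c ∧ ∀ g, superchar theta (boxDual i j a) g = c * chi g

end Pool.Agent.H708R3.SC
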