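import Mathlib

set_option autoImplicit false

namespace Pool.Agent.H708R3.SP

/-- `R` is a finite product of full matrix algebras over `ℚ`. -/
def Split (R : Type) [Ring R] [Algebra ℚ R] : Prop :=
  ∃ (ι : Type) (_ : Fintype ι) (n : ι → ℕ),
    Nonempty (R ≃ₐ[ℚ] ((i : ι) → Matrix (Fin (n i)) (Fin (n i)) ℚ))

theorem Split.of_equiv {R S : Type} [Ring R] [Algebra ℚ R] [Ring S] [Algebra ℚ S]
    (e : R ≃ₐ[ℚ] S) (h : Split S) : Split R := by
  obtain ⟨ι, hι, n, ⟨f⟩⟩ := h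
  exact ⟨ι, hι, n, ⟨e.trans f⟩⟩

theorem split_matrix {Ω : Type} [Fintype Ω] [DecidableEq Ω] : Split (Matrix Ω Ω ℚ) := by
  refine ⟨Unit, inferInstance, fun _ => Fintype.card Ω, ⟨?_⟩⟩
  exact (Matrix.reindexAlgEquiv ℚ ℚ (Fintype.equivFin Ω)).trans
    (AlgEquiv.symm (AlgEquiv.funUnique ℚ Unit _))

theorem Split.prod {R S : Type} [Ring R] [Algebra ℚ R] [Ring S] [Algebra ℚ S]
    (hR : Split R) (hS : Split S) : Split (R × S) := by
  obtain ⟨ι, hι, n, ⟨e⟩⟩ := hR
  obtain ⟨κ, hκ, m, ⟨f⟩⟩ := hS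
  refine ⟨ι ⊕ κ, inferInstance, Sum.elim n m, ⟨?_⟩⟩
  refine (AlgEquiv.prodCongr e f).trans ?_
  refine AlgEquiv.ofBijective
    (AlgHom.mk (RingHom.mk (MonoidHom.mk (OneHom.mk
      (fun (p : ((i : ι) → Matrix (Fin (n i)) (Fin (n i)) ℚ) ×
          ((i : κ) → Matrix (Fin (m i)) (Fin (m i)) ℚ)) =>
        (fun i => match i with
          | Sum.inl i => p.1 i
          | Sum.inr j => p.2 j :
          (i : ι ⊕ κ) → Matrix (Fin (Sum.elim n m i)) (Fin (Sum.elim n m i)) ℚ)) ?_) ?_) ?_ ?_) ?_)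
      ⟨?_, ?_⟩
  · funext i; cases i <;> rfl
  · intro x y; funext i; cases i <;> rfl
  · funext i; cases i <;> rfl
  · intro x y; funext i; cases i <;> rfl
  · intro r; funext i; cases i <;> rfl
  · intro x y hxy
    refine Prod.ext ?_ ?_
    · funext i; exact congrFun hxy (Sum.inl i)
    · funext i; exact congrFun hxy (Sum.inr i)
  · intro z
    refine ⟨(fun i => z (Sum.inl i), fun j => z (Sum.inr j)), ?_⟩
    funext i; cases i <;> rfl

theorem Split.pi {ι : Type} [Fintype ι] {R : ι → Type} [∀ i, Ring (R i)] [∀ i, Algebra ℚ (R i)]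
    (h : ∀ i, Split (R i)) : Split ((i : ι) → R i) := by
  choose κ hκ n e using h
  have e' := fun i => (e i).some
  refine ⟨(i : ι) × κ i, inferInstance, fun p => n p.1 p.2, ⟨?_⟩⟩
  refine (AlgEquiv.piCongrRight e').trans ?_
  refine AlgEquiv.ofBijective
    (AlgHom.mk (RingHom.mk (MonoidHom.mk (OneHom.mk
      (fun (p : (i : ι) → (j : κ i) → Matrix (Fin (n i j)) (Fin (n i j)) ℚ) =>
        (fun q => p q.1 q.2 :
          (q : (i : ι) × κ i) → Matrix (Fin (n q.1 q.2)) (Fin (n q.1 q.2)) ℚ)) ?_) ?_) ?_ ?_) ?_)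
      ⟨?_, ?_⟩
  · rfl
  · intro x y; rfl
  · rfl
  · intro x y; rfl
  · intro r; rfl
  · intro x y hxy
    funext i j
    exact congrFun hxy ⟨i, j⟩
  · intro z
    exact ⟨fun i j => z ⟨i, j⟩, rfl⟩

/-- matrices over a product are a product of matrices -/
theorem Split.matrix {Ω R : Type} [Fintype Ω] [DecidableEq Ω] [Ring R] [Algebra ℚ R]
    (h : Split R) : Split (Matrix Ω Ω R) := by
  classical
  obtain ⟨ι, hι, n, ⟨e⟩⟩ := h
  refine Split.of_equiv (AlgEquiv.mapMatrix e) ?_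
  -- Matrix Ω Ω (∀ i, M i) ≃ ∀ i, Matrix Ω Ω (M i)
  have h1 : Split ((i : ι) → Matrix (Ω × Fin (n i)) (Ω × Fin (n i)) ℚ) :=
    Split.pi fun i => split_matrix
  refine Split.of_equiv ?_ h1
  refine AlgEquiv.ofBijective
    (AlgHom.mk (RingHom.mk (MonoidHom.mk (OneHom.mk
      (fun (p : Matrix Ω Ω ((i : ι) → Matrix (Fin (n i)) (Fin (n i)) ℚ)) =>
        (fun i => Matrix.of fun a b => p a.1 b.1 i a.2 b.2 :
          (i : ι) → Matrix (Ω × Fin (n i)) (Ω × Fin (n i)) ℚ)) ?_) ?_) ?_ ?_) ?_)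
      ⟨?_, ?_⟩
  · funext i
    ext a b
    simp only [Matrix.of_apply, Matrix.one_apply, Pi.one_apply, Prod.ext_iff]
    by_cases h1 : a.1 = b.1
    · simp [h1, Matrix.one_apply]
    · simp [h1]
  · intro x y
    funext i
    ext a b
    simp only [Matrix.of_apply, Matrix.mul_apply, Pi.mul_apply, Fintype.sum_prod_type,
      Finset.sum_apply, Matrix.sum_apply]
  · funext i
    ext a b
    rfl
  · intro x y
    funext i
    ext a b
    rfl
  · intro r
    funext i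
    ext a b
    show (algebraMap ℚ (Matrix Ω Ω ((i : ι) → Matrix (Fin (n i)) (Fin (n i)) ℚ)) r) a.1 b.1 i a.2 b.2
      = (algebraMap ℚ (Matrix (Ω × Fin (n i)) (Ω × Fin (n i)) ℚ) r) a b
    rw [Matrix.algebraMap_matrix_apply, Matrix.algebraMap_matrix_apply]
    obtain ⟨a1, a2⟩ := a
    obtain ⟨b1, b2⟩ := b
    by_cases h1 : a1 = b1
    · subst h1
      simp only [if_true, Pi.algebraMap_apply, Matrix.algebraMap_matrix_apply, Prod.mk.injEq, true_and]
    · simp [h1]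
  · intro x y hxy
    ext a b i c d
    exact congrFun (congrFun (congrFun hxy i) (a, c)) (b, d)
  · intro z
    refine ⟨fun a b i c d => z i (a, c) (b, d), ?_⟩
    rfl

end Pool.Agent.H708R3.SP
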