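import Mathlib
import Pool.Agent.H708R3.SP1

set_option autoImplicit false

namespace Pool.Agent.H708R3.SP

/-- every simple rational representation of `G` has only scalar endomorphisms -/
def ES (G : Type) [Group G] : Prop :=
  ∀ (M : Type) [AddCommGroup M] [Module ℚ M] (ρ : G →* (M →ₗ[ℚ] M)),
    (∃ v : M, v ≠ 0) →
    (∀ p : Submodule ℚ M, (∀ g, ∀ v ∈ p, ρ g v ∈ p) → p = ⊥ ∨ p = ⊤) →
    ∀ T : M →ₗ[ℚ] M, (∀ g v, T (ρ g v) = ρ g (T v)) → ∃ c : ℚ, ∀ v, T v = c • v

theorem end_scalar {G : Type} [Group G] [Finite G] (h : ES G)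
    (S : Ideal (MonoidAlgebra ℚ G)) (hS : IsSimpleModule (MonoidAlgebra ℚ G) S)
    (T : Module.End (MonoidAlgebra ℚ G) S) : ∃ c : ℚ, ∀ v, T v = c • v := by
  set R := MonoidAlgebra ℚ G with hR
  let ρ : G →* (S →ₗ[ℚ] S) :=
    { toFun := fun g => ((Algebra.lsmul ℚ ℚ S (MonoidAlgebra.single g (1:ℚ) : R)) : S →ₗ[ℚ] S)
      map_one' := by
        ext v
        have : (MonoidAlgebra.single (1:G) (1:ℚ)) = (1 : R) := rfl
        simp [this]
      map_mul' := by
        intro g k
        ext v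
        simp only [Algebra.lsmul_coe, Module.End.mul_apply]
        rw [← mul_smul, MonoidAlgebra.single_mul_single, one_mul] }
  have hρ : ∀ g v, ρ g v = (MonoidAlgebra.single g (1:ℚ) : R) • v := fun g v => rfl
  have hnt : Nontrivial S := IsSimpleModule.nontrivial R S
  refine h S ρ (exists_ne 0) ?_ (T.restrictScalars ℚ) ?_
  · intro p hp
    -- p is an R-submodule
    have key : ∀ (r : R), ∀ v ∈ p, r • v ∈ p := by
      intro r v hv
      induction r using MonoidAlgebra.induction_on with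
      | of g => exact hp g v hv
      | add a b ha hb => rw [add_smul]; exact p.add_mem ha hb
      | smul c a ha => rw [smul_assoc]; exact p.smul_mem c ha
    let q : Submodule R S :=
      { carrier := p
        add_mem' := fun ha hb => p.add_mem ha hb
        zero_mem' := p.zero_mem
        smul_mem' := fun r v hv => key r v hv }
    rcases eq_bot_or_eq_top q with h1 | h1
    · left
      ext v
      have : v ∈ q ↔ v ∈ (⊥ : Submodule R S) := by rw [h1]
      simpa [q] using this
    · right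
      ext v
      have : v ∈ q ↔ v ∈ (⊤ : Submodule R S) := by rw [h1]
      simpa [q] using this
  · intro g v
    rw [hρ, hρ]
    exact T.map_smul _ _

theorem split_rat : Split ℚ := by
  refine ⟨Unit, inferInstance, fun _ => 1, ⟨?_⟩⟩
  refine AlgEquiv.trans ?_ (AlgEquiv.symm (AlgEquiv.funUnique ℚ Unit _))
  refine AlgEquiv.ofBijective (Algebra.ofId ℚ (Matrix (Fin 1) (Fin 1) ℚ)) ⟨?_, ?_⟩
  · exact (algebraMap ℚ (Matrix (Fin 1) (Fin 1) ℚ)).injective
  · intro A
    refine ⟨A 0 0, ?_⟩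
    ext i j
    rw [Subsingleton.elim i 0, Subsingleton.elim j 0]
    show (algebraMap ℚ (Matrix (Fin 1) (Fin 1) ℚ) (A 0 0)) 0 0 = A 0 0
    rw [Matrix.algebraMap_matrix_apply]
    simp

theorem split_of_ES {G : Type} [Group G] [Finite G] (h : ES G) : Split (MonoidAlgebra ℚ G) := by
  have : NeZero (Nat.card G : ℚ) := ⟨by exact_mod_cast Nat.card_pos.ne'⟩
  have : IsSemisimpleRing (MonoidAlgebra ℚ G) := inferInstance
  obtain ⟨n, S, d, hS, hd, ⟨e⟩⟩ :=
    IsSemisimpleRing.exists_algEquiv_pi_matrix_end_mulOpposite ℚ (MonoidAlgebra ℚ G)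
  refine Split.of_equiv e ?_
  refine Split.pi fun i => ?_
  refine Split.matrix ?_
  have hi := hS i
  have hnt : Nontrivial (S i) := IsSimpleModule.nontrivial (MonoidAlgebra ℚ G) (S i)
  -- (End)ᵐᵒᵖ ≃ ℚ
  have hbij : Function.Bijective
      (algebraMap ℚ (Module.End (MonoidAlgebra ℚ G) (S i))ᵐᵒᵖ) := by
    constructor
    · exact (algebraMap ℚ (Module.End (MonoidAlgebra ℚ G) (S i))ᵐᵒᵖ).injective
    · intro T
      obtain ⟨c, hc⟩ := end_scalar h (S i) hi T.unop
      refine ⟨c, ?_⟩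
      apply MulOpposite.unop_injective
      ext v
      rw [hc v]
      rfl
  refine Split.of_equiv (AlgEquiv.symm (AlgEquiv.ofBijective (Algebra.ofId ℚ _) hbij)) ?_
  exact split_rat

end Pool.Agent.H708R3.SP
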