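import Mathlib
import Pool.Agent.H708R3.SP2

set_option autoImplicit false

namespace Pool.Agent.H708R3.SP

/-- common eigenvector for an elementary abelian 2-group -/
theorem exists_sign_vector {A M : Type} [CommGroup A] [Finite A] [AddCommGroup M] [Module ℚ M]
    (hA : ∀ a : A, a * a = 1) (ρ : A →* (M →ₗ[ℚ] M)) (hM : ∃ v : M, v ≠ 0) :
    ∃ v : M, v ≠ 0 ∧ ∀ a, ρ a v = v ∨ ρ a v = -v := by
  classical
  have := Fintype.ofFinite A
  -- choose v maximising the number of a with ρ a v = ± v
  let f : {v : M // v ≠ 0} → ℕ := fun v => (Finset.univ.filter fun a : A => ρ a v.1 = v.1 ∨ ρ a v.1 = -v.1).card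
  have hb : ∃ n, ∀ v, f v ≤ n := ⟨Fintype.card A, fun v => Finset.card_le_univ _⟩
  obtain ⟨v₁, hv₁⟩ := hM
  -- maximal value attained
  have hne : (Set.range f).Nonempty := ⟨_, ⟨⟨v₁, hv₁⟩, rfl⟩⟩
  obtain ⟨n, hn⟩ := hb
  have hfin : (Set.range f).Finite := by
    refine Set.Finite.subset (Set.finite_Iic n) ?_
    rintro _ ⟨v, rfl⟩
    exact hn v
  obtain ⟨m, ⟨v, rfl⟩, hmax⟩ := Set.exists_max_image (Set.range f) id hfin hne
  have hmax' : ∀ w, f w ≤ f v := fun w => hmax (f w) ⟨w, rfl⟩
  refine ⟨v.1, v.2, ?_⟩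
  by_contra hcon
  push Not at hcon
  obtain ⟨a, ha1, ha2⟩ := hcon
  have hne' : v.1 + ρ a v.1 ≠ 0 := by
    intro h0
    apply ha2
    rw [eq_neg_iff_add_eq_zero, add_comm]
    exact h0
  have hsub : (Finset.univ.filter fun b : A => ρ b v.1 = v.1 ∨ ρ b v.1 = -v.1) ⊂
      (Finset.univ.filter fun b : A => ρ b (v.1 + ρ a v.1) = (v.1 + ρ a v.1) ∨
        ρ b (v.1 + ρ a v.1) = -(v.1 + ρ a v.1)) := by
    rw [Finset.ssubset_iff_of_subset]
    · refine ⟨a, ?_, ?_⟩
      · rw [Finset.mem_filter]
        refine ⟨Finset.mem_univ _, Or.inl ?_⟩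
        have : ρ a (ρ a v.1) = v.1 := by
          rw [← Module.End.mul_apply, ← map_mul, hA a, map_one, Module.End.one_apply]
        rw [map_add, this, add_comm]
      · rw [Finset.mem_filter]
        rintro ⟨_, h | h⟩
        · exact ha1 h
        · exact ha2 h
    · intro b hb
      rw [Finset.mem_filter] at hb ⊢
      refine ⟨Finset.mem_univ _, ?_⟩
      have hcomm : ρ b (ρ a v.1) = ρ a (ρ b v.1) := by
        rw [← Module.End.mul_apply, ← Module.End.mul_apply, ← map_mul, ← map_mul, mul_comm]
      rcases hb.2 with h | h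
      · left; rw [map_add, hcomm, h]
      · right; rw [map_add, hcomm, h, map_neg, neg_add]
  have := Finset.card_lt_card hsub
  exact absurd (hmax' ⟨v.1 + ρ a v.1, hne'⟩) (not_le.mpr this)

theorem ES_of_exponent_two {A : Type} [CommGroup A] [Finite A] (hA : ∀ a : A, a * a = 1) : ES A := by
  intro M _ _ ρ hM hirr T hT
  obtain ⟨v, hv, hs⟩ := exists_sign_vector hA ρ hM
  have htop : Submodule.span ℚ {v} = ⊤ := by
    have hst : ∀ g, ∀ w ∈ Submodule.span ℚ {v}, ρ g w ∈ Submodule.span ℚ {v} := by
      intro g w hw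
      rw [Submodule.mem_span_singleton] at hw ⊢
      obtain ⟨c, rfl⟩ := hw
      rcases hs g with h | h
      · exact ⟨c, by rw [map_smul, h]⟩
      · exact ⟨-c, by rw [map_smul, h, neg_smul, smul_neg]⟩
    rcases hirr (Submodule.span ℚ {v}) hst with h | h
    · exact absurd ((Submodule.span_singleton_eq_bot).mp h) hv
    · exact h
  have hTv : T v ∈ Submodule.span ℚ {v} := by rw [htop]; trivial
  obtain ⟨c, hc⟩ := Submodule.mem_span_singleton.mp hTv
  refine ⟨c, fun w => ?_⟩
  have hw : w ∈ Submodule.span ℚ {v} := by rw [htop]; trivial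
  obtain ⟨d, rfl⟩ := Submodule.mem_span_singleton.mp hw
  rw [map_smul, ← hc, smul_comm]

/-- the stabiliser of a sign character -/
def stab {A K : Type} [CommGroup A] [Group K] (φ : K →* MulAut A) (l : A →* ℤˣ) : Subgroup K where
  carrier := {k | ∀ a, l (φ k a) = l a}
  one_mem' := by intro a; simp
  mul_mem' := by
    intro k k' hk hk' a
    rw [map_mul, MulAut.mul_apply, hk, hk']
  inv_mem' := by
    intro k hk a
    have := hk (φ k⁻¹ a)
    rw [← MulAut.mul_apply, ← map_mul, mul_inv_cancel, map_one, MulAut.one_apply] at this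
    exact this.symm

theorem mem_stab {A K : Type} [CommGroup A] [Group K] (φ : K →* MulAut A) (l : A →* ℤˣ) (k : K) :
    k ∈ stab φ l ↔ ∀ a, l (φ k a) = l a := Iff.rfl

/-- the scalar `±1` in `ℚ` -/
def sg (u : ℤˣ) : ℚ := ((u : ℤ) : ℚ)

theorem sg_mul (u v : ℤˣ) : sg (u * v) = sg u * sg v := by simp [sg]
theorem sg_one : sg 1 = 1 := by simp [sg]
theorem sg_neg_one : sg (-1) = -1 := by simp [sg]
theorem sg_sq (u : ℤˣ) : sg u * sg u = 1 := by
  rw [← sg_mul, Int.units_mul_self, sg_one]
theorem sg_inj {u v : ℤˣ} (h : sg u = sg v) : u = v := by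
  apply Units.ext
  have : ((u : ℤ) : ℚ) = ((v : ℤ) : ℚ) := h
  exact_mod_cast this

theorem ES_semidirect {A K : Type} [CommGroup A] [Finite A] [Group K] [Finite K]
    (φ : K →* MulAut A) (hA : ∀ a : A, a * a = 1)
    (h : ∀ l : A →* ℤˣ, ES (stab φ l)) : ES (A ⋊[φ] K) := by
  classical
  have := Fintype.ofFinite A
  intro M _ _ ρ hM hirr T hT
  obtain ⟨v₀, hv₀, hs⟩ := exists_sign_vector hA (ρ.comp SemidirectProduct.inl) hM
  simp only [MonoidHom.comp_apply] at hs
  have hneq : v₀ ≠ -v₀ := by
    intro h0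
    apply hv₀
    have : (2:ℚ) • v₀ = 0 := by rw [two_smul]; nth_rewrite 2 [h0]; simp
    rcases smul_eq_zero.mp this with h1 | h1
    · norm_num at h1
    · exact h1
  -- the character
  let l : A →* ℤˣ :=
    { toFun := fun a => if ρ (SemidirectProduct.inl a) v₀ = v₀ then 1 else -1
      map_one' := by simp
      map_mul' := by
        intro a b
        rcases hs a with ha | ha <;> rcases hs b with hb | hb
        · simp [ha, hb]
        · simp [ha, hb, hneq.symm]
        · simp [ha, hb, hneq.symm]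
        · simp [ha, hb, hneq.symm] }
  have hl : ∀ a, ρ (SemidirectProduct.inl a) v₀ = sg (l a) • v₀ := by
    intro a
    show _ = sg (if ρ (SemidirectProduct.inl a) v₀ = v₀ then 1 else -1) • v₀
    split_ifs with h1
    · rw [sg_one, one_smul]; exact h1
    · rw [sg_neg_one, neg_smul, one_smul]
      rcases hs a with h2 | h2
      · exact absurd h2 h1
      · exact h2
  -- eigenspace
  let W : Submodule ℚ M :=
    { carrier := {v | ∀ a, ρ (SemidirectProduct.inl a) v = sg (l a) • v}
      add_mem' := by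
        intro x y hx hy a
        rw [map_add, hx a, hy a, smul_add]
      zero_mem' := by intro a; simp
      smul_mem' := by
        intro c x hx a
        rw [map_smul, hx a, smul_comm] }
  have hW : ∀ v, v ∈ W ↔ ∀ a, ρ (SemidirectProduct.inl a) v = sg (l a) • v := fun v => Iff.rfl
  have hcomm : ∀ (k : K) (a : A) (v : M), ρ (SemidirectProduct.inl (φ k a)) (ρ (SemidirectProduct.inr k) v)
      = ρ (SemidirectProduct.inr k) (ρ (SemidirectProduct.inl a) v) := by
    intro k a v
    rw [← Module.End.mul_apply, ← Module.End.mul_apply, ← map_mul, ← map_mul]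
    congr 2
    rw [SemidirectProduct.inl_aut]
    simp
  have hstab : ∀ k ∈ stab φ l, ∀ v ∈ W, ρ (SemidirectProduct.inr k) v ∈ W := by
    intro k hk v hv a
    have h1 := hcomm k (φ k⁻¹ a) v
    rw [← MulAut.mul_apply, ← map_mul, mul_inv_cancel, map_one, MulAut.one_apply] at h1
    rw [h1, hv, map_smul]
    congr 2
    exact (stab φ l).inv_mem hk a
  -- the restricted representation
  let ρW : stab φ l →* (W →ₗ[ℚ] W) :=
    { toFun := fun k => (ρ (SemidirectProduct.inr k.1)).restrict (fun v hv => hstab k.1 k.2 v hv)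
      map_one' := by
        ext v
        simp [LinearMap.restrict_apply]
      map_mul' := by
        intro k k'
        ext v
        simp [LinearMap.restrict_apply] }
  have hρW : ∀ (k : stab φ l) (v : W), ((ρW k v : W) : M) = ρ (SemidirectProduct.inr k.1) v.1 :=
    fun k v => rfl
  -- projector
  let P : M →ₗ[ℚ] M := ((Fintype.card A : ℚ)⁻¹) • ∑ a : A, sg (l a) • ρ (SemidirectProduct.inl a)
  have hcard : (Fintype.card A : ℚ) ≠ 0 := by
    exact_mod_cast Fintype.card_ne_zero
  have hPW : ∀ v ∈ W, P v = v := by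
    intro v hv
    show (((Fintype.card A : ℚ)⁻¹) • ∑ a : A, sg (l a) • ρ (SemidirectProduct.inl a)) v = v
    rw [LinearMap.smul_apply, LinearMap.sum_apply]
    have : ∀ a ∈ (Finset.univ : Finset A), (sg (l a) • ρ (SemidirectProduct.inl a)) v = v := by
      intro a _
      rw [LinearMap.smul_apply, hv a, smul_smul, sg_sq, one_smul]
    rw [Finset.sum_congr rfl this, Finset.sum_const, Finset.card_univ, ← Nat.cast_smul_eq_nsmul ℚ,
      smul_smul, inv_mul_cancel₀ hcard, one_smul]
  have hPinl : ∀ (b : A) (v : M), P (ρ (SemidirectProduct.inl b) v) = sg (l b) • P v := by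
    intro b v
    show (((Fintype.card A : ℚ)⁻¹) • ∑ a : A, sg (l a) • ρ (SemidirectProduct.inl a)) _ =
      _ • (((Fintype.card A : ℚ)⁻¹) • ∑ a : A, sg (l a) • ρ (SemidirectProduct.inl a)) v
    rw [LinearMap.smul_apply, LinearMap.smul_apply, LinearMap.sum_apply, LinearMap.sum_apply,
      smul_comm (sg (l b)) ((Fintype.card A : ℚ)⁻¹), Finset.smul_sum (r := sg (l b))]
    congr 1
    refine Fintype.sum_equiv (Equiv.mulRight b) _ _ ?_
    intro a
    rw [LinearMap.smul_apply, LinearMap.smul_apply, Equiv.coe_mulRight, smul_smul, map_mul, map_mul,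
      map_mul, Module.End.mul_apply, sg_mul, mul_comm (sg (l a)), ← mul_assoc, sg_sq, one_mul]
  have hPinr : ∀ (k : K), k ∉ stab φ l → ∀ v ∈ W, P (ρ (SemidirectProduct.inr k) v) = 0 := by
    intro k hk v hv
    rw [mem_stab] at hk
    push Not at hk
    obtain ⟨b, hb⟩ := hk
    have h1 := hcomm k b v
    rw [hv b, map_smul] at h1
    have h2 := hPinl (φ k b) (ρ (SemidirectProduct.inr k) v)
    rw [h1, map_smul] at h2
    have h3 : (sg (l b) - sg (l (φ k b))) • P (ρ (SemidirectProduct.inr k) v) = 0 := by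
      rw [sub_smul, h2, sub_self]
    rcases smul_eq_zero.mp h3 with h4 | h4
    · exact absurd (sg_inj (sub_eq_zero.mp h4)).symm hb
    · exact h4
  have hTW : ∀ v ∈ W, T v ∈ W := by
    intro v hv a
    rw [← hT, hv a, map_smul]
  obtain ⟨c, hc⟩ := h l W ρW ⟨⟨v₀, hl⟩, fun h0 => hv₀ (congrArg Subtype.val h0)⟩ (by
    intro p hp
    by_cases hpb : p = ⊥
    · left; exact hpb
    right
    obtain ⟨n, hn, hn0⟩ := Submodule.exists_mem_ne_zero_of_ne_bot hpb
    -- the span of all translates of p
    let q : Submodule ℚ M := Submodule.span ℚ {w | ∃ (g : A ⋊[φ] K) (x : W), x ∈ p ∧ w = ρ g x.1}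
    have hst : ∀ g, ∀ v ∈ q, ρ g v ∈ q := by
      intro g v hv
      induction hv using Submodule.span_induction with
      | mem x hx =>
        obtain ⟨g', y, hy, rfl⟩ := hx
        exact Submodule.subset_span ⟨g * g', y, hy, by rw [map_mul, Module.End.mul_apply]⟩
      | zero => rw [map_zero]; exact q.zero_mem
      | add x y _ _ hx hy => rw [map_add]; exact q.add_mem hx hy
      | smul c x _ hx => rw [map_smul]; exact q.smul_mem c hx
    have hq : q = ⊤ := by
      rcases hirr q hst with h1 | h1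
      · exfalso
        apply hn0
        have : (n : M) ∈ q := Submodule.subset_span ⟨1, n, hn, by simp⟩
        rw [h1, Submodule.mem_bot] at this
        exact Subtype.ext this
      · exact h1
    -- P maps q into p
    have hPq : ∀ v ∈ q, P v ∈ p.map W.subtype := by
      intro v hv
      induction hv using Submodule.span_induction with
      | mem x hx =>
        obtain ⟨g, y, hy, rfl⟩ := hx
        have hg : g = SemidirectProduct.inl g.left * SemidirectProduct.inr g.right :=
          (SemidirectProduct.inl_left_mul_inr_right g).symm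
        rw [hg, map_mul, Module.End.mul_apply, hPinl]
        apply Submodule.smul_mem
        by_cases hk : g.right ∈ stab φ l
        · rw [hPW _ (hstab _ hk _ y.2)]
          exact ⟨ρW ⟨g.right, hk⟩ y, hp _ _ hy, rfl⟩
        · rw [hPinr _ hk _ y.2]
          exact Submodule.zero_mem _
      | zero => rw [map_zero]; exact Submodule.zero_mem _
      | add x y _ _ hx hy => rw [map_add]; exact Submodule.add_mem _ hx hy
      | smul c x _ hx => rw [map_smul]; exact Submodule.smul_mem _ c hx
    rw [eq_top_iff]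
    intro w _
    have h1 : P w.1 ∈ p.map W.subtype := hPq w.1 (by rw [hq]; trivial)
    rw [hPW _ w.2] at h1
    obtain ⟨y, hy, hy2⟩ := h1
    have : y = w := Subtype.ext hy2
    rwa [← this])
    (T.restrict hTW) (by
      intro g v
      apply Subtype.ext
      show T ((ρW g v : W) : M) = ρ (SemidirectProduct.inr g.1) (T v.1)
      rw [hρW]
      exact hT _ _)
  have hcv : T v₀ = c • v₀ := by
    have := congrArg Subtype.val (hc ⟨v₀, hl⟩)
    exact this
  refine ⟨c, ?_⟩
  let E : Submodule ℚ M := LinearMap.ker (T - c • LinearMap.id)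
  have hE : ∀ v, v ∈ E ↔ T v = c • v := by
    intro v
    rw [LinearMap.mem_ker, LinearMap.sub_apply, LinearMap.smul_apply, LinearMap.id_apply, sub_eq_zero]
  rcases hirr E (by
    intro g v hv
    rw [hE] at hv ⊢
    rw [hT, hv, map_smul]) with h1 | h1
  · exfalso
    apply hv₀
    have : v₀ ∈ E := (hE v₀).mpr hcv
    rw [h1] at this
    exact (Submodule.mem_bot ℚ).mp this
  · intro v
    rw [← hE, h1]
    trivial

end Pool.Agent.H708R3.SP
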