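import Mathlib

set_option autoImplicit false
set_option maxRecDepth 100000

namespace Pool.Agent.H708R3.SP

/-! ## The concrete groups -/

/-- Klein four group -/
@[ext] structure F where
  p : Bool
  q : Bool
deriving DecidableEq, Fintype

instance : CommGroup F where
  mul a b := ⟨xor a.p b.p, xor a.q b.q⟩
  one := ⟨false, false⟩
  inv a := a
  mul_assoc := by decide +kernel
  one_mul := by decide +kernel
  mul_one := by decide +kernel
  inv_mul_cancel := by decide +kernel
  mul_comm := by decide +kernel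

inductive C3 | z | o | t
deriving DecidableEq

instance : Fintype C3 := ⟨{.z, .o, .t}, by intro x; cases x <;> decide⟩

def C3.add : C3 → C3 → C3
  | .z, x => x
  | .o, .z => .o
  | .o, .o => .t
  | .o, .t => .z
  | .t, .z => .t
  | .t, .o => .z
  | .t, .t => .o

def C3.neg : C3 → C3
  | .z => .z
  | .o => .t
  | .t => .o

def C3.sgn : Bool → C3 → C3
  | false, x => x
  | true, x => x.neg

/-- the symmetric group `S₃ = C₃ ⋊ C₂` -/
@[ext] structure S3 where
  i : C3
  b : Bool
deriving DecidableEq, Fintype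

instance : Group S3 where
  mul a c := ⟨a.i.add (C3.sgn a.b c.i), xor a.b c.b⟩
  one := ⟨.z, false⟩
  inv a := ⟨(C3.sgn a.b a.i).neg, a.b⟩
  mul_assoc := by decide +kernel
  one_mul := by decide +kernel
  mul_one := by decide +kernel
  inv_mul_cancel := by decide +kernel

/-- `D₁₂ = C₂ × S₃` -/
@[ext] structure K12 where
  e : Bool
  g : S3
deriving DecidableEq, Fintype

instance : Group K12 where
  mul a c := ⟨xor a.e c.e, a.g * c.g⟩
  one := ⟨false, 1⟩
  inv a := ⟨a.e, a.g⁻¹⟩
  mul_assoc := by decide +kernel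
  one_mul := by decide +kernel
  mul_one := by decide +kernel
  inv_mul_cancel := by decide +kernel

/-- rotation of `F` -/
def rotF : C3 → F → F
  | .z, v => v
  | .o, v => ⟨v.q, xor v.p v.q⟩
  | .t, v => ⟨xor v.p v.q, v.p⟩

def refF : Bool → F → F
  | false, v => v
  | true, v => ⟨xor v.p v.q, v.q⟩

def aF (g : S3) (v : F) : F := rotF g.i (refF g.b v)

theorem aF_mul : ∀ (g : S3) (v w : F), aF g (v * w) = aF g v * aF g w := by decide +kernel
theorem aF_mul' : ∀ (g h : S3) (v : F), aF (g * h) v = aF g (aF h v) := by decide +kernel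
theorem aF_one : ∀ (v : F), aF 1 v = v := by decide +kernel
theorem aF_one' : ∀ (g : S3), aF g 1 = 1 := by decide +kernel

/-- the alternating form on `F` -/
def B (x u : F) : Bool := xor (x.p && u.q) (x.q && u.p)

theorem B_inv : ∀ (g : S3) (v w : F), B (aF g v) (aF g w) = B v w := by decide +kernel
theorem B_mul_left : ∀ (u v w : F), B (u * v) w = xor (B u w) (B v w) := by decide +kernel
theorem B_mul_right : ∀ (u v w : F), B u (v * w) = xor (B u v) (B u w) := by decide +kernel
theorem B_one : ∀ (u : F), B u 1 = false := by decide +kernel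

/-- multiplication of `F` by a bit -/
def fe (e : Bool) (x : F) : F := ⟨e && x.p, e && x.q⟩

theorem fe_mul : ∀ (e : Bool) (x y : F), fe e (x * y) = fe e x * fe e y := by decide +kernel
theorem fe_xor : ∀ (e f : Bool) (x : F), fe (xor e f) x = fe e x * fe f x := by decide +kernel
theorem fe_aF : ∀ (e : Bool) (g : S3) (x : F), fe e (aF g x) = aF g (fe e x) := by decide +kernel
theorem fe_false : ∀ (x : F), fe false x = 1 := by decide +kernel
theorem fe_true : ∀ (x : F), fe true x = x := by decide +kernel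
theorem fe_one : ∀ (e : Bool), fe e 1 = 1 := by decide +kernel

/-- the quaternion group -/
@[ext] structure Q8 where
  s : Bool
  u : F
deriving DecidableEq, Fintype

def cc (u v : F) : Bool := xor (u.q && v.p) (xor (u.p && v.p) (u.q && v.q))

instance : Group Q8 where
  mul a b := ⟨xor a.s (xor b.s (cc a.u b.u)), a.u * b.u⟩
  one := ⟨false, 1⟩
  inv a := ⟨xor a.s (cc a.u a.u), a.u⟩
  mul_assoc := by decide +kernel
  one_mul := by decide +kernel
  mul_one := by decide +kernel
  inv_mul_cancel := by decide +kernel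

/-- the action of `S₃` on `Q₈` -/
def aQ (g : S3) (y : Q8) : Q8 := ⟨xor y.s (g.b && (y.u.p || y.u.q)), aF g y.u⟩

theorem aQ_mul : ∀ (g : S3) (v w : Q8), aQ g (v * w) = aQ g v * aQ g w := by decide +kernel
theorem aQ_mul' : ∀ (g h : S3) (v : Q8), aQ (g * h) v = aQ g (aQ h v) := by decide +kernel
theorem aQ_one : ∀ (v : Q8), aQ 1 v = v := by decide +kernel

/-- the inner automorphisms -/
def iQ (x : F) (y : Q8) : Q8 := ⟨xor y.s (B x y.u), y.u⟩

theorem iQ_mul : ∀ (x : F) (v w : Q8), iQ x (v * w) = iQ x v * iQ x w := by decide +kernel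
theorem iQ_mul' : ∀ (x y : F) (v : Q8), iQ (x * y) v = iQ x (iQ y v) := by decide +kernel
theorem iQ_one : ∀ (v : Q8), iQ 1 v = v := by decide +kernel
theorem iQ_aQ : ∀ (g : S3) (x : F) (v : Q8), aQ g (iQ x v) = iQ (aF g x) (aQ g v) := by
  decide +kernel

/-- `(e,g)` acts on `(w,x)` by `(g w + e g x, g x)` -/
def bet (k : K12) (w : F × F) : F × F := (aF k.g w.1 * fe k.e (aF k.g w.2), aF k.g w.2)

theorem bet_mul (k : K12) (v w : F × F) : bet k (v * w) = bet k v * bet k w := by
  obtain ⟨v1, v2⟩ := v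
  obtain ⟨w1, w2⟩ := w
  simp only [bet, Prod.mk_mul_mk, aF_mul, fe_mul, Prod.mk.injEq, and_true]
  exact mul_mul_mul_comm _ _ _ _

theorem bet_mul' (k l : K12) (v : F × F) : bet (k * l) v = bet k (bet l v) := by
  obtain ⟨v1, v2⟩ := v
  obtain ⟨e, g⟩ := k
  obtain ⟨f, h⟩ := l
  show (aF (g * h) v1 * fe (xor e f) (aF (g * h) v2), aF (g * h) v2) =
    (aF g (aF h v1 * fe f (aF h v2)) * fe e (aF g (aF h v2)), aF g (aF h v2))
  rw [aF_mul', aF_mul', fe_xor, aF_mul, fe_aF f, mul_assoc, mul_comm (fe e _)]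

theorem bet_one (v : F × F) : bet 1 v = v := by
  obtain ⟨v1, v2⟩ := v
  show (aF 1 v1 * fe false (aF 1 v2), aF 1 v2) = (v1, v2)
  rw [aF_one, aF_one, fe_false, mul_one]

/-- an action by automorphisms, from explicit functions -/
def mkAct {K N : Type} [Group K] [Group N] (f : K → N → N) (h1 : ∀ n, f 1 n = n)
    (h2 : ∀ k l n, f (k * l) n = f k (f l n)) (h3 : ∀ k m n, f k (m * n) = f k m * f k n) :
    K →* MulAut N where
  toFun k :=
    { toFun := f k
      invFun := f k⁻¹
      left_inv := by intro n; rw [← h2, inv_mul_cancel, h1]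
      right_inv := by intro n; rw [← h2, mul_inv_cancel, h1]
      map_mul' := h3 k }
  map_one' := by ext n; exact h1 n
  map_mul' := by intro k l; ext n; exact h2 k l n

@[simp] theorem mkAct_apply {K N : Type} [Group K] [Group N] (f : K → N → N) (h1 : ∀ n, f 1 n = n)
    (h2 : ∀ k l n, f (k * l) n = f k (f l n)) (h3 : ∀ k m n, f k (m * n) = f k m * f k n)
    (k : K) (n : N) : mkAct f h1 h2 h3 k n = f k n := rfl

def betH : K12 →* MulAut (F × F) := mkAct bet bet_one bet_mul' bet_mul

/-- the group `H₂` of order 192 -/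
abbrev H2 : Type := (F × F) ⋊[betH] K12

/-- the action of `H₂` on `Q₈` -/
def alp (h : H2) (y : Q8) : Q8 := iQ h.left.2 (aQ h.right.g y)

theorem alp_mul (h : H2) (v w : Q8) : alp h (v * w) = alp h v * alp h w := by
  simp only [alp, aQ_mul, iQ_mul]

theorem alp_mul' (h k : H2) (v : Q8) : alp (h * k) v = alp h (alp k v) := by
  simp only [alp, SemidirectProduct.mul_left, SemidirectProduct.mul_right]
  show iQ (h.left.2 * aF h.right.g k.left.2) (aQ (h.right.g * k.right.g) v) = _
  rw [iQ_mul', aQ_mul', iQ_aQ]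

theorem alp_one (v : Q8) : alp 1 v = v := by
  show iQ 1 (aQ 1 v) = v
  rw [aQ_one, iQ_one]

def alpH : H2 →* MulAut Q8 := mkAct alp alp_one alp_mul' alp_mul

/-- the group `G` of order 1536 -/
abbrev GG : Type := Q8 ⋊[alpH] H2

/-- `(e,g)` acts on `(w,x₁,x₂)` by `(g w + e g x₁, g x₁, g x₂)` -/
def gam (k : K12) (w : F × F × F) : F × F × F :=
  (aF k.g w.1 * fe k.e (aF k.g w.2.1), aF k.g w.2.1, aF k.g w.2.2)

theorem gam_mul (k : K12) (v w : F × F × F) : gam k (v * w) = gam k v * gam k w := by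
  obtain ⟨v1, v2, v3⟩ := v
  obtain ⟨w1, w2, w3⟩ := w
  simp only [gam, Prod.mk_mul_mk, aF_mul, fe_mul, Prod.mk.injEq, and_true]
  exact mul_mul_mul_comm _ _ _ _

theorem gam_mul' (k l : K12) (v : F × F × F) : gam (k * l) v = gam k (gam l v) := by
  obtain ⟨v1, v2, v3⟩ := v
  obtain ⟨e, g⟩ := k
  obtain ⟨f, h⟩ := l
  show (aF (g * h) v1 * fe (xor e f) (aF (g * h) v2), aF (g * h) v2, aF (g * h) v3) =
    (aF g (aF h v1 * fe f (aF h v2)) * fe e (aF g (aF h v2)), aF g (aF h v2), aF g (aF h v3))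
  rw [aF_mul', aF_mul', aF_mul', fe_xor, aF_mul, fe_aF f, mul_assoc, mul_comm (fe e _)]

theorem gam_one (v : F × F × F) : gam 1 v = v := by
  obtain ⟨v1, v2, v3⟩ := v
  show (aF 1 v1 * fe false (aF 1 v2), aF 1 v2, aF 1 v3) = (v1, v2, v3)
  rw [aF_one, aF_one, aF_one, fe_false, mul_one]

def gamH : K12 →* MulAut (F × F × F) := mkAct gam gam_one gam_mul' gam_mul

/-- the group `H₁` of order 768 -/
abbrev H1 : Type := (F × F × F) ⋊[gamH] K12

end Pool.Agent.H708R3.SP
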