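import Mathlib
import Pool.Agent.H708R3.SP3
import Pool.Agent.H708R3.SP4

set_option autoImplicit false
set_option maxRecDepth 100000

namespace Pool.Agent.H708R3.SP

theorem ES.of_equiv {G H : Type} [Group G] [Group H] (e : G ≃* H) (h : ES H) : ES G := by
  intro M _ _ ρ hM hirr T hT
  refine h M (ρ.comp e.symm.toMonoidHom) hM ?_ T ?_
  · intro p hp
    refine hirr p ?_
    intro g v hv
    have := hp (e g) v hv
    simpa using this
  · intro g v
    exact hT _ _

theorem ES_of_exponent_two' {A : Type} [Group A] [Finite A] (hA : ∀ a : A, a * a = 1) : ES A := by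
  have hinv : ∀ a : A, a⁻¹ = a := fun a => inv_eq_of_mul_eq_one_left (hA a)
  have hc : ∀ a b : A, a * b = b * a := by
    intro a b
    calc a * b = (a * b)⁻¹ := (hinv _).symm
      _ = b⁻¹ * a⁻¹ := mul_inv_rev a b
      _ = b * a := by rw [hinv, hinv]
  let inst : CommGroup A := { (inferInstance : Group A) with mul_comm := hc }
  exact @ES_of_exponent_two A inst _ hA

/-- the generators of `K12` -/
def kc : K12 := ⟨true, 1⟩
def ks : K12 := ⟨false, ⟨.o, false⟩⟩
def kt : K12 := ⟨false, ⟨.z, true⟩⟩

theorem K12_gen : ∀ k : K12, ∃ a b : Bool, ∃ i : C3,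
    k = (match a with | true => kc | false => 1) *
      ((match i with | .z => 1 | .o => ks | .t => ks * ks) * (match b with | true => kt | false => 1)) := by
  decide +kernel

theorem K12_rel : kc * kc = 1 ∧ ks * (ks * ks) = 1 ∧ kt * kt = 1 ∧ kt * ks = (ks * ks) * kt ∧
    kc * ks = ks * kc ∧ kc * kt = kt * kc := by decide +kernel

theorem ES_K12 : ES K12 := by
  intro M _ _ ρ hM hirr T hT
  obtain ⟨r1, r2, r3, r4, r5, r6⟩ := K12_rel
  have two_ne : ∀ v : M, v = -v → v = 0 := by
    intro v hv
    have : (2:ℚ) • v = 0 := by rw [two_smul]; nth_rewrite 2 [hv]; simp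
    rcases smul_eq_zero.mp this with h1 | h1
    · norm_num at h1
    · exact h1
  have mulv : ∀ (a b : K12) (v : M), ρ (a * b) v = ρ a (ρ b v) := by
    intro a b v; rw [map_mul, Module.End.mul_apply]
  -- stable under generators
  have hst : ∀ p : Submodule ℚ M, (∀ v ∈ p, ρ kc v ∈ p) → (∀ v ∈ p, ρ ks v ∈ p) →
      (∀ v ∈ p, ρ kt v ∈ p) → ∀ g, ∀ v ∈ p, ρ g v ∈ p := by
    intro p h1 h2 h3 g v hv
    obtain ⟨a, b, i, rfl⟩ := K12_gen g
    have hb : ρ (match b with | true => kt | false => 1) v ∈ p := by
      cases b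
      · simpa using hv
      · exact h3 v hv
    rw [mulv, mulv]
    have hi : ∀ w ∈ p, ρ (match i with | .z => 1 | .o => ks | .t => ks * ks) w ∈ p := by
      intro w hw
      cases i
      · simpa using hw
      · exact h2 w hw
      · show ρ (ks * ks) w ∈ p
        rw [mulv]; exact h2 _ (h2 _ hw)
    have ha : ∀ w ∈ p, ρ (match a with | true => kc | false => 1) w ∈ p := by
      intro w hw
      cases a
      · simpa using hw
      · exact h1 w hw
    exact ha _ (hi _ hb)
  -- c acts as ±1
  have hcsign : (∀ v, ρ kc v = v) ∨ (∀ v, ρ kc v = -v) := by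
    by_cases hall : ∀ v, v + ρ kc v = 0
    · right
      intro v
      exact (eq_neg_of_add_eq_zero_right (hall v))
    · left
      push Not at hall
      obtain ⟨v, hv⟩ := hall
      let E : Submodule ℚ M := LinearMap.ker (ρ kc - LinearMap.id)
      have hE : ∀ v, v ∈ E ↔ ρ kc v = v := by
        intro v
        rw [LinearMap.mem_ker, LinearMap.sub_apply, LinearMap.id_apply, sub_eq_zero]
      have g1 : ∀ v ∈ E, ρ kc v ∈ E := by
        intro v hv
        rw [hE] at hv ⊢
        rw [hv, hv]
      have g2 : ∀ v ∈ E, ρ ks v ∈ E := by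
        intro v hv
        rw [hE] at hv ⊢
        rw [← mulv, r5, mulv, hv]
      have g3 : ∀ v ∈ E, ρ kt v ∈ E := by
        intro v hv
        rw [hE] at hv ⊢
        rw [← mulv, r6, mulv, hv]
      rcases hirr E (hst E g1 g2 g3) with h1 | h1
      · exfalso
        apply hv
        have : v + ρ kc v ∈ E := by
          rw [hE, map_add, ← mulv, r1, map_one, Module.End.one_apply, add_comm]
        rw [h1] at this
        exact (Submodule.mem_bot ℚ).mp this
      · intro v
        rw [← hE, h1]
        trivial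
  have hcst : ∀ p : Submodule ℚ M, ∀ v ∈ p, ρ kc v ∈ p := by
    intro p v hv
    rcases hcsign with h | h
    · rw [h]; exact hv
    · rw [h]; exact p.neg_mem hv
  -- vector with τ v = ± v
  have hv : ∃ v : M, v ≠ 0 ∧ ∃ ε : ℚ, (ε = 1 ∨ ε = -1) ∧ ρ kt v = ε • v := by
    obtain ⟨u, hu⟩ := hM
    by_cases h0 : u + ρ kt u = 0
    · exact ⟨u, hu, -1, Or.inr rfl, by rw [neg_smul, one_smul]; exact eq_neg_of_add_eq_zero_right h0⟩
    · refine ⟨u + ρ kt u, h0, 1, Or.inl rfl, ?_⟩
      rw [map_add, ← mulv, r3, map_one, Module.End.one_apply, add_comm, one_smul]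
  obtain ⟨v, hv0, ε, hε, hτ⟩ := hv
  set v1 := ρ ks v with hv1
  set v2 := ρ ks v1 with hv2
  have hs2 : ρ ks v2 = v := by
    rw [hv2, hv1, ← mulv, ← mulv, mul_assoc, r2, map_one, Module.End.one_apply]
  have ht1 : ρ kt v1 = ε • v2 := by
    rw [hv1, ← mulv, r4, mulv, hτ, map_smul, mulv, hv2, hv1]
  have ht2 : ρ kt v2 = ε • v1 := by
    rw [hv2, ← mulv, r4, mulv, ht1, map_smul, mulv, hs2]
  by_cases hn : v + v1 + v2 = 0
  · -- two-dimensional case
    have hv2' : v2 = -v - v1 := by
      rw [eq_sub_iff_add_eq, eq_neg_iff_add_eq_zero]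
      rw [← hn]; abel
    have g2 : ∀ w ∈ Submodule.span ℚ ({v, v1} : Set M), ρ ks w ∈ Submodule.span ℚ ({v, v1} : Set M) := by
      intro w hw
      rw [Submodule.mem_span_pair] at hw ⊢
      obtain ⟨a, b, rfl⟩ := hw
      refine ⟨-b, a - b, ?_⟩
      rw [map_add, map_smul, map_smul, ← hv1, ← hv2, hv2']
      module
    have g3 : ∀ w ∈ Submodule.span ℚ ({v, v1} : Set M), ρ kt w ∈ Submodule.span ℚ ({v, v1} : Set M) := by
      intro w hw
      rw [Submodule.mem_span_pair] at hw ⊢
      obtain ⟨a, b, rfl⟩ := hw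
      refine ⟨ε * (a - b), -ε * b, ?_⟩
      rw [map_add, map_smul, map_smul, hτ, ht1, hv2']
      module
    have htop : Submodule.span ℚ {v, v1} = ⊤ := by
      rcases hirr _ (hst (Submodule.span ℚ {v, v1}) (hcst _) g2 g3) with h | h
      · exfalso
        apply hv0
        have : v ∈ Submodule.span ℚ ({v, v1} : Set M) := Submodule.subset_span (by simp)
        rw [h] at this
        exact (Submodule.mem_bot ℚ).mp this
      · exact h
    have hTv : T v ∈ Submodule.span ℚ {v, v1} := by rw [htop]; trivial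
    obtain ⟨a, b, hab⟩ := Submodule.mem_span_pair.mp hTv
    have hTv1 : T v1 = a • v1 + b • v2 := by
      rw [hv1, hT, ← hab, map_add, map_smul, map_smul]
    -- apply τ
    have h1 : ρ kt (T v) = ε • T v := by rw [← hT, hτ, map_smul]
    rw [← hab, map_add, map_smul, map_smul, hτ, ht1, hv2'] at h1
    have hεε : ε * ε = 1 := by rcases hε with h | h <;> rw [h] <;> norm_num
    have h2 : b • (v + (2:ℚ) • v1) = 0 := by
      have h3 : ε • (a • ε • v + b • ε • (-v - v1)) = ε • (ε • (a • v + b • v1)) := by rw [h1]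
      have h4 : ε • (a • ε • v + b • ε • (-v - v1)) = (ε * ε) • (a • v + b • (-v - v1)) := by module
      have h5 : ε • (ε • (a • v + b • v1)) = (ε * ε) • (a • v + b • v1) := by module
      rw [h4, h5, hεε, one_smul, one_smul] at h3
      have h6 : b • (v + (2:ℚ) • v1) = (a • v + b • v1) - (a • v + b • (-v - v1)) := by module
      rw [h6, h3, sub_self]
    rcases smul_eq_zero.mp h2 with hb | hb
    · -- b = 0
      refine ⟨a, fun w => ?_⟩
      have hw : w ∈ Submodule.span ℚ {v, v1} := by rw [htop]; trivial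
      obtain ⟨x, y, rfl⟩ := Submodule.mem_span_pair.mp hw
      rw [map_add, map_smul, map_smul, ← hab, hTv1, hb]
      module
    · -- v = -2 v1
      exfalso
      apply hv0
      have h7 : v = -((2:ℚ) • v1) := eq_neg_of_add_eq_zero_left hb
      have h8 : ρ ks (v + (2:ℚ) • v1) = 0 := by rw [hb, map_zero]
      rw [map_add, map_smul, ← hv1, ← hv2, hv2'] at h8
      -- v1 + 2(-v - v1) = 0  → -2v - v1 = 0
      have h9 : (-3:ℚ) • v = (2:ℚ) • (v1 + (2:ℚ) • (-v - v1)) + (v + (2:ℚ) • v1) := by module
      rw [h8, hb, smul_zero, add_zero] at h9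
      rcases smul_eq_zero.mp h9 with h10 | h10
      · norm_num at h10
      · exact h10
  · -- one-dimensional case
    set n := v + v1 + v2 with hndef
    have hsn : ρ ks n = n := by
      rw [hndef, map_add, map_add, ← hv1, ← hv2, hs2]; abel
    have htn : ρ kt n = ε • n := by
      rw [hndef, map_add, map_add, hτ, ht1, ht2]; module
    have g2 : ∀ w ∈ Submodule.span ℚ ({n} : Set M), ρ ks w ∈ Submodule.span ℚ ({n} : Set M) := by
      intro w hw
      rw [Submodule.mem_span_singleton] at hw ⊢
      obtain ⟨c, rfl⟩ := hw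
      exact ⟨c, by rw [map_smul, hsn]⟩
    have g3 : ∀ w ∈ Submodule.span ℚ ({n} : Set M), ρ kt w ∈ Submodule.span ℚ ({n} : Set M) := by
      intro w hw
      rw [Submodule.mem_span_singleton] at hw ⊢
      obtain ⟨c, rfl⟩ := hw
      exact ⟨ε * c, by rw [map_smul, htn]; module⟩
    have htop : Submodule.span ℚ {n} = ⊤ := by
      rcases hirr _ (hst (Submodule.span ℚ {n}) (hcst _) g2 g3) with h | h
      · exact absurd ((Submodule.span_singleton_eq_bot).mp h) hn
      · exact h
    have hTn : T n ∈ Submodule.span ℚ {n} := by rw [htop]; trivial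
    obtain ⟨c, hc⟩ := Submodule.mem_span_singleton.mp hTn
    refine ⟨c, fun w => ?_⟩
    have hw : w ∈ Submodule.span ℚ {n} := by rw [htop]; trivial
    obtain ⟨d, rfl⟩ := Submodule.mem_span_singleton.mp hw
    rw [map_smul, ← hc, smul_comm]

theorem gam_rot (a : F × F × F) : a * (gam ks a * gam (ks * ks) a) = 1 := by
  revert a
  decide +kernel

theorem K12_order : ∀ k : K12, k * k = 1 ∨ k = ks ∨ k = ks * ks ∨ k * k = ks ∨ k * k = ks * ks := by
  decide +kernel

theorem gam_sq : ∀ a : F × F × F, a * a = 1 := by decide +kernel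

instance : Finite H1 := Finite.of_equiv _ (SemidirectProduct.equivProd (φ := gamH)).symm
instance : Finite H2 := Finite.of_equiv _ (SemidirectProduct.equivProd (φ := betH)).symm
instance : Finite GG := Finite.of_equiv _ (SemidirectProduct.equivProd (φ := alpH)).symm

theorem ES_H1 : ES H1 := by
  refine ES_semidirect gamH gam_sq ?_
  intro l
  by_cases hs : ks ∈ stab gamH l
  · -- l is trivial
    have hl : ∀ a, l a = 1 := by
      intro a
      have h1 : l (gam ks a) = l a := hs a
      have h2 : l (gam (ks * ks) a) = l a := (stab gamH l).mul_mem hs hs a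
      have h3 := congrArg l (gam_rot a)
      rw [map_mul, map_mul, h1, h2, map_one, Int.units_mul_self, mul_one] at h3
      exact h3
    have htop : stab gamH l = ⊤ := by
      rw [eq_top_iff]
      intro k _ a
      rw [hl, hl]
    rw [htop]
    exact ES.of_equiv Subgroup.topEquiv ES_K12
  · refine ES_of_exponent_two' ?_
    rintro ⟨k, hk⟩
    apply Subtype.ext
    show k * k = 1
    rcases K12_order k with h | h | h | h | h
    · exact h
    · rw [h] at hk; exact absurd hk hs
    · exfalso
      apply hs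
      have : ks = (ks * ks) * (ks * ks) := by decide +kernel
      rw [this, ← h]
      exact (stab gamH l).mul_mem hk hk
    · exfalso
      apply hs
      rw [← h]
      exact (stab gamH l).mul_mem hk hk
    · exfalso
      apply hs
      have : ks = (ks * ks) * (ks * ks) := by decide +kernel
      rw [this, ← h]
      exact (stab gamH l).mul_mem ((stab gamH l).mul_mem hk hk) ((stab gamH l).mul_mem hk hk)

theorem split_H1 : Split (MonoidAlgebra ℚ H1) := split_of_ES ES_H1

instance : Finite K12 := inferInstance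

theorem split_K12 : Split (MonoidAlgebra ℚ K12) := split_of_ES ES_K12

theorem card_K12 : Nat.card K12 = 12 := by
  rw [Nat.card_eq_fintype_card]; decide +kernel

theorem card_F : Nat.card F = 4 := by
  rw [Nat.card_eq_fintype_card]; decide +kernel

theorem card_Q8 : Nat.card Q8 = 8 := by
  rw [Nat.card_eq_fintype_card]; decide +kernel

theorem card_H1 : Nat.card H1 = 768 := by
  rw [SemidirectProduct.card, Nat.card_prod, Nat.card_prod, card_F, card_K12]

theorem card_H2 : Nat.card H2 = 192 := by
  rw [SemidirectProduct.card, Nat.card_prod, card_F, card_K12]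

theorem card_GG : Nat.card GG = 1536 := by
  rw [SemidirectProduct.card, card_H2, card_Q8]

end Pool.Agent.H708R3.SP
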