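import Mathlib
import Pool.Agent.H708R3.SP1

set_option autoImplicit false
set_option maxRecDepth 100000

namespace Pool.Agent.H708R3.SP

theorem finrank_monoidAlgebra (G : Type) [Group G] [Finite G] :
    Module.finrank ℚ (MonoidAlgebra ℚ G) = Nat.card G := by
  have := Fintype.ofFinite G
  rw [(MonoidAlgebra.coeffLinearEquiv (S := ℚ) (M := G) ℚ).finrank_eq, Module.finrank_finsupp_self,
    Nat.card_eq_fintype_card]

instance finite_monoidAlgebra (G : Type) [Group G] [Finite G] :
    Module.Finite ℚ (MonoidAlgebra ℚ G) :=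
  Module.Finite.equiv (MonoidAlgebra.coeffLinearEquiv (S := ℚ) (M := G) ℚ).symm

theorem split_of_functional {G : Type} [Group G] [Finite G] {B : Type} [Ring B] [Algebra ℚ B]
    [Module.Finite ℚ B] (hB : Split B) (hd : Module.finrank ℚ B = Nat.card G) (f : G →* B)
    (φ : B →ₗ[ℚ] ℚ) (h1 : φ (f 1) = 1) (h : ∀ g, g ≠ 1 → φ (f g) = 0) :
    Split (MonoidAlgebra ℚ G) := by
  classical
  let Φ := MonoidAlgebra.lift ℚ B G f
  have hΦ : ∀ g, Φ (MonoidAlgebra.single g 1) = f g := by
    intro g
    show MonoidAlgebra.lift ℚ B G f (MonoidAlgebra.single g 1) = f g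
    rw [MonoidAlgebra.lift_single, one_smul]
  have key : ∀ y : MonoidAlgebra ℚ G, φ (Φ y) = y.coeff 1 := by
    intro y
    induction y using MonoidAlgebra.induction_on with
    | of g =>
      have : (MonoidAlgebra.of ℚ G g) = MonoidAlgebra.single g 1 := rfl
      rw [this, hΦ, MonoidAlgebra.coeff_single]
      by_cases hg : g = 1
      · subst hg
        rw [h1]; simp
      · rw [h g hg, Finsupp.single_apply, if_neg hg]
    | add a b ha hb => rw [map_add, map_add, ha, hb, MonoidAlgebra.coeff_add]; rfl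
    | smul c a ha => rw [map_smul, map_smul, ha]; rfl
  have hinj : Function.Injective Φ := by
    rw [injective_iff_map_eq_zero]
    intro x hx
    ext g
    have h2 := key (MonoidAlgebra.single g⁻¹ 1 * x)
    rw [map_mul, hx, mul_zero, map_zero] at h2
    have h3 := MonoidAlgebra.coeff_single_mul_mul x 1 g⁻¹ g
    rw [inv_mul_cancel, one_mul] at h3
    rw [← h3, ← h2]
    rfl
  have hbij : Function.Bijective Φ := by
    refine ⟨hinj, ?_⟩
    have h4 := (LinearMap.injective_iff_surjective_of_finrank_eq_finrank (K := ℚ)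
      (V := MonoidAlgebra ℚ G) (V₂ := B) (f := Φ.toLinearMap)
      (by rw [finrank_monoidAlgebra, hd])).mp hinj
    exact h4
  exact Split.of_equiv (AlgEquiv.ofBijective Φ hbij) hB

/-- monomial representations -/
def monoRep {G Ω R : Type} [Group G] [Fintype Ω] [DecidableEq Ω] [Ring R] (p : G → Ω → Ω)
    (s : G → Ω → R) (hp1 : ∀ ω, p 1 ω = ω) (hs1 : ∀ ω, s 1 ω = 1)
    (hp : ∀ g h ω, p (g * h) ω = p g (p h ω))
    (hs : ∀ g h ω, s (g * h) ω = s g (p h ω) * s h ω) : G →* Matrix Ω Ω R where
  toFun g := Matrix.of fun a b => if a = p g b then s g b else 0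
  map_one' := by
    ext a b
    simp only [Matrix.of_apply, hp1, hs1, Matrix.one_apply]
  map_mul' := by
    intro g h
    ext a c
    rw [Matrix.mul_apply]
    simp only [Matrix.of_apply]
    rw [Finset.sum_eq_single (p h c)]
    · rw [if_pos rfl, hp]
      split_ifs with h1
      · exact hs g h c
      · rw [zero_mul]
    · intro b _ hb
      rw [if_neg hb, mul_zero]
    · intro h1
      exact absurd (Finset.mem_univ _) h1

theorem monoRep_diag {G Ω R : Type} [Group G] [Fintype Ω] [DecidableEq Ω] [Ring R] (p : G → Ω → Ω)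
    (s : G → Ω → R) (hp1 : ∀ ω, p 1 ω = ω) (hs1 : ∀ ω, s 1 ω = 1)
    (hp : ∀ g h ω, p (g * h) ω = p g (p h ω))
    (hs : ∀ g h ω, s (g * h) ω = s g (p h ω) * s h ω) (g : G) (ω : Ω) :
    monoRep p s hp1 hs1 hp hs g ω ω = if ω = p g ω then s g ω else 0 := rfl

end Pool.Agent.H708R3.SP
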