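import Mathlib
import Pool.Agent.H708R3.SP5
import Pool.Agent.H708R3.SP6

set_option autoImplicit false
set_option maxRecDepth 100000

namespace Pool.Agent.H708R3.SP

/-! ## Homomorphisms from `GG` -/

theorem alp_u (h : H2) (y : Q8) : (alp h y).u = aF h.right.g y.u := rfl

theorem GG_mul_left (g k : GG) : (g * k).left = g.left * alp g.right k.left := rfl
theorem GG_mul_right (g k : GG) : (g * k).right = g.right * k.right := rfl
theorem H2_mul_left (g k : H2) : (g * k).left = g.left * bet g.right k.left := rfl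
theorem H2_mul_right (g k : H2) : (g * k).right = g.right * k.right := rfl
theorem H1_mul_left (g k : H1) : (g * k).left = g.left * gam g.right k.left := rfl
theorem H1_mul_right (g k : H1) : (g * k).right = g.right * k.right := rfl
theorem Q8_mul_u (a b : Q8) : (a * b).u = a.u * b.u := rfl

def pi1 : GG →* H1 where
  toFun g := ⟨(g.right.left.1, g.right.left.2, g.left.u * g.right.left.2), g.right.right⟩
  map_one' := rfl
  map_mul' g k := by
    obtain ⟨d, ⟨⟨w, x⟩, r⟩⟩ := g
    obtain ⟨d', ⟨⟨w', x'⟩, r'⟩⟩ := k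
    apply SemidirectProduct.ext
    · show (w * (aF r.g w' * fe r.e (aF r.g x')), x * aF r.g x', (d.u * aF r.g d'.u) * (x * aF r.g x'))
        = (w * (aF r.g w' * fe r.e (aF r.g x')), x * aF r.g x', (d.u * x) * aF r.g (d'.u * x'))
      rw [aF_mul, mul_mul_mul_comm]
    · rfl

def kap : GG →* K12 := SemidirectProduct.rightHom.comp SemidirectProduct.rightHom

theorem kap_apply (g : GG) : kap g = g.right.right := rfl

/-- the action of `GG` on `Q8` -/
def act4 (g : GG) (y : Q8) : Q8 := alp g.right y * g.left⁻¹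

theorem act4_mul (g k : GG) (y : Q8) : act4 (g * k) y = act4 g (act4 k y) := by
  unfold act4
  rw [GG_mul_left, GG_mul_right, alp_mul', mul_inv_rev, alp_mul]
  have : alp g.right k.left⁻¹ = (alp g.right k.left)⁻¹ := map_inv (alpH g.right) k.left
  rw [this, mul_assoc]

theorem act4_one (y : Q8) : act4 1 y = y := by
  show alp 1 y * 1⁻¹ = y
  rw [alp_one, inv_one, mul_one]

/-- multiplication by a sign in `Q8` -/
def neg8 (s : Bool) (y : Q8) : Q8 := ⟨xor s y.s, y.u⟩

theorem neg8_mul : ∀ (s : Bool) (a b : Q8), neg8 s a * b = neg8 s (a * b) := by decide +kernel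
theorem neg8_aQ : ∀ (s : Bool) (g : S3) (a : Q8), aQ g (neg8 s a) = neg8 s (aQ g a) := by decide +kernel
theorem neg8_iQ : ∀ (s : Bool) (g : F) (a : Q8), iQ g (neg8 s a) = neg8 s (iQ g a) := by decide +kernel

theorem act4_neg8 (s : Bool) (g : GG) (y : Q8) : act4 g (neg8 s y) = neg8 s (act4 g y) := by
  unfold act4 alp
  rw [neg8_aQ, neg8_iQ, neg8_mul]

theorem neg8_self (y : Q8) : y = neg8 y.s ⟨false, y.u⟩ := by
  revert y; decide +kernel

def p4 (g : GG) (u : F) : F := (act4 g ⟨false, u⟩).u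
def s4 (g : GG) (u : F) : Bool := (act4 g ⟨false, u⟩).s

theorem p4_mul (g k : GG) (u : F) : p4 (g * k) u = p4 g (p4 k u) := by
  unfold p4
  rw [act4_mul]
  conv_lhs => rw [neg8_self (act4 k ⟨false, u⟩), act4_neg8]
  rfl

theorem s4_mul (g k : GG) (u : F) : s4 (g * k) u = xor (s4 g (p4 k u)) (s4 k u) := by
  unfold s4 p4
  rw [act4_mul]
  conv_lhs => rw [neg8_self (act4 k ⟨false, u⟩), act4_neg8]
  exact Bool.xor_comm _ _

theorem p4_one (u : F) : p4 1 u = u := by
  unfold p4; rw [act4_one]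

theorem s4_one (u : F) : s4 1 u = false := by
  unfold s4; rw [act4_one]

/-- sign in `ℚ` of a bit -/
def sb (b : Bool) : ℚ := if b then -1 else 1

theorem sb_xor (a b : Bool) : sb (xor a b) = sb a * sb b := by
  cases a <;> cases b <;> simp [sb]

/-- the representation on `4` points, with values in `ℚ[K12]` -/
noncomputable def rho4 : GG →* Matrix F F (MonoidAlgebra ℚ K12) :=
  monoRep p4 (fun g u => MonoidAlgebra.single (kap g) (sb (s4 g u)))
    p4_one (fun u => by rw [s4_one, map_one]; rfl) p4_mul (fun g k u => by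
      rw [s4_mul, sb_xor, map_mul, MonoidAlgebra.single_mul_single])

/-- the nonzero elements of `F` -/
inductive F3 | a | b | c
deriving DecidableEq

instance : Fintype F3 := ⟨{.a, .b, .c}, by intro x; cases x <;> decide⟩

def F3.toF : F3 → F
  | .a => ⟨true, false⟩
  | .b => ⟨false, true⟩
  | .c => ⟨true, true⟩

def F3.ofF : F → F3
  | ⟨true, false⟩ => .a
  | ⟨false, true⟩ => .b
  | ⟨true, true⟩ => .c
  | ⟨false, false⟩ => .a

def a3 (g : S3) (x : F3) : F3 := F3.ofF (aF g x.toF)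

theorem a3_toF : ∀ (g : S3) (x : F3), (a3 g x).toF = aF g x.toF := by decide +kernel
theorem toF_inj : ∀ (x y : F3), x.toF = y.toF → x = y := by decide +kernel

theorem a3_mul : ∀ (g h : S3) (x : F3), a3 (g * h) x = a3 g (a3 h x) := by decide +kernel
theorem a3_one : ∀ (x : F3), a3 1 x = x := by decide +kernel

def p6 (h : H2) (ω : F3 × Bool) : F3 × Bool := (a3 h.right.g ω.1, xor ω.2 h.right.e)

def s6 (h : H2) (ω : F3 × Bool) : Bool :=
  xor (B (a3 h.right.g ω.1).toF h.left.1) ((xor ω.2 h.right.e) && B (a3 h.right.g ω.1).toF h.left.2)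

theorem p6_mul (h k : H2) (ω : F3 × Bool) : p6 (h * k) ω = p6 h (p6 k ω) := by
  obtain ⟨x, b⟩ := ω
  obtain ⟨w, ⟨e, g⟩⟩ := h
  obtain ⟨w', ⟨e', g'⟩⟩ := k
  show (a3 (g * g') x, xor b (xor e e')) = (a3 g (a3 g' x), xor (xor b e') e)
  rw [a3_mul, Bool.xor_assoc, Bool.xor_comm e' e]

theorem p6_one (ω : F3 × Bool) : p6 1 ω = ω := by
  obtain ⟨x, b⟩ := ω
  show (a3 1 x, xor b false) = (x, b)
  rw [a3_one, Bool.xor_false]

theorem s6_one (ω : F3 × Bool) : s6 1 ω = false := by
  obtain ⟨x, b⟩ := ω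
  revert x b
  decide +kernel

theorem B_fe : ∀ (v : F) (e : Bool) (w : F), B v (fe e w) = (e && B v w) := by decide +kernel

theorem s6_mul (h k : H2) (ω : F3 × Bool) :
    s6 (h * k) ω = xor (s6 h (p6 k ω)) (s6 k ω) := by
  obtain ⟨a, b⟩ := ω
  obtain ⟨⟨w, x⟩, ⟨e, g⟩⟩ := h
  obtain ⟨⟨w', x'⟩, ⟨e', g'⟩⟩ := k
  show xor (B (a3 (g * g') a).toF (w * (aF g w' * fe e (aF g x'))))
      ((xor b (xor e e')) && B (a3 (g * g') a).toF (x * aF g x')) =
    xor (xor (B (a3 g (a3 g' a)).toF w) ((xor (xor b e') e) && B (a3 g (a3 g' a)).toF x))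
      (xor (B (a3 g' a).toF w') ((xor b e') && B (a3 g' a).toF x'))
  rw [a3_mul, B_mul_right, B_mul_right, B_mul_right, B_fe, a3_toF g, B_inv, B_inv]
  generalize B (aF g (a3 g' a).toF) w = c1
  generalize B (a3 g' a).toF w' = c2
  generalize B (a3 g' a).toF x' = c3
  generalize B (aF g (a3 g' a).toF) x = c4
  revert b e e' c1 c2 c3 c4
  decide

/-- the representation on 24 points -/
noncomputable def rho24 : GG →* Matrix ((F3 × Bool) × F) ((F3 × Bool) × F) ℚ :=
  monoRep (fun g ω => (p6 g.right ω.1, p4 g ω.2))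
    (fun g ω => sb (s6 g.right ω.1) * sb (s4 g ω.2))
    (fun ω => by
      show (p6 1 ω.1, p4 1 ω.2) = ω
      rw [p6_one, p4_one])
    (fun ω => by
      show sb (s6 1 ω.1) * sb (s4 1 ω.2) = 1
      rw [s6_one, s4_one]; simp [sb])
    (fun g k ω => by
      show (p6 (g.right * k.right) ω.1, p4 (g * k) ω.2) = _
      rw [p6_mul, p4_mul])
    (fun g k ω => by
      show sb (s6 (g.right * k.right) ω.1) * sb (s4 (g * k) ω.2) = _
      rw [s6_mul, s4_mul, sb_xor, sb_xor]
      ring)

end Pool.Agent.H708R3.SP
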