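import Mathlib
import Pool.Agent.H708R3.SP7

set_option autoImplicit false
set_option maxRecDepth 100000

namespace Pool.Agent.H708R3.SP

/-- integral sign -/
def si (b : Bool) : ℤ := bif b then -1 else 1

theorem si_sb (b : Bool) : ((si b : ℤ) : ℚ) = sb b := by cases b <;> simp [si, sb]

def t4 (d : Q8) (x : F) (r : S3) (u : F) : ℤ :=
  let y := iQ x (aQ r ⟨false, u⟩) * d⁻¹
  if u = y.u then si y.s else 0

def c4 (d : Q8) (x : F) (r : S3) : ℤ :=
  t4 d x r ⟨false, false⟩ + t4 d x r ⟨false, true⟩ + t4 d x r ⟨true, false⟩ + t4 d x r ⟨true, true⟩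

def t6 (w x : F) (e : Bool) (r : S3) (a : F3) (b : Bool) : ℤ :=
  if a = a3 r a then
    (if b = xor b e then
      si (xor (B (a3 r a).toF w) ((xor b e) && B (a3 r a).toF x)) else 0) else 0

def c6 (w x : F) (e : Bool) (r : S3) : ℤ :=
  t6 w x e r .a false + t6 w x e r .a true + t6 w x e r .b false + t6 w x e r .b true +
    t6 w x e r .c false + t6 w x e r .c true

def chk (d : Q8) (w x : F) (e : Bool) (r : S3) : Bool :=
  decide ((bif (decide (w = 1) && decide (x = 1) && decide (d.u * x = 1) && !e && decide (r = 1))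
      then (32:ℤ) else 0)
    + (bif (!e && decide (r = 1)) then 2 * c4 d x r else 0) + c6 w x e r * c4 d x r
   = (bif (decide (w = 1) && decide (x = 1) && decide (d = 1) && !e && decide (r = 1))
      then (64:ℤ) else 0))

theorem chk_all : ∀ (d : Q8) (w x : F) (e : Bool) (r : S3), chk d w x e r = true := by
  decide +kernel

theorem sum_F (f : F → ℚ) : ∑ u, f u =
    f ⟨false, false⟩ + f ⟨false, true⟩ + f ⟨true, false⟩ + f ⟨true, true⟩ := by
  have h : (Finset.univ : Finset F) =
      {⟨false, false⟩, ⟨false, true⟩, ⟨true, false⟩, ⟨true, true⟩} := by decide +kernel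
  rw [h, Finset.sum_insert (by decide), Finset.sum_insert (by decide),
    Finset.sum_insert (by decide), Finset.sum_singleton]
  ring

theorem sum_F3B (f : F3 × Bool → ℚ) : ∑ u, f u =
    f (.a, false) + f (.a, true) + f (.b, false) + f (.b, true) + f (.c, false) + f (.c, true) := by
  have h : (Finset.univ : Finset (F3 × Bool)) =
      {(.a, false), (.a, true), (.b, false), (.b, true), (.c, false), (.c, true)} := by
    decide +kernel
  rw [h, Finset.sum_insert (by decide), Finset.sum_insert (by decide),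
    Finset.sum_insert (by decide), Finset.sum_insert (by decide),
    Finset.sum_insert (by decide), Finset.sum_singleton]
  ring

def X4 (g : GG) : ℚ := ∑ u, if u = p4 g u then sb (s4 g u) else 0
def X6 (h : H2) : ℚ := ∑ ω, if ω = p6 h ω then sb (s6 h ω) else 0

theorem X4_term (g : GG) (u : F) : (if u = p4 g u then sb (s4 g u) else 0) =
    ((t4 g.left g.right.left.2 g.right.right.g u : ℤ) : ℚ) := by
  show (if u = p4 g u then sb (s4 g u) else 0) =
    (((if u = p4 g u then si (s4 g u) else 0 : ℤ)) : ℚ)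
  split_ifs
  · exact (si_sb _).symm
  · simp

theorem X4_int (g : GG) : X4 g = ((c4 g.left g.right.left.2 g.right.right.g : ℤ) : ℚ) := by
  unfold X4 c4
  rw [sum_F, X4_term, X4_term, X4_term, X4_term]
  push_cast
  rfl

theorem X6_term (h : H2) (a : F3) (b : Bool) :
    (if (a, b) = p6 h (a, b) then sb (s6 h (a, b)) else 0) =
    ((t6 h.left.1 h.left.2 h.right.e h.right.g a b : ℤ) : ℚ) := by
  show (if (a, b) = (a3 h.right.g a, xor b h.right.e) then sb (s6 h (a, b)) else 0) =
    (((if a = a3 h.right.g a then (if b = xor b h.right.e then si (s6 h (a, b)) else 0) else 0 : ℤ)) : ℚ)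
  by_cases h1 : a = a3 h.right.g a
  · by_cases h2 : b = xor b h.right.e
    · rw [if_pos (Prod.ext h1 h2), if_pos h1, if_pos h2]
      exact (si_sb _).symm
    · rw [if_neg (fun hh => h2 (congrArg Prod.snd hh)), if_pos h1, if_neg h2]
      simp
  · rw [if_neg (fun hh => h1 (congrArg Prod.fst hh)), if_neg h1]
    simp

theorem X6_int (h : H2) : X6 h = ((c6 h.left.1 h.left.2 h.right.e h.right.g : ℤ) : ℚ) := by
  unfold X6 c6
  rw [sum_F3B, X6_term, X6_term, X6_term, X6_term, X6_term, X6_term]
  push_cast
  rfl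

/-- the coefficient at `1` -/
noncomputable def l1 (G : Type) [Group G] : MonoidAlgebra ℚ G →ₗ[ℚ] ℚ :=
  (Finsupp.lapply 1).comp (MonoidAlgebra.coeffLinearEquiv (S := ℚ) (M := G) ℚ).toLinearMap

theorem l1_single {G : Type} [Group G] [DecidableEq G] (g : G) (r : ℚ) :
    l1 G (MonoidAlgebra.single g r) = if g = 1 then r else 0 := by
  show (Finsupp.single g r : G →₀ ℚ) 1 = _
  rw [Finsupp.single_apply]

abbrev Om : Type := (F3 × Bool) × F

abbrev BB : Type := MonoidAlgebra ℚ H1 × (Matrix F F (MonoidAlgebra ℚ K12) × Matrix Om Om ℚ)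

noncomputable def fG : GG →* BB :=
  MonoidHom.prod ((MonoidAlgebra.of ℚ H1).comp pi1) (MonoidHom.prod rho4 rho24)

theorem fG_apply (g : GG) : fG g = (MonoidAlgebra.single (pi1 g) 1, (rho4 g, rho24 g)) := rfl

noncomputable def trL (R Ω : Type) [Ring R] [Algebra ℚ R] [Fintype Ω] (l : R →ₗ[ℚ] ℚ) :
    Matrix Ω Ω R →ₗ[ℚ] ℚ where
  toFun m := ∑ ω, l (m ω ω)
  map_add' x y := by
    simp only [Matrix.add_apply, map_add, Finset.sum_add_distrib]
  map_smul' c x := by
    simp only [Matrix.smul_apply, map_smul, Finset.smul_sum, RingHom.id_apply]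

noncomputable def phiB : BB →ₗ[ℚ] ℚ :=
  (32 : ℚ) • (l1 H1).comp (LinearMap.fst ℚ _ _) +
  (2 : ℚ) • ((trL _ F (l1 K12)).comp (LinearMap.fst ℚ _ _)).comp (LinearMap.snd ℚ _ _) +
  ((trL _ Om LinearMap.id).comp (LinearMap.snd ℚ _ _)).comp (LinearMap.snd ℚ _ _)

theorem phiB_apply (x : BB) : phiB x = 32 * l1 H1 x.1 + 2 * (∑ ω, l1 K12 (x.2.1 ω ω))
    + ∑ ω, x.2.2 ω ω := rfl

theorem phi_fG (g : GG) : phiB (fG g) = 32 * (if pi1 g = 1 then 1 else 0) +
    2 * (if kap g = 1 then X4 g else 0) + X6 g.right * X4 g := by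
  rw [phiB_apply, fG_apply]
  dsimp only
  rw [l1_single]
  congr 1
  · congr 1
    congr 1
    have h1 : ∀ ω, l1 K12 (rho4 g ω ω) = if kap g = 1 then (if ω = p4 g ω then sb (s4 g ω) else 0) else 0 := by
      intro ω
      unfold rho4
      rw [monoRep_diag]
      split_ifs with h2 h3 h4
      · rw [l1_single, if_pos h3]
      · rw [l1_single, if_neg h3]
      · exact map_zero _
      · exact map_zero _
    rw [Finset.sum_congr rfl (fun ω _ => h1 ω)]
    split_ifs
    · rfl
    · exact Finset.sum_const_zero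
  · have h1 : ∀ ω, rho24 g ω ω = (if ω.1 = p6 g.right ω.1 then sb (s6 g.right ω.1) else 0) *
        (if ω.2 = p4 g ω.2 then sb (s4 g ω.2) else 0) := by
      intro ω
      unfold rho24
      rw [monoRep_diag]
      obtain ⟨a, b⟩ := ω
      dsimp only
      by_cases h2 : a = p6 g.right a
      · by_cases h3 : b = p4 g b
        · rw [if_pos (Prod.ext h2 h3), if_pos h2, if_pos h3]
        · rw [if_neg (fun hh => h3 (congrArg Prod.snd hh)), if_neg h3, mul_zero]
      · rw [if_neg (fun hh => h2 (congrArg Prod.fst hh)), if_neg h2, zero_mul]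
    rw [Finset.sum_congr rfl (fun ω _ => h1 ω), Fintype.sum_prod_type, X6, X4, Finset.sum_mul_sum]

theorem pi1_eq_one (g : GG) : pi1 g = 1 ↔ (g.right.left.1 = 1 ∧ g.right.left.2 = 1 ∧
    g.left.u * g.right.left.2 = 1 ∧ g.right.right.e = false ∧ g.right.right.g = 1) := by
  constructor
  · intro h
    have h1 : (pi1 g).left = 1 := by rw [h]; rfl
    have h2 : (pi1 g).right = 1 := by rw [h]; rfl
    have h3 : (g.right.left.1, g.right.left.2, g.left.u * g.right.left.2) = ((1 : F), (1 : F), (1 : F)) := h1
    have h4 : g.right.right = 1 := h2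
    rw [Prod.mk.injEq, Prod.mk.injEq] at h3
    exact ⟨h3.1, h3.2.1, h3.2.2, congrArg K12.e h4, congrArg K12.g h4⟩
  · rintro ⟨h1, h2, h3, h4, h5⟩
    apply SemidirectProduct.ext
    · show (g.right.left.1, g.right.left.2, g.left.u * g.right.left.2) = ((1 : F), (1 : F), (1 : F))
      rw [h3, h1, h2]
    · show g.right.right = 1
      exact K12.ext h4 h5

theorem kap_eq_one (g : GG) : kap g = 1 ↔ (g.right.right.e = false ∧ g.right.right.g = 1) := by
  constructor
  · intro h
    have h4 : g.right.right = 1 := h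
    exact ⟨congrArg K12.e h4, congrArg K12.g h4⟩
  · rintro ⟨h4, h5⟩
    exact K12.ext h4 h5

theorem GG_eq_one (g : GG) : g = 1 ↔ (g.right.left.1 = 1 ∧ g.right.left.2 = 1 ∧
    g.left = 1 ∧ g.right.right.e = false ∧ g.right.right.g = 1) := by
  constructor
  · rintro rfl
    exact ⟨rfl, rfl, rfl, rfl, rfl⟩
  · rintro ⟨h1, h2, h3, h4, h5⟩
    apply SemidirectProduct.ext
    · exact h3
    · apply SemidirectProduct.ext
      · exact Prod.ext h1 h2
      · exact K12.ext h4 h5

theorem phi_val (g : GG) : phiB (fG g) = if g = 1 then 64 else 0 := by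
  have h := chk_all g.left g.right.left.1 g.right.left.2 g.right.right.e g.right.right.g
  unfold chk at h
  rw [decide_eq_true_eq] at h
  have h' := congrArg (fun z : ℤ => (z : ℚ)) h
  simp only [Int.cast_add, Int.cast_mul] at h'
  rw [← X4_int, ← X6_int] at h'
  rw [phi_fG]
  have e1 : (((bif (decide (g.right.left.1 = 1) && decide (g.right.left.2 = 1) &&
      decide (g.left.u * g.right.left.2 = 1) && !g.right.right.e && decide (g.right.right.g = 1))
      then (32:ℤ) else 0 : ℤ)) : ℚ) = 32 * (if pi1 g = 1 then 1 else 0) := by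
    by_cases hp : pi1 g = 1
    · rw [if_pos hp]
      obtain ⟨h1, h2, h3, h4, h5⟩ := (pi1_eq_one g).mp hp
      simp [h1, h2, h4, h5]
      rw [h2, mul_one] at h3
      simp [h3]
    · rw [if_neg hp]
      have : (decide (g.right.left.1 = 1) && decide (g.right.left.2 = 1) &&
        decide (g.left.u * g.right.left.2 = 1) && !g.right.right.e && decide (g.right.right.g = 1)) = false := by
        rw [Bool.eq_false_iff]
        intro hh
        apply hp
        rw [pi1_eq_one]
        simp only [Bool.and_eq_true, decide_eq_true_eq, Bool.not_eq_true'] at hh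
        exact ⟨hh.1.1.1.1, hh.1.1.1.2, hh.1.1.2, hh.1.2, hh.2⟩
      rw [this]; simp
  have e2 : (((bif (!g.right.right.e && decide (g.right.right.g = 1))
      then 2 * c4 g.left g.right.left.2 g.right.right.g else 0 : ℤ)) : ℚ) =
      2 * (if kap g = 1 then X4 g else 0) := by
    by_cases hp : kap g = 1
    · rw [if_pos hp]
      obtain ⟨h4, h5⟩ := (kap_eq_one g).mp hp
      have : (!g.right.right.e && decide (g.right.right.g = 1)) = true := by simp [h4, h5]
      rw [this, cond_true, X4_int]
      push_cast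
      rfl
    · rw [if_neg hp]
      have : (!g.right.right.e && decide (g.right.right.g = 1)) = false := by
        rw [Bool.eq_false_iff]
        intro hh
        apply hp
        rw [kap_eq_one]
        simp only [Bool.and_eq_true, decide_eq_true_eq, Bool.not_eq_true'] at hh
        exact hh
      rw [this]; simp
  have e3 : (((bif (decide (g.right.left.1 = 1) && decide (g.right.left.2 = 1) &&
      decide (g.left = 1) && !g.right.right.e && decide (g.right.right.g = 1))
      then (64:ℤ) else 0 : ℤ)) : ℚ) = if g = 1 then 64 else 0 := by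
    by_cases hp : g = 1
    · rw [if_pos hp]
      obtain ⟨h1, h2, h3, h4, h5⟩ := (GG_eq_one g).mp hp
      simp [h1, h2, h3, h4, h5]
    · rw [if_neg hp]
      have : (decide (g.right.left.1 = 1) && decide (g.right.left.2 = 1) &&
        decide (g.left = 1) && !g.right.right.e && decide (g.right.right.g = 1)) = false := by
        rw [Bool.eq_false_iff]
        intro hh
        apply hp
        rw [GG_eq_one]
        simp only [Bool.and_eq_true, decide_eq_true_eq, Bool.not_eq_true'] at hh
        exact ⟨hh.1.1.1.1, hh.1.1.1.2, hh.1.1.2, hh.1.2, hh.2⟩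
      rw [this]; simp
  rw [e1, e2, e3] at h'
  exact h'

theorem split_GG : Split (MonoidAlgebra ℚ GG) := by
  refine split_of_functional (B := BB)
    (split_H1.prod ((Split.matrix split_K12).prod split_matrix)) ?_ fG ((64:ℚ)⁻¹ • phiB) ?_ ?_
  · rw [Module.finrank_prod, Module.finrank_prod, finrank_monoidAlgebra, Module.finrank_matrix,
      Module.finrank_matrix, finrank_monoidAlgebra, card_H1, card_K12, card_GG, Module.finrank_self]
    have h1 : Fintype.card F = 4 := by rw [← Nat.card_eq_fintype_card, card_F]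
    have h2 : Fintype.card F3 = 3 := rfl
    simp only [Fintype.card_prod, h1, h2, Fintype.card_bool]
  · rw [LinearMap.smul_apply, phi_val, if_pos rfl]
    norm_num
  · intro g hg
    rw [LinearMap.smul_apply, phi_val, if_neg hg, smul_zero]

end Pool.Agent.H708R3.SP
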