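import Mathlib
import Pool.Agent.H708R3.SP8

set_option autoImplicit false
set_option maxRecDepth 100000
set_option linter.unusedSectionVars false

namespace Pool.Agent.H708R3.SP

section
variable {P : Type} [Group P] [Fintype P]

/-- the standard inner product on `ℚ[P]` -/
def inn (f h : MonoidAlgebra ℚ P) : ℚ := ∑ g, f.coeff g * h.coeff g

theorem inn_single (a : P) (f h : MonoidAlgebra ℚ P) :
    inn (MonoidAlgebra.single a 1 * f) h = inn f (MonoidAlgebra.single a⁻¹ 1 * h) := by
  unfold inn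
  refine Fintype.sum_equiv (Equiv.mulLeft a⁻¹) _ _ ?_
  intro g
  rw [Equiv.coe_mulLeft, MonoidAlgebra.coeff_single_mul_apply, MonoidAlgebra.coeff_single_mul_apply,
    one_mul, one_mul, inv_inv, mul_inv_cancel_left]

theorem inn_sub_left (f f' h : MonoidAlgebra ℚ P) : inn (f - f') h = inn f h - inn f' h := by
  unfold inn
  rw [← Finset.sum_sub_distrib]
  refine Finset.sum_congr rfl fun g _ => ?_
  rw [MonoidAlgebra.coeff_sub, Finsupp.sub_apply, sub_mul]

theorem inn_sub_right (f h h' : MonoidAlgebra ℚ P) : inn f (h - h') = inn f h - inn f h' := by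
  unfold inn
  rw [← Finset.sum_sub_distrib]
  refine Finset.sum_congr rfl fun g _ => ?_
  rw [MonoidAlgebra.coeff_sub, Finsupp.sub_apply, mul_sub]

theorem inn_sum_left {ι : Type} (s : Finset ι) (f : ι → MonoidAlgebra ℚ P) (h : MonoidAlgebra ℚ P) :
    inn (∑ i ∈ s, f i) h = ∑ i ∈ s, inn (f i) h := by
  unfold inn
  rw [Finset.sum_comm]
  refine Finset.sum_congr rfl fun g _ => ?_
  rw [MonoidAlgebra.coeff_sum, Finsupp.finsetSum_apply, Finset.sum_mul]

theorem inn_sum_right {ι : Type} (s : Finset ι) (f : MonoidAlgebra ℚ P) (h : ι → MonoidAlgebra ℚ P) :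
    inn f (∑ i ∈ s, h i) = ∑ i ∈ s, inn f (h i) := by
  unfold inn
  rw [Finset.sum_comm]
  refine Finset.sum_congr rfl fun g _ => ?_
  rw [MonoidAlgebra.coeff_sum, Finsupp.finsetSum_apply, Finset.mul_sum]

theorem inn_smul_left (c : ℚ) (f h : MonoidAlgebra ℚ P) : inn (c • f) h = c * inn f h := by
  unfold inn
  rw [Finset.mul_sum]
  refine Finset.sum_congr rfl fun g _ => ?_
  rw [MonoidAlgebra.coeff_smul_apply, smul_eq_mul, mul_assoc]

theorem inn_smul_right (c : ℚ) (f h : MonoidAlgebra ℚ P) : inn f (c • h) = c * inn f h := by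
  unfold inn
  rw [Finset.mul_sum]
  refine Finset.sum_congr rfl fun g _ => ?_
  rw [MonoidAlgebra.coeff_smul_apply, smul_eq_mul]
  ring

theorem inn_self_eq_zero (f : MonoidAlgebra ℚ P) (h : inn f f = 0) : f = 0 := by
  unfold inn at h
  rw [Finset.sum_eq_zero_iff_of_nonneg (fun g _ => mul_self_nonneg _)] at h
  ext g
  have := h g (Finset.mem_univ g)
  simpa using mul_self_eq_zero.mp this

/-- the difference of the class sums of `x` and `x⁻¹` (times the centraliser order) -/
noncomputable def zx (x : P) : MonoidAlgebra ℚ P :=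
  ∑ p : P, (MonoidAlgebra.single (p * x * p⁻¹) 1 - MonoidAlgebra.single (p * x⁻¹ * p⁻¹) 1)

theorem zx_comm (x : P) (r : MonoidAlgebra ℚ P) : r * zx x = zx x * r := by
  induction r using MonoidAlgebra.induction_on with
  | of g =>
    have hg : (MonoidAlgebra.of ℚ P g) = MonoidAlgebra.single g 1 := rfl
    rw [hg]
    unfold zx
    rw [Finset.mul_sum, Finset.sum_mul]
    refine Fintype.sum_equiv (Equiv.mulLeft g) _ _ ?_
    intro p
    rw [Equiv.coe_mulLeft, mul_sub, sub_mul, MonoidAlgebra.single_mul_single,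
      MonoidAlgebra.single_mul_single, MonoidAlgebra.single_mul_single,
      MonoidAlgebra.single_mul_single]
    congr 2 <;> group
  | add a b ha hb => rw [add_mul, mul_add, ha, hb]
  | smul c a ha => rw [smul_mul_assoc, mul_smul_comm, ha]

theorem zx_skew (x : P) (f h : MonoidAlgebra ℚ P) : inn (zx x * f) h = - inn f (zx x * h) := by
  unfold zx
  rw [Finset.sum_mul, Finset.sum_mul, inn_sum_left, inn_sum_right, ← Finset.sum_neg_distrib]
  refine Finset.sum_congr rfl fun p _ => ?_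
  rw [sub_mul, sub_mul, inn_sub_left, inn_sub_right, inn_single, inn_single]
  have h1 : (p * x * p⁻¹)⁻¹ = p * x⁻¹ * p⁻¹ := by group
  have h2 : (p * x⁻¹ * p⁻¹)⁻¹ = p * x * p⁻¹ := by group
  rw [h1, h2]
  ring

theorem zx_ne_zero (x : P) (hx : ∀ p : P, p * x ≠ x⁻¹ * p) : zx x ≠ 0 := by
  classical
  intro h0
  have h1 : (zx x).coeff x = 0 := by rw [h0]; rfl
  unfold zx at h1
  rw [MonoidAlgebra.coeff_sum, Finsupp.finsetSum_apply] at h1
  have h2 : ∀ p ∈ (Finset.univ : Finset P), ((MonoidAlgebra.single (p * x * p⁻¹) (1:ℚ) -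
      MonoidAlgebra.single (p * x⁻¹ * p⁻¹) 1 : MonoidAlgebra ℚ P)).coeff x =
      if p * x * p⁻¹ = x then (1:ℚ) else 0 := by
    intro p _
    rw [MonoidAlgebra.coeff_sub, Finsupp.sub_apply, MonoidAlgebra.coeff_single,
      MonoidAlgebra.coeff_single, Finsupp.single_apply, Finsupp.single_apply]
    have : ¬ (p * x⁻¹ * p⁻¹ = x) := by
      intro hh
      apply hx p
      have : p * x * p⁻¹ = x⁻¹ := by
        have h9 : p * x * p⁻¹ = (p * x⁻¹ * p⁻¹)⁻¹ := by group
        rw [h9, hh]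
      rw [← this]; group
    rw [if_neg this, sub_zero]
  rw [Finset.sum_congr rfl h2] at h1
  rw [Finset.sum_eq_zero_iff_of_nonneg (fun g _ => by split_ifs <;> norm_num)] at h1
  have := h1 1 (Finset.mem_univ _)
  simp at this

end

theorem real_of_split {P : Type} [Group P] [Finite P] (h : Split (MonoidAlgebra ℚ P)) (x : P) :
    ∃ p : P, p * x = x⁻¹ * p := by
  classical
  have := Fintype.ofFinite P
  by_contra hcon
  push Not at hcon
  obtain ⟨ι, hι, n, ⟨e⟩⟩ := h
  have hz : e (zx x) ≠ 0 := by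
    intro h0
    exact zx_ne_zero x hcon (by simpa using h0)
  obtain ⟨i, hi⟩ := Function.ne_iff.mp hz
  have hcomm : ∀ M : Matrix (Fin (n i)) (Fin (n i)) ℚ, M * e (zx x) i = e (zx x) i * M := by
    intro M
    have h1 := congrArg e (zx_comm x (e.symm (Pi.single i M)))
    rw [map_mul, map_mul, AlgEquiv.apply_symm_apply] at h1
    have h2 := congrFun h1 i
    rw [Pi.mul_apply, Pi.mul_apply, Pi.single_eq_same] at h2
    exact h2
  have hsc : e (zx x) i ∈ Set.range (Matrix.scalar (Fin (n i))) := by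
    rw [Matrix.mem_range_scalar_iff_commute_single']
    intro j k
    exact hcomm _
  obtain ⟨r, hr⟩ := hsc
  have hr0 : r ≠ 0 := by
    rintro rfl
    apply hi
    rw [← hr, map_zero]
    rfl
  set f := e.symm (Pi.single i 1) with hf
  have hzf : zx x * f = r • f := by
    apply e.injective
    rw [map_mul, map_smul, hf, AlgEquiv.apply_symm_apply]
    funext j
    by_cases hj : j = i
    · subst hj
      rw [Pi.mul_apply, Pi.smul_apply, Pi.single_eq_same, ← hr, mul_one]
      ext a b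
      simp [Matrix.scalar_apply, Matrix.diagonal_apply, Matrix.one_apply]
    · rw [Pi.mul_apply, Pi.smul_apply, Pi.single_eq_of_ne hj, mul_zero, smul_zero]
  have h1 := zx_skew x f f
  rw [hzf, inn_smul_left, inn_smul_right] at h1
  have h2 : inn f f = 0 := by
    have : r * inn f f = 0 := by linarith
    rcases mul_eq_zero.mp this with h3 | h3
    · exact absurd h3 hr0
    · exact h3
  have h3 := inn_self_eq_zero f h2
  rw [h3, mul_zero] at hzf
  -- f ≠ 0
  have h4 : (Pi.single i 1 : (i : ι) → Matrix (Fin (n i)) (Fin (n i)) ℚ) = 0 := by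
    have := congrArg e h3
    rwa [hf, AlgEquiv.apply_symm_apply, map_zero] at this
  have h5 : (1 : Matrix (Fin (n i)) (Fin (n i)) ℚ) = 0 := by
    have := congrFun h4 i
    rwa [Pi.single_eq_same] at this
  apply hi
  have : e (zx x) i = e (zx x) i * 1 := (mul_one _).symm
  rw [this, h5, mul_zero]
  rfl

/-- the Sylow 2-subgroup -/
def S2 : Subgroup GG where
  carrier := {g | g.right.right.g.i = .z}
  one_mem' := rfl
  mul_mem' := by
    intro a b ha hb
    have ha' : a.right.right.g.i = .z := ha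
    have hb' : b.right.right.g.i = .z := hb
    show a.right.right.g.i.add (C3.sgn a.right.right.g.b b.right.right.g.i) = .z
    rw [ha', hb']
    cases a.right.right.g.b <;> rfl
  inv_mem' := by
    intro a ha
    have ha' : a.right.right.g.i = .z := ha
    show (C3.sgn a.right.right.g.b a.right.right.g.i).neg = .z
    rw [ha']
    cases a.right.right.g.b <;> rfl

def S2equiv : S2 ≃ Q8 × ((F × F) × (Bool × Bool)) where
  toFun g := (g.1.left, (g.1.right.left, (g.1.right.right.e, g.1.right.right.g.b)))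
  invFun y := ⟨⟨y.1, ⟨y.2.1, ⟨y.2.2.1, ⟨.z, y.2.2.2⟩⟩⟩⟩, rfl⟩
  left_inv := by
    rintro ⟨⟨d, ⟨w, ⟨e, ⟨i, b⟩⟩⟩⟩, hg⟩
    have : i = .z := hg
    subst this
    rfl
  right_inv := by
    rintro ⟨d, ⟨w, ⟨e, b⟩⟩⟩
    rfl

theorem card_S2 : Nat.card S2 = 512 := by
  rw [Nat.card_congr S2equiv, Nat.card_prod, Nat.card_prod, Nat.card_prod, Nat.card_prod, card_F,
    card_Q8, Nat.card_eq_fintype_card (α := Bool), Fintype.card_bool]

theorem S2_isPGroup : IsPGroup 2 S2 := by
  refine IsPGroup.of_card (n := 9) ?_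
  rw [card_S2]; norm_num

theorem S2_index : S2.index = 3 := by
  have h := S2.card_mul_index
  rw [card_S2, card_GG] at h
  omega

noncomputable def SylP : Sylow 2 GG := S2_isPGroup.toSylow (by rw [S2_index]; norm_num)

theorem SylP_coe : (SylP : Subgroup GG) = S2 := rfl

/-- the bad element -/
def xx : GG := ⟨⟨false, ⟨false, true⟩⟩, ⟨(⟨false, false⟩, ⟨false, true⟩), ⟨true, ⟨.z, false⟩⟩⟩⟩

theorem xx_bad : ∀ (d : Q8) (w x : F) (e b : Bool),
    ¬ ((⟨d, ⟨(w, x), ⟨e, ⟨.z, b⟩⟩⟩⟩ : GG) * xx = xx⁻¹ * ⟨d, ⟨(w, x), ⟨e, ⟨.z, b⟩⟩⟩⟩) := by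
  decide +kernel

theorem not_split_S2 : ¬ Split (MonoidAlgebra ℚ S2) := by
  intro h
  obtain ⟨p, hp⟩ := real_of_split h ⟨xx, rfl⟩
  have h1 : (p : GG) * xx = xx⁻¹ * (p : GG) := congrArg Subtype.val hp
  obtain ⟨⟨d, ⟨⟨w, x⟩, ⟨e, ⟨i, b⟩⟩⟩⟩, hg⟩ := p
  have : i = .z := hg
  subst this
  exact xx_bad d w x e b h1

end Pool.Agent.H708R3.SP
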