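import Mathlib

set_option autoImplicit false

open Finset

namespace Pool.Agent.H708R3.TK

section

variable {V : Type} [DecidableEq V]

/-- at most one directed path on three given vertices -/
theorem six (r : V → V → Prop) [DecidableRel r] (h1 : ∀ a b, r a b → ¬ r b a)
    (h2 : ∀ a b c, r a b → r b c → ¬ r c a) (a b c : V) :
    (if r a b ∧ r b c then 1 else 0) + (if r a c ∧ r c b then 1 else 0) +
    (if r b a ∧ r a c then 1 else 0) + (if r b c ∧ r c a then 1 else 0) +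
    (if r c a ∧ r a b then 1 else 0) + (if r c b ∧ r b a then 1 else 0) ≤ 1 := by
  have e1 := h1 a b
  have e2 := h1 b c
  have e3 := h1 a c
  have f1 := h2 a b c
  have f2 := h2 a c b
  have f3 := h2 b a c
  have f4 := h2 b c a
  have f5 := h2 c a b
  have f6 := h2 c b a
  by_cases g1 : r a b <;> by_cases g2 : r b a <;> by_cases g3 : r b c <;> by_cases g4 : r c b <;>
    by_cases g5 : r a c <;> by_cases g6 : r c a <;> simp_all

/-- the number of directed paths with three vertices in a set of `d` vertices is at most `d³/6` -/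
theorem paths (r : V → V → Prop) [DecidableRel r] (h1 : ∀ a b, r a b → ¬ r b a)
    (h2 : ∀ a b c, r a b → r b c → ¬ r c a) (N : Finset V) :
    6 * ∑ b ∈ N, (N.filter fun c => r b c).card * (N.filter fun a => r a b).card ≤
      N.card ^ 3 := by
  obtain ⟨f, hf⟩ : ∃ f : V → V → V → ℕ, f = fun a b c => if r a b ∧ r b c then 1 else 0 :=
    ⟨_, rfl⟩
  have hP : ∑ b ∈ N, (N.filter fun c => r b c).card * (N.filter fun a => r a b).card =
      ∑ a ∈ N, ∑ b ∈ N, ∑ c ∈ N, f a b c := by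
    rw [hf, sum_comm]
    refine sum_congr rfl fun b _ => ?_
    rw [card_filter, card_filter, mul_comm, sum_mul_sum]
    refine sum_congr rfl fun a _ => sum_congr rfl fun c _ => ?_
    by_cases g1 : r a b <;> by_cases g2 : r b c <;> simp [g1, g2]
  have t12 : ∀ g : V → V → V → ℕ,
      ∑ a ∈ N, ∑ b ∈ N, ∑ c ∈ N, g b a c = ∑ a ∈ N, ∑ b ∈ N, ∑ c ∈ N, g a b c :=
    fun g => sum_comm
  have t23 : ∀ g : V → V → V → ℕ,
      ∑ a ∈ N, ∑ b ∈ N, ∑ c ∈ N, g a c b = ∑ a ∈ N, ∑ b ∈ N, ∑ c ∈ N, g a b c :=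
    fun g => sum_congr rfl fun a _ => sum_comm
  have s1 : ∑ a ∈ N, ∑ b ∈ N, ∑ c ∈ N, f a c b = ∑ a ∈ N, ∑ b ∈ N, ∑ c ∈ N, f a b c := t23 f
  have s2 : ∑ a ∈ N, ∑ b ∈ N, ∑ c ∈ N, f b a c = ∑ a ∈ N, ∑ b ∈ N, ∑ c ∈ N, f a b c := t12 f
  have s3 : ∑ a ∈ N, ∑ b ∈ N, ∑ c ∈ N, f b c a = ∑ a ∈ N, ∑ b ∈ N, ∑ c ∈ N, f a b c :=
    (t12 fun a b c => f a c b).trans (t23 f)
  have s4 : ∑ a ∈ N, ∑ b ∈ N, ∑ c ∈ N, f c a b = ∑ a ∈ N, ∑ b ∈ N, ∑ c ∈ N, f a b c :=
    (t23 fun a b c => f b a c).trans (t12 f)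
  have s5 : ∑ a ∈ N, ∑ b ∈ N, ∑ c ∈ N, f c b a = ∑ a ∈ N, ∑ b ∈ N, ∑ c ∈ N, f a b c :=
    ((t12 fun a b c => f c a b).trans (t23 fun a b c => f b a c)).trans (t12 f)
  have hall : ∑ a ∈ N, ∑ b ∈ N, ∑ c ∈ N,
      (f a b c + f a c b + f b a c + f b c a + f c a b + f c b a) ≤ N.card ^ 3 := by
    calc _ ≤ ∑ a ∈ N, ∑ b ∈ N, ∑ c ∈ N, 1 := by
          refine sum_le_sum fun a _ => sum_le_sum fun b _ => sum_le_sum fun c _ => ?_
          have := six r h1 h2 a b c
          simp only [hf]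
          omega
      _ = N.card ^ 3 := by simp; ring
  simp only [sum_add_distrib] at hall
  rw [s1, s2, s3, s4, s5] at hall
  rw [hP]
  linarith

end

section

variable {n : ℕ} (E : Finset (Fin n × Fin n))

/-- out-neighbours -/
def No (u : Fin n) : Finset (Fin n) := univ.filter fun v => (u, v) ∈ E

/-- in-neighbours -/
def Ni (u : Fin n) : Finset (Fin n) := univ.filter fun v => (v, u) ∈ E

theorem card_No (u : Fin n) : (E.filter (fun e => e.1 = u)).card = (No E u).card := by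
  refine Finset.card_bij (fun e _ => e.2) ?_ ?_ ?_
  · rintro ⟨a, b⟩ h
    simp only [mem_filter] at h
    obtain ⟨h1, rfl⟩ := h
    simpa [No] using h1
  · rintro ⟨a, b⟩ h ⟨c, d⟩ h' hbd
    simp only [mem_filter] at h h'
    simp only at hbd
    rw [Prod.mk.injEq]
    exact ⟨h.2.trans h'.2.symm, hbd⟩
  · intro v hv
    simp only [No, mem_filter, mem_univ, true_and] at hv
    exact ⟨(u, v), by simp [hv], rfl⟩

theorem card_Ni (u : Fin n) : (E.filter (fun e => e.2 = u)).card = (Ni E u).card := by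
  refine Finset.card_bij (fun e _ => e.1) ?_ ?_ ?_
  · rintro ⟨a, b⟩ h
    simp only [mem_filter] at h
    obtain ⟨h1, rfl⟩ := h
    simpa [Ni] using h1
  · rintro ⟨a, b⟩ h ⟨c, d⟩ h' hbd
    simp only [mem_filter] at h h'
    simp only at hbd
    rw [Prod.mk.injEq]
    exact ⟨hbd, h.2.trans h'.2.symm⟩
  · intro v hv
    simp only [Ni, mem_filter, mem_univ, true_and] at hv
    exact ⟨(v, u), by simp [hv], rfl⟩

/-- summation over the arcs by tails -/
theorem sum_tail (f : Fin n → Fin n → ℕ) :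
    ∑ e ∈ E, f e.1 e.2 = ∑ u, ∑ v ∈ No E u, f u v := by
  rw [Finset.sum_sigma']
  refine Finset.sum_bij' (fun e _ => ⟨e.1, e.2⟩) (fun s _ => (s.1, s.2)) ?_ ?_ ?_ ?_ ?_
  · rintro ⟨a, b⟩ h; simp [No, h]
  · rintro ⟨a, b⟩ h; simpa [No] using h
  · rintro ⟨a, b⟩ _; rfl
  · rintro ⟨a, b⟩ _; rfl
  · rintro ⟨a, b⟩ _; rfl

/-- summation over the arcs by heads -/
theorem sum_head (f : Fin n → Fin n → ℕ) :
    ∑ e ∈ E, f e.1 e.2 = ∑ v, ∑ u ∈ Ni E v, f u v := by
  rw [Finset.sum_sigma']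
  refine Finset.sum_bij' (fun e _ => ⟨e.2, e.1⟩) (fun s _ => (s.2, s.1)) ?_ ?_ ?_ ?_ ?_
  · rintro ⟨a, b⟩ h; simp [Ni, h]
  · rintro ⟨a, b⟩ h; simpa [Ni] using h
  · rintro ⟨a, b⟩ _; rfl
  · rintro ⟨a, b⟩ _; rfl
  · rintro ⟨a, b⟩ _; rfl


/-- arcs inside a set of vertices -/
theorem inside (hloop : ∀ v : Fin n, (v, v) ∉ E) (c2 : ∀ u v : Fin n, (u, v) ∈ E → (v, u) ∉ E)
    (X : Finset (Fin n)) :
    2 * (∑ v ∈ X, (X.filter fun w => (v, w) ∈ E).card) + X.card ≤ X.card ^ 2 := by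
  classical
  have h : ∀ v ∈ X, (X.filter fun w => (v, w) ∈ E).card + (X.filter fun w => (w, v) ∈ E).card + 1 ≤
      X.card := by
    intro v hv
    have hd : Disjoint (X.filter fun w => (v, w) ∈ E) (X.filter fun w => (w, v) ∈ E) := by
      rw [Finset.disjoint_left]
      intro w h1 h2
      exact c2 _ _ (mem_filter.1 h1).2 (mem_filter.1 h2).2
    have hn : v ∉ (X.filter fun w => (v, w) ∈ E) ∪ (X.filter fun w => (w, v) ∈ E) := by
      intro h
      rcases mem_union.1 h with h | h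
      · exact hloop v (mem_filter.1 h).2
      · exact hloop v (mem_filter.1 h).2
    have hs : insert v ((X.filter fun w => (v, w) ∈ E) ∪ (X.filter fun w => (w, v) ∈ E)) ⊆ X := by
      rw [insert_subset_iff]
      exact ⟨hv, union_subset (filter_subset _ _) (filter_subset _ _)⟩
    have := card_le_card hs
    rw [card_insert_of_notMem hn, card_union_of_disjoint hd] at this
    exact this
  have hsw : ∑ v ∈ X, (X.filter fun w => (w, v) ∈ E).card =
      ∑ v ∈ X, (X.filter fun w => (v, w) ∈ E).card := by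
    simp only [card_filter]
    exact sum_comm
  have hs := sum_le_sum h
  rw [sum_add_distrib, sum_add_distrib, hsw] at hs
  simp only [sum_const, smul_eq_mul, mul_one] at hs
  rw [sq]
  omega

theorem core (hloop : ∀ v : Fin n, (v, v) ∉ E)
    (hbal : ∀ v : Fin n,
      (E.filter (fun e => e.1 = v)).card = (E.filter (fun e => e.2 = v)).card)
    (c2 : ∀ u v : Fin n, (u, v) ∈ E → (v, u) ∉ E)
    (c3 : ∀ u v w : Fin n, (u, v) ∈ E → (v, w) ∈ E → (w, u) ∉ E) (hpos : E.Nonempty) :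
    16 * E.card ^ 2 ≤ n ^ 2 * E.card + 2 * n ^ 4 := by
  classical
  obtain ⟨d, hd⟩ : ∃ d : Fin n → ℕ, ∀ u, d u = (No E u).card := ⟨_, fun _ => rfl⟩
  have hdi : ∀ u, (Ni E u).card = d u := fun u => by
    rw [← card_Ni, ← hbal u, card_No, hd]
  obtain ⟨a, ha⟩ : ∃ a : Fin n → Fin n → ℕ, ∀ u v, a u v = (No E u ∩ No E v).card :=
    ⟨_, fun _ _ => rfl⟩
  obtain ⟨b, hb⟩ : ∃ b : Fin n → Fin n → ℕ, ∀ u v, b u v = (No E u ∩ Ni E v).card :=
    ⟨_, fun _ _ => rfl⟩
  obtain ⟨c, hc⟩ : ∃ c : Fin n → Fin n → ℕ, ∀ u v, c u v = (Ni E u ∩ Ni E v).card :=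
    ⟨_, fun _ _ => rfl⟩
  have hdOI : ∀ u, Disjoint (No E u) (Ni E u) := by
    intro u
    rw [Finset.disjoint_left]
    intro w h1 h2
    simp only [No, Ni, mem_filter, mem_univ, true_and] at h1 h2
    exact c2 _ _ h1 h2
  have hdn : ∀ u, 2 * d u ≤ n := by
    intro u
    have := card_le_univ (No E u ∪ Ni E u)
    rw [card_union_of_disjoint (hdOI u), Fintype.card_fin, hdi, ← hd] at this
    omega
  have harc : ∀ u v : Fin n, (u, v) ∈ E → 2 * d u + d v ≤ n + a u v := by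
    intro u v huv
    have hU := card_le_univ (Ni E u ∪ (No E u ∪ No E v))
    have hdis : Disjoint (Ni E u) (No E u ∪ No E v) := by
      rw [Finset.disjoint_left]
      intro w hw hw'
      simp only [mem_union, Ni, No, mem_filter, mem_univ, true_and] at hw hw'
      rcases hw' with hw' | hw'
      · exact c2 _ _ hw hw'
      · exact c3 u v w huv hw' hw
    rw [card_union_of_disjoint hdis, Fintype.card_fin] at hU
    have hui := card_union_add_card_inter (No E u) (No E v)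
    have h1 := hdi u
    have h2 := hd u
    have h3 := hd v
    have h4 := ha u v
    omega
  have harc2 : ∀ u v : Fin n, (u, v) ∈ E → 2 * d u + 2 * d v ≤ n + a u v + b u v + c u v := by
    intro u v huv
    have hU := card_le_univ ((No E u ∪ Ni E u) ∪ (No E v ∪ Ni E v))
    rw [Fintype.card_fin] at hU
    have hui := card_union_add_card_inter (No E u ∪ Ni E u) (No E v ∪ Ni E v)
    have hsub : (No E u ∪ Ni E u) ∩ (No E v ∪ Ni E v) ⊆
        (No E u ∩ No E v) ∪ (No E u ∩ Ni E v) ∪ (Ni E u ∩ Ni E v) := by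
      intro w hw
      simp only [mem_inter, mem_union, Ni, No, mem_filter, mem_univ, true_and] at hw ⊢
      rcases hw with ⟨h1 | h1, h2 | h2⟩
      · exact Or.inl (Or.inl ⟨h1, h2⟩)
      · exact Or.inl (Or.inr ⟨h1, h2⟩)
      · exact absurd h1 (c3 u v w huv h2)
      · exact Or.inr ⟨h1, h2⟩
    have k1 := card_le_card hsub
    have k2 := card_union_le ((No E u ∩ No E v) ∪ (No E u ∩ Ni E v)) (Ni E u ∩ Ni E v)
    have k3 := card_union_le (No E u ∩ No E v) (No E u ∩ Ni E v)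
    rw [card_union_of_disjoint (hdOI u), card_union_of_disjoint (hdOI v)] at hui
    have h1 := hdi u
    have h2 := hd u
    have h3 := hd v
    have h4 := hdi v
    have h5 := ha u v
    have h6 := hb u v
    have h7 := hc u v
    omega
  have fO : ∀ u v, ((No E u).filter fun w => (v, w) ∈ E) = No E u ∩ No E v := by
    intro u v; ext w; simp [No]
  have fOI : ∀ u v, ((No E u).filter fun w => (w, v) ∈ E) = No E u ∩ Ni E v := by
    intro u v; ext w; simp [No, Ni]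
  have fI : ∀ u v, ((Ni E v).filter fun w => (u, w) ∈ E) = No E u ∩ Ni E v := by
    intro u v; ext w; simp [No, Ni, and_comm]
  have fII : ∀ u v, ((Ni E v).filter fun w => (w, u) ∈ E) = Ni E u ∩ Ni E v := by
    intro u v; ext w; simp [Ni, and_comm]
  have hsw : ∀ X : Finset (Fin n), ∑ v ∈ X, (X.filter fun w => (w, v) ∈ E).card =
      ∑ v ∈ X, (X.filter fun w => (v, w) ∈ E).card := by
    intro X
    simp only [card_filter]
    exact sum_comm
  obtain ⟨eo, heo⟩ : ∃ eo : Fin n → ℕ, ∀ u, eo u = ∑ v ∈ No E u, a u v := ⟨_, fun _ => rfl⟩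
  obtain ⟨ei, hei⟩ : ∃ ei : Fin n → ℕ, ∀ v, ei v = ∑ u ∈ Ni E v, b u v := ⟨_, fun _ => rfl⟩
  have eo1 : ∀ u, ∑ v ∈ No E u, (((No E u).filter fun w => (v, w) ∈ E)).card = eo u := by
    intro u; rw [heo]; exact sum_congr rfl fun v _ => by rw [fO, ha]
  have eo2 : ∀ u, ∑ v ∈ No E u, b u v = eo u := by
    intro u
    rw [← eo1, ← hsw]
    exact sum_congr rfl fun v _ => by rw [fOI, hb]
  have ei1 : ∀ v, ∑ u ∈ Ni E v, (((Ni E v).filter fun w => (u, w) ∈ E)).card = ei v := by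
    intro v; rw [hei]; exact sum_congr rfl fun u _ => by rw [fI, hb]
  have ei2 : ∀ v, ∑ u ∈ Ni E v, c u v = ei v := by
    intro v
    rw [← ei1, ← hsw]
    exact sum_congr rfl fun u _ => by rw [fII, hc]
  have qo : ∀ u, 2 * eo u ≤ d u ^ 2 := by
    intro u
    have := inside E hloop c2 (No E u)
    rw [eo1, ← hd] at this
    omega
  have qi : ∀ u, 2 * ei u ≤ d u ^ 2 := by
    intro u
    have := inside E hloop c2 (Ni E u)
    rw [ei1, hdi] at this
    omega
  have hpath : ∀ u, 6 * ∑ v ∈ No E u, a u v * b u v ≤ d u ^ 3 := by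
    intro u
    have := paths (fun x y : Fin n => (x, y) ∈ E) c2 c3 (No E u)
    rw [← hd] at this
    refine le_trans (le_of_eq ?_) this
    congr 1
    exact sum_congr rfl fun v _ => by rw [fO, fOI, ha, hb]
  -- the sums
  obtain ⟨m, hm⟩ : ∃ m : ℕ, m = E.card := ⟨_, rfl⟩
  obtain ⟨S, hS⟩ : ∃ S : ℕ, S = ∑ u, d u ^ 2 := ⟨_, rfl⟩
  obtain ⟨T, hT⟩ : ∃ T : ℕ, T = ∑ u, d u ^ 3 := ⟨_, rfl⟩
  obtain ⟨t, ht⟩ : ∃ t : ℕ, t = ∑ u, eo u := ⟨_, rfl⟩
  obtain ⟨X, hX⟩ : ∃ X : ℕ, X = ∑ u, d u * eo u := ⟨_, rfl⟩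
  obtain ⟨Y, hY⟩ : ∃ Y : ℕ, Y = ∑ u, d u * ei u := ⟨_, rfl⟩
  obtain ⟨Z, hZ⟩ : ∃ Z : ℕ, Z = ∑ e ∈ E, a e.1 e.2 * b e.1 e.2 := ⟨_, rfl⟩
  have s1 : ∑ u, d u = m := by
    have := sum_tail E (fun _ _ => 1)
    simp only [sum_const, smul_eq_mul, mul_one, ← hd] at this
    rw [hm]; exact this.symm
  have s2 : ∑ e ∈ E, d e.1 = S := by
    rw [sum_tail E (fun u _ => d u), hS]
    refine sum_congr rfl fun u _ => ?_
    rw [sum_const, smul_eq_mul, sq, hd]
  have s3 : ∑ e ∈ E, d e.2 = S := by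
    rw [sum_head E (fun _ v => d v), hS]
    refine sum_congr rfl fun v _ => ?_
    rw [sum_const, smul_eq_mul, sq, hdi]
  have sa : ∑ e ∈ E, a e.1 e.2 = t := by
    rw [sum_tail E a, ht]; exact sum_congr rfl fun u _ => (heo u).symm
  have sb : ∑ e ∈ E, b e.1 e.2 = t := by
    rw [sum_tail E b, ht]; exact sum_congr rfl fun u _ => eo2 u
  have sei : ∑ v, ei v = t := by
    rw [← sb, sum_head E b]; exact sum_congr rfl fun v _ => hei v
  have sc : ∑ e ∈ E, c e.1 e.2 = t := by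
    rw [sum_head E c, ← sei]; exact sum_congr rfl fun v _ => ei2 v
  have sX : ∑ e ∈ E, b e.1 e.2 * d e.1 = X := by
    rw [sum_tail E (fun u v => b u v * d u), hX]
    refine sum_congr rfl fun u _ => ?_
    rw [← sum_mul, eo2, mul_comm]
  have sY : ∑ e ∈ E, b e.1 e.2 * d e.2 = Y := by
    rw [sum_head E (fun u v => b u v * d v), hY]
    refine sum_congr rfl fun v _ => ?_
    rw [← sum_mul, ← hei, mul_comm]
  have i1 : 4 * S ≤ n * m + 3 * t := by
    have := sum_le_sum (s := E) fun e he => harc2 e.1 e.2 he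
    simp only [sum_add_distrib, ← mul_sum, s2, s3, sa, sb, sc, sum_const, smul_eq_mul] at this
    rw [← hm, mul_comm m n] at this
    omega
  have i2 : 2 * X + Y ≤ n * t + Z := by
    have := sum_le_sum (s := E) fun e he =>
      Nat.mul_le_mul_left (b e.1 e.2) (harc e.1 e.2 he)
    have e1 : ∀ e : Fin n × Fin n, b e.1 e.2 * (2 * d e.1 + d e.2) =
        2 * (b e.1 e.2 * d e.1) + b e.1 e.2 * d e.2 := fun e => by ring
    have e2 : ∀ e : Fin n × Fin n, b e.1 e.2 * (n + a e.1 e.2) =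
        n * b e.1 e.2 + a e.1 e.2 * b e.1 e.2 := fun e => by ring
    simp only [e1, e2, sum_add_distrib, ← mul_sum, sX, sY, sb, ← hZ] at this
    exact this
  have i3 : 6 * Z ≤ T := by
    rw [hZ, sum_tail E (fun u v => a u v * b u v), hT, mul_sum]
    exact sum_le_sum fun u _ => hpath u
  have key : ∀ x e : ℕ, 2 * x ≤ n → 2 * e ≤ x ^ 2 →
      (2 : ℤ) * x ^ 3 - 4 * (x * e) ≤ n * x ^ 2 - 2 * n * e := by
    intro x e h1 h2
    have h1' : (2 : ℤ) * x ≤ n := by exact_mod_cast h1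
    have h2' : (2 : ℤ) * e ≤ x ^ 2 := by exact_mod_cast h2
    nlinarith [mul_nonneg (sub_nonneg.2 h1') (sub_nonneg.2 h2')]
  have i4 : (2 : ℤ) * T - 4 * X ≤ n * S - 2 * n * t := by
    have := sum_le_sum (s := (univ : Finset (Fin n))) fun u _ => key (d u) (eo u) (hdn u) (qo u)
    simp only [sum_sub_distrib, ← mul_sum] at this
    rw [hT, hX, hS, ht]
    push_cast
    exact this
  have i5 : (2 : ℤ) * T - 4 * Y ≤ n * S - 2 * n * t := by
    have := sum_le_sum (s := (univ : Finset (Fin n))) fun u _ => key (d u) (ei u) (hdn u) (qi u)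
    simp only [sum_sub_distrib, ← mul_sum] at this
    rw [hT, hY, hS, ← sei]
    push_cast
    exact this
  have i6 : m ^ 2 ≤ n * S := by
    have := sq_sum_le_card_mul_sum_sq (s := (univ : Finset (Fin n))) (f := d)
    rw [s1, card_univ, Fintype.card_fin, ← hS] at this
    exact this
  have i7 : S ^ 2 ≤ m * T := by
    rw [hS, hT, ← s1]
    exact sum_sq_le_sum_mul_sum_of_sq_eq_mul univ (fun u _ => Nat.zero_le _)
      (fun u _ => Nat.zero_le _) (fun u _ => by ring)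
  have hm0 : 0 < m := by rw [hm]; exact card_pos.mpr hpos
  have j1 : (4 : ℤ) * S ≤ n * m + 3 * t := by exact_mod_cast i1
  have j2 : (2 : ℤ) * X + Y ≤ n * t + Z := by exact_mod_cast i2
  have j3 : (6 : ℤ) * Z ≤ T := by exact_mod_cast i3
  have j6 : (m : ℤ) ^ 2 ≤ n * S := by exact_mod_cast i6
  have j7 : (S : ℤ) ^ 2 ≤ m * T := by exact_mod_cast i7
  have hn0 : (0 : ℤ) ≤ n := Int.natCast_nonneg n
  have hm1 : (0 : ℤ) < m := by exact_mod_cast hm0
  have hS0 : (0 : ℤ) ≤ S := Int.natCast_nonneg S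
  have k1 : (16 : ℤ) * T ≤ 9 * (n * S) - 6 * (n * t) := by nlinarith
  have k2 : (4 : ℤ) * (n * S) ≤ n * (n * m) + 3 * (n * t) := by nlinarith
  have k3 : (16 : ℤ) * T ≤ n * S + 2 * (n * (n * m)) := by linarith
  have k4 : (16 : ℤ) * S ^ 2 ≤ m * (n * S + 2 * (n * (n * m))) := by nlinarith
  rw [← hm]
  have goal : (16 : ℤ) * m ^ 2 ≤ n ^ 2 * m + 2 * n ^ 4 := by
    by_contra hcon
    push Not at hcon
    have h16 : (n : ℤ) ^ 2 < 16 * m := by
      have h4 : (0 : ℤ) ≤ n ^ 4 := by positivity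
      by_contra hle
      push Not at hle
      nlinarith
    have p1 : (0 : ℤ) ≤ 16 * m ^ 2 - n ^ 2 * m := by nlinarith
    have p2 : (16 : ℤ) * m ^ 2 - n ^ 2 * m ≤ 16 * (n * S) - n ^ 2 * m := by linarith
    have p3 : (m : ℤ) ^ 2 * (16 * m ^ 2 - n ^ 2 * m) ≤ (n * S) * (16 * (n * S) - n ^ 2 * m) :=
      mul_le_mul j6 p2 p1 (by positivity)
    have p4 : ((n : ℤ) * S) * (16 * (n * S) - n ^ 2 * m) ≤ 2 * n ^ 4 * m ^ 2 := by
      have := mul_le_mul_of_nonneg_left k4 (by positivity : (0 : ℤ) ≤ n ^ 2)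
      nlinarith
    have p5 : (m : ℤ) ^ 2 * (16 * m ^ 2 - n ^ 2 * m) ≤ m ^ 2 * (2 * n ^ 4) := by linarith
    have p6 := le_of_mul_le_mul_left p5 (by positivity : (0 : ℤ) < m ^ 2)
    linarith
  exact_mod_cast goal

end

end Pool.Agent.H708R3.TK
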